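import Mathlib

set_option autoImplicit false

open MeasureTheory FourierTransform SchwartzMap
open scoped ENNReal Topology ContDiff

namespace Pool.Agent.H58

/-- The classical Fourier integral of an `L¹ ∩ L²` function coincides a.e. with its `L²` Fourier
transform. -/
theorem fourier_ae_eq_of_memLp (f : ℝ → ℂ) (h1 : Integrable f) (h2 : MemLp f 2) :
    (𝓕 (h2.toLp f) : Lp ℂ 2 (volume : Measure ℝ)) =ᵐ[volume] 𝓕 f := by
  have hcont : Continuous (𝓕 f) :=
    (VectorFourier.fourierIntegral_continuous Real.continuous_fourierChar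
      (by exact (innerSL ℝ (E := ℝ)).continuous₂) h1)
  apply ae_eq_of_integral_contDiff_smul_eq
  · exact (Lp.memLp _).locallyIntegrable (by norm_num)
  · exact hcont.locallyIntegrable
  · intro g g_smooth g_cpt
    have hg₁ : HasCompactSupport (Complex.ofRealCLM ∘ g) := g_cpt.comp_left rfl
    have hg₂ : ContDiff ℝ ∞ (Complex.ofRealCLM ∘ g) := by fun_prop
    have key := congrArg (fun T : 𝓢'(ℝ, ℂ) => T (hg₁.toSchwartzMap hg₂))
      (Lp.fourier_toTemperedDistribution_eq (h2.toLp f))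
    simp only [TemperedDistribution.fourier_apply, Lp.toTemperedDistribution_apply] at key
    have e1 : ∫ x, (𝓕 (hg₁.toSchwartzMap hg₂)) x • (h2.toLp f) x
        = ∫ x, (𝓕 (hg₁.toSchwartzMap hg₂)) x • f x := by
      apply integral_congr_ae
      filter_upwards [h2.coeFn_toLp] with x hx
      rw [hx]
    rw [e1] at key
    have e2 : ∫ x, (𝓕 (hg₁.toSchwartzMap hg₂)) x • f x
        = ∫ x, (hg₁.toSchwartzMap hg₂) x • 𝓕 f x := by
      have := VectorFourier.integral_fourierIntegral_smul_eq_flip (μ := (volume : Measure ℝ))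
        (ν := (volume : Measure ℝ)) (L := innerₗ ℝ) (e := Real.fourierChar)
        (f := fun x => (hg₁.toSchwartzMap hg₂) x) (g := f)
        Real.continuous_fourierChar (by exact (innerSL ℝ (E := ℝ)).continuous₂)
        (hg₁.toSchwartzMap hg₂).integrable h1
      rw [flip_innerₗ] at this
      exact this
    rw [e2] at key
    simpa using key.symm

/-- Plancherel for `L¹ ∩ L²` functions on the line. -/
theorem plancherel (f : ℝ → ℂ) (h1 : Integrable f) (h2 : MemLp f 2) :
    ∫⁻ ξ, ‖𝓕 f ξ‖ₑ ^ 2 = ∫⁻ x, ‖f x‖ₑ ^ 2 := by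
  have h := fourier_ae_eq_of_memLp f h1 h2
  have hn : ‖(𝓕 (h2.toLp f) : Lp ℂ 2 (volume : Measure ℝ))‖ₑ = ‖(h2.toLp f : Lp ℂ 2 (volume : Measure ℝ))‖ₑ := by
    rw [← ofReal_norm, ← ofReal_norm, Lp.norm_fourier_eq]
  have e1 : eLpNorm (𝓕 f) 2 volume = eLpNorm f 2 volume := by
    rw [← eLpNorm_congr_ae h, ← Lp.enorm_def, hn, Lp.enorm_def]
    exact eLpNorm_congr_ae h2.coeFn_toLp
  have conv : ∀ g : ℝ → ℂ, ∫⁻ x, ‖g x‖ₑ ^ 2 = (eLpNorm g 2 volume) ^ 2 := by
    intro g
    have := eLpNorm_nnreal_pow_eq_lintegral (f := g) (μ := (volume : Measure ℝ)) (p := 2) (by norm_num)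
    simpa using this.symm
  rw [conv, conv, e1]

end Pool.Agent.H58
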