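import Mathlib

set_option autoImplicit false

open MeasureTheory FourierTransform
open scoped ENNReal Topology

namespace Pool.Agent.H58

/-- `k(z) = e^{-|z|}/2`. -/
noncomputable def kk (z : ℝ) : ℝ := Real.exp (-|z|) / 2
/-- `κ'`. -/
noncomputable def kap1 (z : ℝ) : ℝ :=
  -(Real.exp (-(max z 0)) - Real.exp (-(4 * max z 0))) / 2
    + (Real.exp (-(max (-z) 0)) - Real.exp (-(4 * max (-z) 0))) / 2
/-- `κ''(z) = k(z) - 4 k(4z)`. -/
noncomputable def kap2 (z : ℝ) : ℝ := Real.exp (-|z|) / 2 - 2 * Real.exp (-(4 * |z|))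
/-- `κ'''`. -/
noncomputable def kap3 (z : ℝ) : ℝ :=
  if 0 < z then -(Real.exp (-z)) / 2 + 8 * Real.exp (-(4 * z))
  else Real.exp z / 2 - 8 * Real.exp (4 * z)

theorem abs_exp_neg_sub_le {a b : ℝ} (ha : 0 ≤ a) (hb : 0 ≤ b) :
    |Real.exp (-a) - Real.exp (-b)| ≤ |a - b| := by
  wlog h : a ≤ b generalizing a b with H
  · rw [abs_sub_comm, abs_sub_comm a b]
    exact H hb ha (le_of_not_ge h)
  have h1 : Real.exp (-b) ≤ Real.exp (-a) := Real.exp_le_exp.2 (by linarith)
  rw [abs_of_nonneg (by linarith), abs_of_nonpos (by linarith)]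
  have h2 : Real.exp (-b) = Real.exp (-a) * Real.exp (-(b - a)) := by
    rw [← Real.exp_add]; congr 1; ring
  have h3 : 1 - (b - a) ≤ Real.exp (-(b - a)) := by
    have := Real.add_one_le_exp (-(b-a)); linarith
  have h4 : Real.exp (-a) ≤ 1 := Real.exp_le_one_iff.2 (by linarith)
  have h5 : 0 < Real.exp (-a) := Real.exp_pos _
  rw [h2]
  nlinarith

theorem kap2_lip (x y : ℝ) : |kap2 x - kap2 y| ≤ 10 * |x - y| := by
  have h1 := abs_exp_neg_sub_le (abs_nonneg x) (abs_nonneg y)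
  have h2 := abs_exp_neg_sub_le (a := 4 * |x|) (b := 4 * |y|) (by positivity) (by positivity)
  have h3 : abs (|x| - |y|) ≤ |x - y| := abs_abs_sub_abs_le_abs_sub x y
  have h4 : abs (4 * |x| - 4 * |y|) = 4 * abs (|x| - |y|) := by
    rw [← mul_sub, abs_mul]; norm_num
  rw [h4] at h2
  have : kap2 x - kap2 y = (Real.exp (-|x|) - Real.exp (-|y|)) / 2
      - 2 * (Real.exp (-(4 * |x|)) - Real.exp (-(4 * |y|))) := by
    unfold kap2; ring
  rw [this]
  calc |(Real.exp (-|x|) - Real.exp (-|y|)) / 2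
      - 2 * (Real.exp (-(4 * |x|)) - Real.exp (-(4 * |y|)))|
      ≤ |(Real.exp (-|x|) - Real.exp (-|y|)) / 2|
        + |2 * (Real.exp (-(4 * |x|)) - Real.exp (-(4 * |y|)))| := abs_sub _ _
    _ = |(Real.exp (-|x|) - Real.exp (-|y|))| / 2
        + 2 * |(Real.exp (-(4 * |x|)) - Real.exp (-(4 * |y|)))| := by
        rw [abs_div, abs_mul]; norm_num
    _ ≤ 10 * |x - y| := by nlinarith [abs_nonneg (x - y)]

theorem kap1_lip (x y : ℝ) : |kap1 x - kap1 y| ≤ 10 * |x - y| := by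
  have h1 := abs_exp_neg_sub_le (le_max_right x 0) (le_max_right y 0)
  have h2 := abs_exp_neg_sub_le (a := 4 * max x 0) (b := 4 * max y 0) (by positivity) (by positivity)
  have h1' := abs_exp_neg_sub_le (le_max_right (-x) 0) (le_max_right (-y) 0)
  have h2' := abs_exp_neg_sub_le (a := 4 * max (-x) 0) (b := 4 * max (-y) 0)
    (by positivity) (by positivity)
  have h3 : |max x 0 - max y 0| ≤ |x - y| := by
    have := abs_max_sub_max_le_abs x y 0
    exact this
  have h3' : |max (-x) 0 - max (-y) 0| ≤ |x - y| := by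
    have := abs_max_sub_max_le_abs (-x) (-y) 0
    refine this.trans (le_of_eq ?_)
    rw [abs_sub_comm]; congr 1; ring
  have h4 : |4 * max x 0 - 4 * max y 0| = 4 * |max x 0 - max y 0| := by
    rw [← mul_sub, abs_mul]; norm_num
  have h4' : |4 * max (-x) 0 - 4 * max (-y) 0| = 4 * |max (-x) 0 - max (-y) 0| := by
    rw [← mul_sub, abs_mul]; norm_num
  rw [h4] at h2
  rw [h4'] at h2'
  unfold kap1
  rw [abs_le] at h1 h2 h1' h2' ⊢
  constructor <;> linarith [h1.1, h1.2, h2.1, h2.2, h1'.1, h1'.2, h2'.1, h2'.2]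

theorem kap1_deriv {z : ℝ} (hz : z ≠ 0) : HasDerivAt kap1 (kap2 z) z := by
  rcases lt_or_gt_of_ne hz with h | h
  · have e : kap1 =ᶠ[𝓝 z] fun z => (Real.exp z - Real.exp (4 * z)) / 2 := by
      filter_upwards [Iio_mem_nhds h] with w hw
      simp only [Set.mem_Iio] at hw
      unfold kap1
      rw [max_eq_right hw.le, max_eq_left (by linarith : (0:ℝ) ≤ -w)]
      simp
    have e2 : kap2 z = (Real.exp z - 4 * Real.exp (4 * z)) / 2 := by
      unfold kap2
      rw [abs_of_neg h]; ring_nf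
    rw [e2]
    refine HasDerivAt.congr_of_eventuallyEq ?_ e
    have h1 : HasDerivAt (fun z => Real.exp z) (Real.exp z) z := Real.hasDerivAt_exp z
    have h2 : HasDerivAt (fun z => Real.exp (4 * z)) (4 * Real.exp (4 * z)) z := by
      have := ((hasDerivAt_id z).const_mul 4).exp
      simpa [mul_comm] using this
    exact (h1.sub h2).div_const 2
  · have e : kap1 =ᶠ[𝓝 z] fun z => -(Real.exp (-z) - Real.exp (-(4 * z))) / 2 := by
      filter_upwards [Ioi_mem_nhds h] with w hw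
      simp only [Set.mem_Ioi] at hw
      unfold kap1
      rw [max_eq_left hw.le, max_eq_right (by linarith : -w ≤ (0:ℝ))]
      simp
    have e2 : kap2 z = -(-Real.exp (-z) - -(4 * Real.exp (-(4 * z)))) / 2 := by
      unfold kap2
      rw [abs_of_pos h]; ring
    rw [e2]
    refine HasDerivAt.congr_of_eventuallyEq ?_ e
    have h1 : HasDerivAt (fun z => Real.exp (-z)) (-Real.exp (-z)) z := by
      have := (hasDerivAt_id z).neg.exp
      simpa [mul_comm] using this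
    have h2 : HasDerivAt (fun z => Real.exp (-(4 * z))) (-(4 * Real.exp (-(4 * z)))) z := by
      have := ((hasDerivAt_id z).const_mul 4).neg.exp
      simpa [mul_comm] using this
    exact (h1.sub h2).neg.div_const 2

theorem kap2_deriv {z : ℝ} (hz : z ≠ 0) : HasDerivAt kap2 (kap3 z) z := by
  rcases lt_or_gt_of_ne hz with h | h
  · have e : kap2 =ᶠ[𝓝 z] fun z => Real.exp z / 2 - 2 * Real.exp (4 * z) := by
      filter_upwards [Iio_mem_nhds h] with w hw
      simp only [Set.mem_Iio] at hw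
      unfold kap2
      rw [abs_of_neg hw]; ring_nf
    have e2 : kap3 z = Real.exp z / 2 - 2 * (4 * Real.exp (4 * z)) := by
      unfold kap3
      rw [if_neg (by linarith)]; ring_nf
    rw [e2]
    refine HasDerivAt.congr_of_eventuallyEq ?_ e
    have h1 : HasDerivAt (fun z => Real.exp z) (Real.exp z) z := Real.hasDerivAt_exp z
    have h2 : HasDerivAt (fun z => Real.exp (4 * z)) (4 * Real.exp (4 * z)) z := by
      have := ((hasDerivAt_id z).const_mul 4).exp
      simpa [mul_comm] using this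
    exact (h1.div_const 2).sub (h2.const_mul 2)
  · have e : kap2 =ᶠ[𝓝 z] fun z => Real.exp (-z) / 2 - 2 * Real.exp (-(4 * z)) := by
      filter_upwards [Ioi_mem_nhds h] with w hw
      simp only [Set.mem_Ioi] at hw
      unfold kap2
      rw [abs_of_pos hw]
    have e2 : kap3 z = -Real.exp (-z) / 2 - 2 * (-(4 * Real.exp (-(4 * z)))) := by
      unfold kap3
      rw [if_pos h]; ring
    rw [e2]
    refine HasDerivAt.congr_of_eventuallyEq ?_ e
    have h1 : HasDerivAt (fun z => Real.exp (-z)) (-Real.exp (-z)) z := by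
      have := (hasDerivAt_id z).neg.exp
      simpa [mul_comm] using this
    have h2 : HasDerivAt (fun z => Real.exp (-(4 * z))) (-(4 * Real.exp (-(4 * z)))) z := by
      have := ((hasDerivAt_id z).const_mul 4).neg.exp
      simpa [mul_comm] using this
    exact (h1.div_const 2).sub (h2.const_mul 2)

theorem exp4_le (z : ℝ) : Real.exp (-(4 * |z|)) ≤ Real.exp (-|z|) :=
  Real.exp_le_exp.2 (by have := abs_nonneg z; linarith)

theorem kap1_bd (z : ℝ) : |kap1 z| ≤ 10 * Real.exp (-|z|) := by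
  have h4 := exp4_le z
  have p1 := Real.exp_pos (-|z|)
  have p4 := Real.exp_pos (-(4 * |z|))
  rcases le_total z 0 with h | h
  · have : kap1 z = (Real.exp (-|z|) - Real.exp (-(4 * |z|))) / 2 := by
      unfold kap1
      rw [max_eq_right h, max_eq_left (by linarith : (0:ℝ) ≤ -z), abs_of_nonpos h]
      simp
    rw [this, abs_le]; constructor <;> linarith
  · have : kap1 z = -(Real.exp (-|z|) - Real.exp (-(4 * |z|))) / 2 := by
      unfold kap1
      rw [max_eq_left h, max_eq_right (by linarith : -z ≤ (0:ℝ)), abs_of_nonneg h]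
      simp
    rw [this, abs_le]; constructor <;> linarith

theorem kap2_bd (z : ℝ) : |kap2 z| ≤ 10 * Real.exp (-|z|) := by
  have h4 := exp4_le z
  have p1 := Real.exp_pos (-|z|)
  have p4 := Real.exp_pos (-(4 * |z|))
  unfold kap2
  rw [abs_le]; constructor <;> linarith

theorem kap3_bd (z : ℝ) : |kap3 z| ≤ 10 * Real.exp (-|z|) := by
  have h4 := exp4_le z
  have p1 := Real.exp_pos (-|z|)
  have p4 := Real.exp_pos (-(4 * |z|))
  by_cases h : 0 < z
  · have : kap3 z = -(Real.exp (-|z|)) / 2 + 8 * Real.exp (-(4 * |z|)) := by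
      unfold kap3
      rw [if_pos h, abs_of_pos h]
    rw [this, abs_le]; constructor <;> linarith
  · have : kap3 z = (Real.exp (-|z|)) / 2 - 8 * Real.exp (-(4 * |z|)) := by
      unfold kap3
      rw [if_neg h, abs_of_nonpos (not_lt.1 h)]
      ring_nf
    rw [this, abs_le]; constructor <;> linarith

theorem kk_meas : Measurable kk := by unfold kk; fun_prop
theorem kap1_meas : Measurable kap1 := by unfold kap1; fun_prop
theorem kap2_meas : Measurable kap2 := by unfold kap2; fun_prop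
theorem kap3_meas : Measurable kap3 := by
  unfold kap3
  exact Measurable.ite measurableSet_Ioi (by fun_prop) (by fun_prop)

/-- `k_b - k_{b/4} = κ''_b`. -/
theorem kk_sub (b z : ℝ) (hb : 0 < b) :
    b⁻¹ * kk (z / b) - (b/4)⁻¹ * kk (z / (b/4)) = b⁻¹ * kap2 (z / b) := by
  unfold kk kap2
  have h1 : |z / (b / 4)| = 4 * |z / b| := by
    rw [show z / (b/4) = 4 * (z / b) by field_simp, abs_mul]; norm_num
  rw [h1]
  field_simp
  ring

/-- One-sided exponentials. -/
noncomputable def pp (c w : ℝ) : ℝ := if 0 < w then Real.exp (-(c * w)) else 0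
noncomputable def pm (c w : ℝ) : ℝ := if w < 0 then Real.exp (c * w) else 0

theorem pp_eq_ind (c : ℝ) : (fun w => ((pp c w : ℝ) : ℂ)) =
    (Set.Ioi 0).indicator (fun w : ℝ => Complex.exp (-(c : ℂ) * w)) := by
  ext w
  by_cases h : 0 < w
  · rw [Set.indicator_of_mem (by exact h)]
    simp [pp, h]
  · rw [Set.indicator_of_notMem (by exact h)]
    simp [pp, h]

theorem pm_eq_ind (c : ℝ) : (fun w => ((pm c w : ℝ) : ℂ)) =
    (Set.Iio 0).indicator (fun w : ℝ => Complex.exp ((c : ℂ) * w)) := by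
  ext w
  by_cases h : w < 0
  · rw [Set.indicator_of_mem (by exact h)]
    simp [pm, h]
  · rw [Set.indicator_of_notMem (by exact h)]
    simp [pm, h]

theorem pp_int {c : ℝ} (hc : 0 < c) : Integrable (fun w => ((pp c w : ℝ) : ℂ)) := by
  rw [pp_eq_ind, integrable_indicator_iff measurableSet_Ioi]
  exact integrableOn_exp_mul_complex_Ioi (by simpa using hc) 0

theorem pm_int {c : ℝ} (hc : 0 < c) : Integrable (fun w => ((pm c w : ℝ) : ℂ)) := by
  rw [pm_eq_ind, integrable_indicator_iff measurableSet_Iio]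
  exact (integrableOn_exp_mul_complex_Iic (by simpa using hc) 0).mono_set Set.Iio_subset_Iic_self

theorem fourier_pp {c : ℝ} (hc : 0 < c) (ζ : ℝ) :
    𝓕 (fun w => ((pp c w : ℝ) : ℂ)) ζ = 1 / (c + (2 * Real.pi * ζ) * Complex.I) := by
  rw [pp_eq_ind, Real.fourier_real_eq_integral_exp_smul]
  have e : (fun v : ℝ => Complex.exp (↑(-2 * Real.pi * v * ζ) * Complex.I) •
      (Set.Ioi (0:ℝ)).indicator (fun w : ℝ => Complex.exp (-(c : ℂ) * w)) v)
      = (Set.Ioi (0:ℝ)).indicator (fun w : ℝ => Complex.exp ((-(c + (2 * Real.pi * ζ) * Complex.I)) * w)) := by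
    ext w
    by_cases h : w ∈ Set.Ioi (0:ℝ)
    · rw [Set.indicator_of_mem h, Set.indicator_of_mem h, smul_eq_mul, ← Complex.exp_add]
      congr 1
      push_cast
      ring
    · rw [Set.indicator_of_notMem h, Set.indicator_of_notMem h]; simp
  rw [e, integral_indicator measurableSet_Ioi, integral_exp_mul_complex_Ioi (by simpa using hc)]
  simp only [Complex.ofReal_zero, mul_zero, Complex.exp_zero]
  rw [neg_div_neg_eq]

theorem fourier_pm {c : ℝ} (hc : 0 < c) (ζ : ℝ) :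
    𝓕 (fun w => ((pm c w : ℝ) : ℂ)) ζ = 1 / (c - (2 * Real.pi * ζ) * Complex.I) := by
  rw [pm_eq_ind, Real.fourier_real_eq_integral_exp_smul]
  have e : (fun v : ℝ => Complex.exp (↑(-2 * Real.pi * v * ζ) * Complex.I) •
      (Set.Iio (0:ℝ)).indicator (fun w : ℝ => Complex.exp ((c : ℂ) * w)) v)
      = (Set.Iio (0:ℝ)).indicator (fun w : ℝ => Complex.exp (((c - (2 * Real.pi * ζ) * Complex.I)) * w)) := by
    ext w
    by_cases h : w ∈ Set.Iio (0:ℝ)
    · rw [Set.indicator_of_mem h, Set.indicator_of_mem h, smul_eq_mul, ← Complex.exp_add]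
      congr 1
      push_cast
      ring
    · rw [Set.indicator_of_notMem h, Set.indicator_of_notMem h]; simp
  rw [e, integral_indicator measurableSet_Iio, ← integral_Iic_eq_integral_Iio,
    integral_exp_mul_complex_Iic (by simpa using hc)]
  simp

/-- The basic multiplier weight. -/
noncomputable def gw (z : ℝ) : ℝ := (2 * Real.pi * z) ^ 2 / (1 + (2 * Real.pi * z) ^ 2)

theorem kap1_eq (w : ℝ) : kap1 w = -(1/2) * pp 1 w + (1/2) * pp 4 w + (1/2) * pm 1 w
    - (1/2) * pm 4 w := by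
  unfold kap1 pp pm
  rcases lt_trichotomy w 0 with h | h | h
  · rw [max_eq_right h.le, max_eq_left (by linarith : (0:ℝ) ≤ -w), if_neg (by linarith),
      if_neg (by linarith), if_pos h, if_pos h]
    simp only [neg_neg, neg_zero, Real.exp_zero, mul_zero, one_mul, mul_neg]
    ring
  · subst h; simp
  · rw [max_eq_left h.le, max_eq_right (by linarith : -w ≤ (0:ℝ)), if_pos (by linarith),
      if_pos (by linarith), if_neg (by linarith), if_neg (by linarith)]
    simp only [neg_zero, Real.exp_zero, mul_zero, one_mul]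
    ring

theorem kap2_eq {w : ℝ} (hw : w ≠ 0) : kap2 w = (1/2) * pp 1 w - 2 * pp 4 w + (1/2) * pm 1 w
    - 2 * pm 4 w := by
  unfold kap2 pp pm
  rcases lt_or_gt_of_ne hw with h | h
  · rw [if_neg (by linarith), abs_of_neg h,
      if_neg (by linarith), if_pos h, if_pos h]
    simp only [neg_neg, one_mul, mul_neg, mul_zero]
    ring
  · rw [if_pos (by linarith), abs_of_pos h,
      if_pos (by linarith), if_neg (by linarith), if_neg (by linarith)]
    simp only [mul_zero, one_mul]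
    ring

theorem kap3_eq {w : ℝ} (hw : w ≠ 0) : kap3 w = -(1/2) * pp 1 w + 8 * pp 4 w + (1/2) * pm 1 w
    - 8 * pm 4 w := by
  unfold kap3 pp pm
  rcases lt_or_gt_of_ne hw with h | h
  · rw [if_neg (by linarith), if_neg (by linarith),
      if_neg (by linarith), if_pos h, if_pos h]
    simp only [one_mul, mul_zero]
    ring
  · rw [if_pos (by linarith), if_pos (by linarith),
      if_pos (by linarith), if_neg (by linarith), if_neg (by linarith)]
    simp only [mul_zero, one_mul]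
    ring

theorem fourier_comb (a₁ a₂ a₃ a₄ : ℝ) (ζ : ℝ) :
    𝓕 (fun w : ℝ => ((a₁ * pp 1 w + a₂ * pp 4 w + a₃ * pm 1 w + a₄ * pm 4 w : ℝ) : ℂ)) ζ
      = a₁ * (1 / (1 + (2 * Real.pi * ζ) * Complex.I)) + a₂ * (1 / (4 + (2 * Real.pi * ζ) * Complex.I))
      + a₃ * (1 / (1 - (2 * Real.pi * ζ) * Complex.I)) + a₄ * (1 / (4 - (2 * Real.pi * ζ) * Complex.I)) := by
  have h1 := fourier_pp (c := 1) (by norm_num) ζ
  have h2 := fourier_pp (c := 4) (by norm_num) ζ
  have h3 := fourier_pm (c := 1) (by norm_num) ζ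
  have h4 := fourier_pm (c := 4) (by norm_num) ζ
  push_cast at h1 h2 h3 h4
  rw [← h1, ← h2, ← h3, ← h4]
  simp only [Real.fourier_real_eq, Circle.smul_def, smul_eq_mul]
  have i1 : Integrable (fun w : ℝ => (Real.fourierChar (-(w * ζ)) : ℂ) * ((pp 1 w : ℝ) : ℂ)) := by
    have := (Real.fourierIntegral_convergent_iff (μ := (volume : Measure ℝ)) ζ).2
      (pp_int (c := 1) (by norm_num))
    simpa [Circle.smul_def, mul_comm] using this
  have i2 : Integrable (fun w : ℝ => (Real.fourierChar (-(w * ζ)) : ℂ) * ((pp 4 w : ℝ) : ℂ)) := by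
    have := (Real.fourierIntegral_convergent_iff (μ := (volume : Measure ℝ)) ζ).2
      (pp_int (c := 4) (by norm_num))
    simpa [Circle.smul_def, mul_comm] using this
  have i3 : Integrable (fun w : ℝ => (Real.fourierChar (-(w * ζ)) : ℂ) * ((pm 1 w : ℝ) : ℂ)) := by
    have := (Real.fourierIntegral_convergent_iff (μ := (volume : Measure ℝ)) ζ).2
      (pm_int (c := 1) (by norm_num))
    simpa [Circle.smul_def, mul_comm] using this
  have i4 : Integrable (fun w : ℝ => (Real.fourierChar (-(w * ζ)) : ℂ) * ((pm 4 w : ℝ) : ℂ)) := by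
    have := (Real.fourierIntegral_convergent_iff (μ := (volume : Measure ℝ)) ζ).2
      (pm_int (c := 4) (by norm_num))
    simpa [Circle.smul_def, mul_comm] using this
  have key : ∀ F1 F2 F3 F4 : ℝ → ℂ, Integrable F1 → Integrable F2 → Integrable F3 → Integrable F4 →
      ∫ w, ((a₁:ℂ) * F1 w + a₂ * F2 w + a₃ * F3 w + a₄ * F4 w)
        = a₁ * (∫ w, F1 w) + a₂ * (∫ w, F2 w) + a₃ * (∫ w, F3 w) + a₄ * (∫ w, F4 w) := by
    intro F1 F2 F3 F4 j1 j2 j3 j4
    rw [integral_add (by fun_prop) (by fun_prop), integral_add (by fun_prop) (by fun_prop),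
      integral_add (by fun_prop) (by fun_prop), integral_const_mul, integral_const_mul,
      integral_const_mul, integral_const_mul]
  rw [← key _ _ _ _ i1 i2 i3 i4]
  apply integral_congr_ae
  filter_upwards with w
  push_cast
  ring

theorem ne0a (c : ℂ) (hc : c = 1 ∨ c = 4) (ω : ℝ) : c + ω * Complex.I ≠ 0 := by
  intro h
  have := congrArg Complex.re h
  rcases hc with rfl | rfl <;> simp at this

theorem ne0b (c : ℂ) (hc : c = 1 ∨ c = 4) (ω : ℝ) : c - ω * Complex.I ≠ 0 := by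
  intro h
  have := congrArg Complex.re h
  rcases hc with rfl | rfl <;> simp at this

theorem ne0c (ω : ℝ) : (1 + (ω:ℂ)^2) ≠ 0 ∧ (16 + (ω:ℂ)^2) ≠ 0 := by
  constructor
  · have : ((1 + ω^2 : ℝ) : ℂ) ≠ 0 := by
      exact_mod_cast (by positivity : (1 + ω^2 : ℝ) ≠ 0)
    simpa using this
  · have : ((16 + ω^2 : ℝ) : ℂ) ≠ 0 := by
      exact_mod_cast (by positivity : (16 + ω^2 : ℝ) ≠ 0)
    simpa using this

theorem fr1 (ω : ℝ) : (-(1/2:ℝ) : ℂ) * (1 / (1 + ω * Complex.I)) + ((1/2:ℝ):ℂ) * (1 / (4 + ω * Complex.I))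
      + ((1/2:ℝ):ℂ) * (1 / (1 - ω * Complex.I)) + (-(1/2:ℝ):ℂ) * (1 / (4 - ω * Complex.I))
      = ((15 * ω / ((1 + ω^2) * (16 + ω^2)) : ℝ) : ℂ) * Complex.I := by
  have a1 := ne0a 1 (Or.inl rfl) ω
  have a2 := ne0a 4 (Or.inr rfl) ω
  have a3 := ne0b 1 (Or.inl rfl) ω
  have a4 := ne0b 4 (Or.inr rfl) ω
  have a5 := (ne0c ω).1
  have a6 := (ne0c ω).2
  push_cast
  field_simp
  ring_nf
  simp only [show Complex.I^3 = -Complex.I by rw [pow_succ, Complex.I_sq]; ring, show Complex.I^5 = Complex.I by rw [show (5:ℕ) = 2*2+1 by norm_num, pow_succ, pow_mul, Complex.I_sq]; ring]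
  ring

theorem fr2 (ω : ℝ) : ((1/2:ℝ) : ℂ) * (1 / (1 + ω * Complex.I)) + (-(2:ℝ):ℂ) * (1 / (4 + ω * Complex.I))
      + ((1/2:ℝ):ℂ) * (1 / (1 - ω * Complex.I)) + (-(2:ℝ):ℂ) * (1 / (4 - ω * Complex.I))
      = ((-15 * ω^2 / ((1 + ω^2) * (16 + ω^2)) : ℝ) : ℂ) := by
  have a1 := ne0a 1 (Or.inl rfl) ω
  have a2 := ne0a 4 (Or.inr rfl) ω
  have a3 := ne0b 1 (Or.inl rfl) ω
  have a4 := ne0b 4 (Or.inr rfl) ω
  have a5 := (ne0c ω).1
  have a6 := (ne0c ω).2
  push_cast
  field_simp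
  ring_nf
  simp only [show Complex.I^2 = -1 from Complex.I_sq, show Complex.I^4 = 1 by rw [show (4:ℕ) = 2*2 by norm_num, pow_mul, Complex.I_sq]; ring]
  ring

theorem fr3 (ω : ℝ) : (-(1/2:ℝ) : ℂ) * (1 / (1 + ω * Complex.I)) + ((8:ℝ):ℂ) * (1 / (4 + ω * Complex.I))
      + ((1/2:ℝ):ℂ) * (1 / (1 - ω * Complex.I)) + (-(8:ℝ):ℂ) * (1 / (4 - ω * Complex.I))
      = ((-15 * ω^3 / ((1 + ω^2) * (16 + ω^2)) : ℝ) : ℂ) * Complex.I := by
  have a1 := ne0a 1 (Or.inl rfl) ω
  have a2 := ne0a 4 (Or.inr rfl) ω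
  have a3 := ne0b 1 (Or.inl rfl) ω
  have a4 := ne0b 4 (Or.inr rfl) ω
  have a5 := (ne0c ω).1
  have a6 := (ne0c ω).2
  push_cast
  field_simp
  ring_nf
  simp only [show Complex.I^3 = -Complex.I by rw [pow_succ, Complex.I_sq]; ring, show Complex.I^5 = Complex.I by rw [show (5:ℕ) = 2*2+1 by norm_num, pow_succ, pow_mul, Complex.I_sq]; ring]
  ring

theorem fourier_kap1 (ζ : ℝ) : 𝓕 (fun w : ℝ => ((kap1 w : ℝ) : ℂ)) ζ =
    ((15 * (2 * Real.pi * ζ) / ((1 + (2 * Real.pi * ζ)^2) * (16 + (2 * Real.pi * ζ)^2)) : ℝ) : ℂ) * Complex.I := by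
  have := fourier_comb (-(1/2)) (1/2) (1/2) (-(1/2)) ζ
  rw [← fr1]
  push_cast at this ⊢
  rw [← this]
  apply Real.fourier_congr_ae
  filter_upwards with w
  rw [kap1_eq]
  push_cast
  ring

theorem fourier_kap2 (ζ : ℝ) : 𝓕 (fun w : ℝ => ((kap2 w : ℝ) : ℂ)) ζ =
    ((-15 * (2 * Real.pi * ζ)^2 / ((1 + (2 * Real.pi * ζ)^2) * (16 + (2 * Real.pi * ζ)^2)) : ℝ) : ℂ) := by
  have := fourier_comb ((1/2)) (-2) (1/2) (-2) ζ
  rw [← fr2]
  push_cast at this ⊢
  rw [← this]
  apply Real.fourier_congr_ae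
  have : ∀ᵐ w : ℝ, w ≠ 0 := by simp [ae_iff]
  filter_upwards [this] with w hw
  rw [kap2_eq hw]
  push_cast
  ring

theorem fourier_kap3 (ζ : ℝ) : 𝓕 (fun w : ℝ => ((kap3 w : ℝ) : ℂ)) ζ =
    ((-15 * (2 * Real.pi * ζ)^3 / ((1 + (2 * Real.pi * ζ)^2) * (16 + (2 * Real.pi * ζ)^2)) : ℝ) : ℂ) * Complex.I := by
  have := fourier_comb (-(1/2)) (8) (1/2) (-8) ζ
  rw [← fr3]
  push_cast at this ⊢
  rw [← this]
  apply Real.fourier_congr_ae
  have : ∀ᵐ w : ℝ, w ≠ 0 := by simp [ae_iff]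
  filter_upwards [this] with w hw
  rw [kap3_eq hw]
  push_cast
  ring

/-- The three kernels, indexed. -/
noncomputable def kap : ℕ → ℝ → ℝ
  | 1 => kap1
  | 2 => kap2
  | _ => kap3

theorem kap_bd (k : ℕ) (z : ℝ) : |kap k z| ≤ 10 * Real.exp (-|z|) := by
  unfold kap
  split
  · exact kap1_bd z
  · exact kap2_bd z
  · exact kap3_bd z

theorem kap_meas (k : ℕ) : Measurable (kap k) := by
  unfold kap
  split
  · exact kap1_meas
  · exact kap2_meas
  · exact kap3_meas

theorem gw_nonneg (z : ℝ) : 0 ≤ gw z := by unfold gw; positivity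

theorem mult_bd1 (ω : ℝ) : (15 * ω / ((1 + ω^2) * (16 + ω^2)))^2 ≤ 225 * (ω^2 / (1 + ω^2)) := by
  rw [div_pow, ← mul_div_assoc, div_le_div_iff₀ (by positivity) (by positivity)]
  have h1 : 0 ≤ ω^2 := sq_nonneg ω
  have : (15 * ω)^2 * (1 + ω^2) = 225 * ω^2 * (1 + ω^2) := by ring
  rw [this]
  apply mul_le_mul_of_nonneg_left _ (by positivity)
  nlinarith [mul_nonneg h1 h1, mul_nonneg (mul_nonneg h1 h1) h1, mul_nonneg (mul_nonneg h1 h1) (mul_nonneg h1 h1)]

theorem mult_bd2 (ω : ℝ) : (-15 * ω^2 / ((1 + ω^2) * (16 + ω^2)))^2 ≤ 225 * (ω^2 / (1 + ω^2)) := by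
  rw [div_pow, ← mul_div_assoc, div_le_div_iff₀ (by positivity) (by positivity)]
  have h1 : 0 ≤ ω^2 := sq_nonneg ω
  have : (-15 * ω^2)^2 * (1 + ω^2) = 225 * ω^2 * (ω^2 * (1 + ω^2)) := by ring
  rw [this]
  apply mul_le_mul_of_nonneg_left _ (by positivity)
  nlinarith [mul_nonneg h1 h1, mul_nonneg (mul_nonneg h1 h1) h1, mul_nonneg (mul_nonneg h1 h1) (mul_nonneg h1 h1)]

theorem mult_bd3 (ω : ℝ) : (-15 * ω^3 / ((1 + ω^2) * (16 + ω^2)))^2 ≤ 225 * (ω^2 / (1 + ω^2)) := by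
  rw [div_pow, ← mul_div_assoc, div_le_div_iff₀ (by positivity) (by positivity)]
  have h1 : 0 ≤ ω^2 := sq_nonneg ω
  have : (-15 * ω^3)^2 * (1 + ω^2) = 225 * ω^2 * (ω^2 * ω^2 * (1 + ω^2)) := by ring
  rw [this]
  apply mul_le_mul_of_nonneg_left _ (by positivity)
  nlinarith [mul_nonneg h1 h1, mul_nonneg (mul_nonneg h1 h1) h1, mul_nonneg (mul_nonneg h1 h1) (mul_nonneg h1 h1)]

theorem fourier_kap_bd (k : ℕ) (ζ : ℝ) :
    ‖𝓕 (fun w : ℝ => ((kap k w : ℝ) : ℂ)) ζ‖ ^ 2 ≤ 225 * gw ζ := by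
  unfold kap gw
  split
  · rw [fourier_kap1, norm_mul, Complex.norm_I, mul_one, Complex.norm_real, Real.norm_eq_abs, sq_abs]
    exact mult_bd1 _
  · rw [fourier_kap2, Complex.norm_real, Real.norm_eq_abs, sq_abs]
    exact mult_bd2 _
  · rw [fourier_kap3, norm_mul, Complex.norm_I, mul_one, Complex.norm_real, Real.norm_eq_abs, sq_abs]
    exact mult_bd3 _

/-- multiplier of `u - P u`. -/
theorem fourier_one_sub_pm (ζ : ℝ) :
    ‖1 - 𝓕 (fun w : ℝ => ((pm 1 w : ℝ) : ℂ)) ζ‖ ^ 2 = gw ζ := by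
  have h := fourier_pm (c := 1) (by norm_num) ζ
  rw [h]
  have a3 := ne0b 1 (Or.inl rfl) (2 * Real.pi * ζ)
  push_cast at a3 ⊢
  rw [one_sub_div a3, norm_div, div_pow]
  have e1 : ‖(1 - 2 * (Real.pi:ℂ) * ζ * Complex.I - 1)‖ ^ 2 = (2 * Real.pi * ζ)^2 := by
    have : (1 - 2 * (Real.pi:ℂ) * ζ * Complex.I - 1) = ((-(2 * Real.pi * ζ) : ℝ) : ℂ) * Complex.I := by
      push_cast; ring
    rw [this, norm_mul, Complex.norm_I, mul_one, Complex.norm_real, Real.norm_eq_abs, sq_abs]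
    ring
  have e2 : ‖(1 - 2 * (Real.pi:ℂ) * ζ * Complex.I)‖ ^ 2 = 1 + (2 * Real.pi * ζ)^2 := by
    rw [← Complex.normSq_eq_norm_sq]
    have : (1 - 2 * (Real.pi:ℂ) * ζ * Complex.I) = ((1:ℝ) : ℂ) + ((-(2 * Real.pi * ζ) : ℝ) : ℂ) * Complex.I := by
      push_cast; ring
    rw [this, Complex.normSq_add_mul_I]
    ring
  rw [e1, e2, gw]

end Pool.Agent.H58
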