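import Mathlib
import Pool.Agent.Lib_helper58.Planch

set_option autoImplicit false

open MeasureTheory FourierTransform
open scoped ENNReal Topology

namespace Pool.Agent.H58

/-- Fourier transform in the second variable. -/
noncomputable def ft (f : ℝ × ℝ → ℝ) (x ζ : ℝ) : ℂ := 𝓕 (fun y : ℝ => (f (x, y) : ℂ)) ζ

/-- Radon transform in slope/intercept coordinates. -/
noncomputable def RR (f : ℝ × ℝ → ℝ) (s t : ℝ) : ℝ := ∫ x, f (x, s * x + t)

/-- A convenient class of functions: bounded, bounded support in `x`, uniformly integrable in `y`. -/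
structure Good (f : ℝ × ℝ → ℝ) (M : ℝ) : Prop where
  meas : Measurable f
  nonneg : 0 ≤ M
  bdd : ∀ v, |f v| ≤ M
  supp : ∀ v : ℝ × ℝ, M < |v.1| → f v = 0
  int : ∀ x, ∫⁻ y, ‖f (x, y)‖ₑ ≤ ENNReal.ofReal M

theorem memLp_two_of_bdd {g : ℝ → ℂ} (h : Integrable g) {C : ℝ} (hC : ∀ x, ‖g x‖ ≤ C) :
    MemLp g 2 := by
  rw [memLp_two_iff_integrable_sq_norm h.aestronglyMeasurable]
  refine (h.norm.const_mul C).mono' (h.aestronglyMeasurable.norm.pow 2) ?_
  filter_upwards with x
  rw [Real.norm_of_nonneg (by positivity), pow_two]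
  exact mul_le_mul_of_nonneg_right (hC x) (norm_nonneg _)

theorem shear_mp (s : ℝ) : MeasurePreserving (fun v : ℝ × ℝ => (v.1, s * v.1 + v.2)) volume volume := by
  have := (MeasurePreserving.id (volume : Measure ℝ)).skew_product
    (g := fun x y => s * x + y) (μd := (volume : Measure ℝ)) (μc := (volume : Measure ℝ))
    (by fun_prop) (Filter.Eventually.of_forall fun x => by
      exact (measurePreserving_add_left volume (s * x)).map_eq)
  exact this

theorem Good.integrable {f : ℝ × ℝ → ℝ} {M : ℝ} (hf : Good f M) : Integrable f := by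
  refine ⟨hf.meas.aestronglyMeasurable, ?_⟩
  have hb : ∀ x, ∫⁻ y, ‖f (x, y)‖ₑ ≤ (Set.Icc (-M) M).indicator (fun _ => ENNReal.ofReal M) x := by
    intro x
    by_cases hx : x ∈ Set.Icc (-M) M
    · rw [Set.indicator_of_mem hx]; exact hf.int x
    · rw [Set.indicator_of_notMem hx]
      have hx' : M < |x| := by
        rw [Set.mem_Icc, ← abs_le, not_le] at hx; exact hx
      have : ∀ y, f (x, y) = 0 := fun y => hf.supp (x, y) hx'
      simp [this]
  rw [hasFiniteIntegral_iff_enorm, Measure.volume_eq_prod, lintegral_prod _ (by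
    exact (hf.meas.enorm).aemeasurable)]
  calc ∫⁻ x, ∫⁻ y, ‖f (x, y)‖ₑ ≤ ∫⁻ x, (Set.Icc (-M) M).indicator (fun _ => ENNReal.ofReal M) x :=
        lintegral_mono hb
    _ = ENNReal.ofReal M * volume (Set.Icc (-M) M) := by
        rw [lintegral_indicator measurableSet_Icc, setLIntegral_const]
    _ < ∞ := by
        rw [Real.volume_Icc]
        exact ENNReal.mul_lt_top ENNReal.ofReal_lt_top ENNReal.ofReal_lt_top

theorem Good.integrable_shear {f : ℝ × ℝ → ℝ} {M : ℝ} (hf : Good f M) (s : ℝ) :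
    Integrable (fun v : ℝ × ℝ => f (v.1, s * v.1 + v.2)) :=
  (shear_mp s).integrable_comp_of_integrable hf.integrable

theorem Good.integrable_slice {f : ℝ × ℝ → ℝ} {M : ℝ} (hf : Good f M) (x : ℝ) :
    Integrable (fun y => f (x, y)) := by
  refine ⟨(hf.meas.comp (by fun_prop)).aestronglyMeasurable, ?_⟩
  rw [hasFiniteIntegral_iff_enorm]
  exact lt_of_le_of_lt (hf.int x) ENNReal.ofReal_lt_top

theorem Good.RR_integrable {f : ℝ × ℝ → ℝ} {M : ℝ} (hf : Good f M) (s : ℝ) :
    Integrable (fun t => RR f s t) := by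
  have := (hf.integrable_shear s)
  rw [Measure.volume_eq_prod] at this
  exact this.integral_prod_right

theorem abs_integral_le_of_supp {g : ℝ → ℝ} {M C : ℝ} (hM : 0 ≤ M) (hC : ∀ x, |g x| ≤ C)
    (hs : ∀ x, M < |x| → g x = 0) : |∫ x, g x| ≤ 2 * M * C := by
  have hC0 : 0 ≤ C := le_trans (abs_nonneg _) (hC 0)
  have e : ∫ x, g x = ∫ x in Set.Icc (-M) M, g x := by
    rw [setIntegral_eq_integral_of_forall_compl_eq_zero]
    intro x hx
    apply hs
    rw [Set.mem_Icc, ← abs_le, not_le] at hx; exact hx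
  rw [e]
  have := norm_setIntegral_le_of_norm_le_const (μ := (volume : Measure ℝ)) (s := Set.Icc (-M) M)
    (f := g) (C := C) (by simp) (fun x _ => by simpa using hC x)
  rw [Real.norm_eq_abs] at this
  refine this.trans (le_of_eq ?_)
  rw [Measure.real, Real.volume_Icc, ENNReal.toReal_ofReal (by linarith)]
  ring

theorem Good.RR_bdd {f : ℝ × ℝ → ℝ} {M : ℝ} (hf : Good f M) (s t : ℝ) :
    |RR f s t| ≤ 2 * M * M :=
  abs_integral_le_of_supp hf.nonneg (fun x => hf.bdd _) (fun x hx => hf.supp _ hx)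

theorem Good.ft_bdd {f : ℝ × ℝ → ℝ} {M : ℝ} (hf : Good f M) (x ζ : ℝ) :
    ‖ft f x ζ‖ ≤ M := by
  rw [ft, Real.fourier_real_eq]
  refine (norm_integral_le_integral_norm _).trans ?_
  simp only [Circle.norm_smul, Complex.norm_real]
  rw [integral_norm_eq_lintegral_enorm ((hf.integrable_slice x).aestronglyMeasurable)]
  exact ENNReal.toReal_le_of_le_ofReal hf.nonneg (hf.int x)

theorem Good.ft_supp {f : ℝ × ℝ → ℝ} {M : ℝ} (hf : Good f M) (x ζ : ℝ) (hx : M < |x|) :
    ft f x ζ = 0 := by
  have : ∀ y, f (x, y) = 0 := fun y => hf.supp (x, y) hx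
  rw [ft, Real.fourier_real_eq]
  simp [this]

theorem ft_meas {f : ℝ × ℝ → ℝ} (hf : Measurable f) :
    Measurable (fun p : ℝ × ℝ => ft f p.1 p.2) := by
  have h : StronglyMeasurable (fun p : (ℝ × ℝ) × ℝ =>
      (Real.fourierChar (-(p.2 * p.1.2)) : ℂ) * (f (p.1.1, p.2) : ℂ)) := by
    apply Measurable.stronglyMeasurable
    apply Measurable.mul
    · exact (continuous_induced_dom.comp (Real.continuous_fourierChar.comp
        (by fun_prop : Continuous fun p : (ℝ × ℝ) × ℝ => -(p.2 * p.1.2)))).measurable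
    · exact Complex.measurable_ofReal.comp (hf.comp (by fun_prop))
  have := h.integral_prod_right' (ν := (volume : Measure ℝ))
  simp only [ft, Real.fourier_real_eq, Circle.smul_def, smul_eq_mul]
  exact this.measurable

theorem Good.ft_integrable {f : ℝ × ℝ → ℝ} {M : ℝ} (hf : Good f M) (ζ : ℝ) :
    Integrable (fun x => ft f x ζ) := by
  have hm : AEStronglyMeasurable (fun x => ft f x ζ) volume :=
    ((ft_meas hf.meas).comp (measurable_id.prodMk measurable_const)).aestronglyMeasurable
  refine Integrable.mono' (g := (Set.Icc (-M) M).indicator (fun _ => M)) ?_ hm ?_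
  · rw [integrable_indicator_iff measurableSet_Icc]
    simp [integrableOn_const_iff]
  · filter_upwards with x
    by_cases hx : x ∈ Set.Icc (-M) M
    · rw [Set.indicator_of_mem hx]; exact hf.ft_bdd x ζ
    · rw [Set.indicator_of_notMem hx]
      have hx' : M < |x| := by
        rw [Set.mem_Icc, ← abs_le, not_le] at hx; exact hx
      rw [hf.ft_supp x ζ hx']; simp

theorem fourier_RR {f : ℝ × ℝ → ℝ} {M : ℝ} (hf : Good f M) (s ζ : ℝ) :
    𝓕 (fun t => (RR f s t : ℂ)) ζ = 𝓕 (fun x => ft f x ζ) (-(s * ζ)) := by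
  rw [Real.fourier_real_eq, Real.fourier_real_eq]
  have hint : Integrable (fun p : ℝ × ℝ => Real.fourierChar (-(p.1 * ζ)) •
      (f (p.2, s * p.2 + p.1) : ℂ)) (volume.prod volume) := by
    have h1 : Integrable (fun p : ℝ × ℝ => (f (p.2, s * p.2 + p.1) : ℂ)) (volume.prod volume) := by
      have := (hf.integrable_shear s)
      rw [Measure.volume_eq_prod] at this
      exact this.swap.ofReal
    refine h1.norm.mono' ?_ ?_
    · apply AEStronglyMeasurable.smul
      · exact (continuous_induced_dom.comp (Real.continuous_fourierChar.comp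
          (by fun_prop : Continuous fun p : ℝ × ℝ => -(p.1 * ζ)))).aestronglyMeasurable
      · exact h1.aestronglyMeasurable
    · filter_upwards with p
      rw [Circle.norm_smul]
  calc ∫ t, Real.fourierChar (-(t * ζ)) • (RR f s t : ℂ)
      = ∫ t, ∫ x, Real.fourierChar (-(t * ζ)) • (f (x, s * x + t) : ℂ) := by
        apply integral_congr_ae
        filter_upwards with t
        rw [RR, ← integral_complex_ofReal]
        simp only [Circle.smul_def]
        rw [integral_smul]
    _ = ∫ x, ∫ t, Real.fourierChar (-(t * ζ)) • (f (x, s * x + t) : ℂ) :=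
        integral_integral_swap hint
    _ = ∫ x, Real.fourierChar (-(x * -(s * ζ))) • ft f x ζ := by
        apply integral_congr_ae
        filter_upwards with x
        have e1 : ∫ t, Real.fourierChar (-(t * ζ)) • (f (x, s * x + t) : ℂ)
            = ∫ y, Real.fourierChar (-((y - s * x) * ζ)) • (f (x, y) : ℂ) := by
          rw [← integral_sub_right_eq_self (fun t => Real.fourierChar (-(t * ζ)) •
            (f (x, s * x + t) : ℂ)) (s * x)]
          simp
        rw [e1, ft, Real.fourier_real_eq]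
        simp only [Circle.smul_def]
        rw [← integral_smul]
        apply integral_congr_ae
        filter_upwards with y
        rw [smul_smul]
        congr 1
        rw [← Circle.coe_mul, ← AddChar.map_add_eq_mul]
        congr 2
        ring

theorem plancherel_scaled {g : ℝ → ℂ} (h1 : Integrable g) (h2 : MemLp g 2) {ζ : ℝ} (hζ : ζ ≠ 0) :
    ∫⁻ s, ‖𝓕 g (-(s * ζ))‖ₑ ^ 2 = ‖ζ‖ₑ⁻¹ * ∫⁻ x, ‖g x‖ₑ ^ 2 := by
  rw [← plancherel g h1 h2]
  have hz : (-ζ) ≠ 0 := neg_ne_zero.2 hζ
  have e : ∀ s, ‖𝓕 g (-(s * ζ))‖ₑ ^ 2 = (fun w => ‖𝓕 g w‖ₑ ^ 2) ((-ζ) * s) := by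
    intro s
    simp only
    congr 3
    ring
  simp_rw [e]
  have hmeas : Measurable (fun w => ‖𝓕 g w‖ₑ ^ 2) := by
    have hcont : Continuous (𝓕 g) :=
      (VectorFourier.fourierIntegral_continuous Real.continuous_fourierChar
        (by exact (innerSL ℝ (E := ℝ)).continuous₂) h1)
    exact (hcont.measurable.enorm).pow_const 2
  have := lintegral_map (μ := (volume : Measure ℝ)) hmeas (measurable_const_mul (-ζ))
  rw [← this, Real.map_volume_mul_left hz, lintegral_smul_measure]
  rw [smul_eq_mul]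
  congr 1
  rw [abs_inv, abs_neg, ENNReal.ofReal_inv_of_pos (abs_pos.2 hζ), ← Real.norm_eq_abs, ofReal_norm]

/-- `L²` isometry of the Radon transform (up to the weight `|ζ|⁻¹`). -/
theorem radon_l2 {f : ℝ × ℝ → ℝ} {M : ℝ} (hf : Good f M) :
    ∫⁻ s, ∫⁻ t, ‖RR f s t‖ₑ ^ 2 = ∫⁻ ζ, ‖ζ‖ₑ⁻¹ * ∫⁻ x, ‖ft f x ζ‖ₑ ^ 2 := by
  have h1 : ∀ s, ∫⁻ t, ‖RR f s t‖ₑ ^ 2 = ∫⁻ ζ, ‖𝓕 (fun x => ft f x ζ) (-(s * ζ))‖ₑ ^ 2 := by
    intro s
    have hi : Integrable (fun t => (RR f s t : ℂ)) := (hf.RR_integrable s).ofReal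
    have h2 : MemLp (fun t => (RR f s t : ℂ)) 2 :=
      memLp_two_of_bdd hi (C := 2 * M * M) (fun t => by
        rw [Complex.norm_real]; exact hf.RR_bdd s t)
    have := plancherel _ hi h2
    simp_rw [fourier_RR hf s] at this
    rw [this]
    apply lintegral_congr
    intro t
    congr 1
    rw [← ofReal_norm, ← ofReal_norm, Complex.norm_real]
  simp_rw [h1]
  rw [lintegral_lintegral_swap]
  · apply lintegral_congr_ae
    have : ∀ᵐ ζ : ℝ, ζ ≠ 0 := by
      simp [ae_iff]
    filter_upwards [this] with ζ hζ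
    apply plancherel_scaled (hf.ft_integrable ζ) _ hζ
    exact memLp_two_of_bdd (hf.ft_integrable ζ) (fun x => hf.ft_bdd x ζ)
  · apply Measurable.aemeasurable
    apply Measurable.pow_const
    apply Measurable.enorm
    have h : StronglyMeasurable (fun p : (ℝ × ℝ) × ℝ =>
        (Real.fourierChar (-(p.2 * (-(p.1.1 * p.1.2)))) : ℂ) * ft f p.2 p.1.2) := by
      apply Measurable.stronglyMeasurable
      apply Measurable.mul
      · exact (continuous_induced_dom.comp (Real.continuous_fourierChar.comp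
          (by fun_prop : Continuous fun p : (ℝ × ℝ) × ℝ => -(p.2 * (-(p.1.1 * p.1.2)))))).measurable
      · exact (ft_meas hf.meas).comp
          (by fun_prop : Measurable fun p : (ℝ × ℝ) × ℝ => ((p.2, p.1.2) : ℝ × ℝ))
    have := h.integral_prod_right' (ν := (volume : Measure ℝ))
    simp only [Function.uncurry_def, Real.fourier_real_eq, Circle.smul_def, smul_eq_mul]
    exact this.measurable

end Pool.Agent.H58
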