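import Mathlib
import Pool.Agent.Lib_helper58.Radon
import Pool.Agent.Lib_helper58.Kern

set_option autoImplicit false

open MeasureTheory FourierTransform
open scoped ENNReal Topology

namespace Pool.Agent.H58

theorem integral_exp_abs : ∫ x : ℝ, Real.exp (-|x|) = 2 := by
  rw [integral_comp_abs (f := fun x => Real.exp (-x)), integral_exp_neg_Ioi_zero]; norm_num

theorem integrable_exp_abs : Integrable (fun x : ℝ => Real.exp (-|x|)) := by
  apply Integrable.of_integral_ne_zero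
  rw [integral_exp_abs]; norm_num

theorem lintegral_exp_abs : ∫⁻ x : ℝ, ENNReal.ofReal (Real.exp (-|x|)) = 2 := by
  rw [← ofReal_integral_eq_lintegral_ofReal integrable_exp_abs
    (Filter.Eventually.of_forall fun x => (Real.exp_pos _).le), integral_exp_abs]
  norm_num

theorem lintegral_comp_mul {F : ℝ → ℝ≥0∞} (hF : Measurable F) {a : ℝ} (ha : a ≠ 0) :
    ∫⁻ x, F (a * x) = ENNReal.ofReal |a⁻¹| * ∫⁻ x, F x := by
  have := lintegral_map (μ := (volume : Measure ℝ)) hF (measurable_const_mul a)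
  rw [← this, Real.map_volume_mul_left ha, lintegral_smul_measure, smul_eq_mul]

theorem lintegral_comp_div {F : ℝ → ℝ≥0∞} (hF : Measurable F) {b : ℝ} (hb : 0 < b) :
    ∫⁻ x, F (x / b) = ENNReal.ofReal b * ∫⁻ x, F x := by
  have := lintegral_comp_mul hF (a := b⁻¹) (inv_ne_zero hb.ne')
  rw [inv_inv, abs_of_pos hb] at this
  rw [← this]
  apply lintegral_congr
  intro x
  rw [div_eq_mul_inv, mul_comm]

/-- Scaled kernel has uniformly bounded mass. -/
theorem lintegral_kernel_le {K : ℝ → ℝ} (hm : Measurable K)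
    (hK : ∀ z, |K z| ≤ 10 * Real.exp (-|z|)) {b : ℝ} (hb : 0 < b) (y : ℝ) :
    ∫⁻ t, ‖b⁻¹ * K ((y - t) / b)‖ₑ ≤ 20 := by
  have h1 : ∫⁻ t, ‖b⁻¹ * K ((y - t) / b)‖ₑ = ∫⁻ t, ‖b⁻¹ * K (t / b)‖ₑ := by
    have := lintegral_sub_left_eq_self (μ := (volume : Measure ℝ)) (fun t => ‖b⁻¹ * K (t / b)‖ₑ) y
    rw [← this]
  rw [h1]
  have h2 : ∫⁻ t, ‖b⁻¹ * K (t / b)‖ₑ = ENNReal.ofReal b * ∫⁻ t, ‖b⁻¹ * K t‖ₑ :=
    lintegral_comp_div (F := fun t => ‖b⁻¹ * K t‖ₑ) (by fun_prop) hb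
  rw [h2]
  have h3 : ∫⁻ t, ‖b⁻¹ * K t‖ₑ ≤ ENNReal.ofReal b⁻¹ * (10 * 2) := by
    rw [← lintegral_exp_abs, ← lintegral_const_mul _ (by fun_prop), ← lintegral_const_mul _ (by fun_prop)]
    apply lintegral_mono
    intro t
    simp only
    rw [enorm_mul, ← ofReal_norm, Real.norm_of_nonneg (by positivity)]
    gcongr
    rw [← ofReal_norm, Real.norm_eq_abs]
    refine (ENNReal.ofReal_le_ofReal (hK t)).trans ?_
    rw [ENNReal.ofReal_mul (by norm_num)]
    simp
  calc ENNReal.ofReal b * ∫⁻ t, ‖b⁻¹ * K t‖ₑ ≤ ENNReal.ofReal b * (ENNReal.ofReal b⁻¹ * (10 * 2)) := by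
        gcongr
    _ = 20 := by
        rw [← mul_assoc, ← ENNReal.ofReal_mul hb.le, mul_inv_cancel₀ hb.ne']
        norm_num

/-- Vertical convolution with the scaled kernel `K_b`. -/
noncomputable def CV (K : ℝ → ℝ) (b : ℝ) (f : ℝ × ℝ → ℝ) (v : ℝ × ℝ) : ℝ :=
  ∫ t, f (v.1, t) * (b⁻¹ * K ((v.2 - t) / b))

theorem CV_meas {K : ℝ → ℝ} (hm : Measurable K) (b : ℝ) {f : ℝ × ℝ → ℝ} (hf : Measurable f) :
    Measurable (CV K b f) := by
  have h : StronglyMeasurable (fun p : (ℝ × ℝ) × ℝ => f (p.1.1, p.2) * (b⁻¹ * K ((p.1.2 - p.2) / b))) := by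
    apply Measurable.stronglyMeasurable
    fun_prop
  exact (h.integral_prod_right' (ν := (volume : Measure ℝ))).measurable

theorem CV_good {K : ℝ → ℝ} (hm : Measurable K)
    (hK : ∀ z, |K z| ≤ 10 * Real.exp (-|z|)) {b : ℝ} (hb : 0 < b) {f : ℝ × ℝ → ℝ} {M : ℝ}
    (hf : Good f M) : Good (CV K b f) (20 * M) := by
  have hM := hf.nonneg
  refine ⟨CV_meas hm b hf.meas, by positivity, ?_, ?_, ?_⟩
  · intro v
    have h1 : ‖CV K b f v‖ₑ ≤ ENNReal.ofReal (20 * M) := by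
      refine (enorm_integral_le_lintegral_enorm _).trans ?_
      calc ∫⁻ t, ‖f (v.1, t) * (b⁻¹ * K ((v.2 - t) / b))‖ₑ
          ≤ ∫⁻ t, ENNReal.ofReal M * ‖(b⁻¹ * K ((v.2 - t) / b))‖ₑ := by
            apply lintegral_mono
            intro t
            simp only
            rw [enorm_mul]
            gcongr
            rw [← ofReal_norm, Real.norm_eq_abs]
            exact ENNReal.ofReal_le_ofReal (hf.bdd _)
        _ = ENNReal.ofReal M * ∫⁻ t, ‖(b⁻¹ * K ((v.2 - t) / b))‖ₑ := by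
            rw [lintegral_const_mul _ (by fun_prop)]
        _ ≤ ENNReal.ofReal M * 20 := by
            gcongr
            exact lintegral_kernel_le hm hK hb _
        _ = ENNReal.ofReal (20 * M) := by
            rw [mul_comm, ENNReal.ofReal_mul (by norm_num)]; norm_num
    rw [← ofReal_norm, Real.norm_eq_abs] at h1
    exact (ENNReal.ofReal_le_ofReal_iff (by positivity)).1 h1
  · intro v hv
    have : ∀ t, f (v.1, t) = 0 := fun t => hf.supp (v.1, t) (by simp only; linarith)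
    simp [CV, this]
  · intro x
    calc ∫⁻ y, ‖CV K b f (x, y)‖ₑ ≤ ∫⁻ y, ∫⁻ t, ‖f (x, t) * (b⁻¹ * K ((y - t) / b))‖ₑ := by
          apply lintegral_mono
          intro y
          exact enorm_integral_le_lintegral_enorm _
      _ = ∫⁻ t, ∫⁻ y, ‖f (x, t) * (b⁻¹ * K ((y - t) / b))‖ₑ := by
          rw [lintegral_lintegral_swap]
          apply Measurable.aemeasurable
          have := hf.meas
          simp only [Function.uncurry_def]
          fun_prop
      _ ≤ ∫⁻ t, ‖f (x, t)‖ₑ * 20 := by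
          apply lintegral_mono
          intro t
          simp only [enorm_mul]
          rw [lintegral_const_mul _ (by fun_prop)]
          gcongr
          have h := lintegral_sub_right_eq_self (μ := (volume : Measure ℝ))
            (fun y => ‖b⁻¹‖ₑ * ‖K (y / b)‖ₑ) t
          rw [h]
          have h2 := lintegral_kernel_le hm hK hb 0
          have h3 := lintegral_sub_left_eq_self (μ := (volume : Measure ℝ))
            (fun y => ‖b⁻¹ * K (y / b)‖ₑ) 0
          rw [h3] at h2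
          simpa only [enorm_mul] using h2
      _ = (∫⁻ t, ‖f (x, t)‖ₑ) * 20 := by
          rw [lintegral_mul_const]
          have := hf.meas
          fun_prop
      _ ≤ ENNReal.ofReal M * 20 := by gcongr; exact hf.int x
      _ = ENNReal.ofReal (20 * M) := by
          rw [mul_comm, ENNReal.ofReal_mul (by norm_num)]; norm_num

theorem fourier_scale {K : ℝ → ℝ} {b : ℝ} (hb : 0 < b) (ζ : ℝ) :
    𝓕 (fun w : ℝ => ((b⁻¹ * K (w / b) : ℝ) : ℂ)) ζ = 𝓕 (fun w : ℝ => ((K w : ℝ) : ℂ)) (b * ζ) := by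
  rw [Real.fourier_real_eq, Real.fourier_real_eq]
  have := Measure.integral_comp_div
    (fun w : ℝ => Real.fourierChar (-(w * (b * ζ))) • ((b⁻¹ * K w : ℝ) : ℂ)) b
  have e1 : ∫ v : ℝ, Real.fourierChar (-(v * ζ)) • ((b⁻¹ * K (v / b) : ℝ) : ℂ)
      = ∫ x : ℝ, Real.fourierChar (-(x / b * (b * ζ))) • ((b⁻¹ * K (x / b) : ℝ) : ℂ) := by
    apply integral_congr_ae
    filter_upwards with x
    congr 3
    field_simp
  rw [e1, this, abs_of_pos hb, ← integral_smul]
  apply integral_congr_ae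
  filter_upwards with x
  simp only [Circle.smul_def, smul_eq_mul, Complex.real_smul]
  push_cast
  have : (b : ℂ) ≠ 0 := by exact_mod_cast hb.ne'
  field_simp

theorem kernel_integrable {K : ℝ → ℝ} (hm : Measurable K)
    (hK : ∀ z, |K z| ≤ 10 * Real.exp (-|z|)) {b : ℝ} (hb : 0 < b) :
    Integrable (fun w : ℝ => b⁻¹ * K (w / b)) := by
  refine ⟨(by fun_prop : Measurable (fun w : ℝ => b⁻¹ * K (w / b))).aestronglyMeasurable, ?_⟩
  rw [hasFiniteIntegral_iff_enorm]
  have h2 := lintegral_kernel_le hm hK hb 0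
  have h3 := lintegral_sub_left_eq_self (μ := (volume : Measure ℝ))
    (fun y => ‖b⁻¹ * K (y / b)‖ₑ) 0
  rw [h3] at h2
  exact lt_of_le_of_lt h2 (by norm_num)

/-- Fourier transform of the vertical convolution. -/
theorem ft_CV {K : ℝ → ℝ} (hm : Measurable K)
    (hK : ∀ z, |K z| ≤ 10 * Real.exp (-|z|)) {b : ℝ} (hb : 0 < b) {f : ℝ × ℝ → ℝ} {M : ℝ}
    (hf : Good f M) (x ζ : ℝ) :
    ft (CV K b f) x ζ = 𝓕 (fun w : ℝ => ((K w : ℝ) : ℂ)) (b * ζ) * ft f x ζ := by
  have h1 : Integrable (fun y => ((f (x, y) : ℝ) : ℂ)) := (hf.integrable_slice x).ofReal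
  have h2 : Integrable (fun w : ℝ => ((b⁻¹ * K (w / b) : ℝ) : ℂ)) := (kernel_integrable hm hK hb).ofReal
  have := Real.fourier_mul_convolution_eq h1 h2 ζ
  rw [fourier_scale hb] at this
  rw [ft, ft, mul_comm, ← this]
  apply Real.fourier_congr_ae
  filter_upwards with y
  rw [CV, ← integral_complex_ofReal, MeasureTheory.convolution]
  apply integral_congr_ae
  filter_upwards with t
  simp

/-- Exponential weight on the half line. -/
noncomputable def ek (b w : ℝ) : ℝ := b⁻¹ * Real.exp (-(w / b))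

theorem ek_pos {b : ℝ} (hb : 0 < b) (w : ℝ) : 0 < ek b w := by unfold ek; positivity

theorem ek_meas (b : ℝ) : Measurable (ek b) := by unfold ek; fun_prop

theorem ek_integrableOn {b : ℝ} (hb : 0 < b) : IntegrableOn (ek b) (Set.Ioi 0) := by
  have h : IntegrableOn (fun w => b⁻¹ * Real.exp (-b⁻¹ * w)) (Set.Ioi 0) :=
    (integrableOn_exp_mul_Ioi (a := -b⁻¹) (by simpa using hb) 0).const_mul b⁻¹
  refine IntegrableOn.congr_fun h (fun w _ => ?_) measurableSet_Ioi
  simp only [ek]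
  congr 2
  field_simp

theorem ek_integral {b : ℝ} (hb : 0 < b) : ∫ w in Set.Ioi (0:ℝ), ek b w = 1 := by
  have h := integral_exp_mul_Ioi (a := -b⁻¹) (by simpa using hb) 0
  simp only [ek]
  rw [integral_const_mul]
  have e : ∫ w in Set.Ioi (0:ℝ), Real.exp (-(w / b)) = ∫ w in Set.Ioi (0:ℝ), Real.exp (-b⁻¹ * w) := by
    apply integral_congr_ae
    filter_upwards with w
    congr 1
    field_simp
  rw [e, h]
  simp
  field_simp

theorem ek_lintegral {b : ℝ} (hb : 0 < b) :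
    ∫⁻ w in Set.Ioi (0:ℝ), ENNReal.ofReal (ek b w) = 1 := by
  rw [← ofReal_integral_eq_lintegral_ofReal (ek_integrableOn hb)
    (Filter.Eventually.of_forall fun x => (ek_pos hb x).le), ek_integral hb]
  norm_num

theorem ek_lintegral_enorm {b : ℝ} (hb : 0 < b) :
    ∫⁻ w in Set.Ioi (0:ℝ), ‖ek b w‖ₑ = 1 := by
  rw [← ek_lintegral hb]
  apply lintegral_congr
  intro w
  rw [← ofReal_norm, Real.norm_of_nonneg (ek_pos hb w).le]

/-- Exponential average in the direction `e`. -/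
noncomputable def PE (b : ℝ) (e : ℝ × ℝ) (f : ℝ × ℝ → ℝ) (v : ℝ × ℝ) : ℝ :=
  ∫ w in Set.Ioi (0:ℝ), ek b w * f (v + w • e)

theorem PE_meas' (b : ℝ) {f : ℝ × ℝ → ℝ} (hf : Measurable f) :
    Measurable (fun p : (ℝ × ℝ) × (ℝ × ℝ) => PE b p.1 f p.2) := by
  have h : StronglyMeasurable (fun p : ((ℝ × ℝ) × (ℝ × ℝ)) × ℝ => ek b p.2 * f (p.1.2 + p.2 • p.1.1)) := by
    apply Measurable.stronglyMeasurable
    have := ek_meas b
    fun_prop
  exact (h.integral_prod_right' (ν := (volume : Measure ℝ).restrict (Set.Ioi 0))).measurable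

theorem PE_meas (b : ℝ) (e : ℝ × ℝ) {f : ℝ × ℝ → ℝ} (hf : Measurable f) :
    Measurable (PE b e f) := (PE_meas' b hf).comp (by fun_prop : Measurable fun v : ℝ × ℝ => (e, v))

theorem PE_bdd {b : ℝ} (hb : 0 < b) (e : ℝ × ℝ) {f : ℝ × ℝ → ℝ} {M : ℝ} (hM : 0 ≤ M)
    (hf : ∀ v, |f v| ≤ M) (v : ℝ × ℝ) : |PE b e f v| ≤ M := by
  have h1 : ‖PE b e f v‖ₑ ≤ ENNReal.ofReal M := by
    refine (enorm_integral_le_lintegral_enorm _).trans ?_
    calc ∫⁻ w in Set.Ioi (0:ℝ), ‖ek b w * f (v + w • e)‖ₑ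
        ≤ ∫⁻ w in Set.Ioi (0:ℝ), ‖ek b w‖ₑ * ENNReal.ofReal M := by
          apply lintegral_mono
          intro t
          simp only
          rw [enorm_mul]
          gcongr
          rw [← ofReal_norm, Real.norm_eq_abs]
          exact ENNReal.ofReal_le_ofReal (hf _)
      _ = (∫⁻ w in Set.Ioi (0:ℝ), ‖ek b w‖ₑ) * ENNReal.ofReal M := by
          rw [lintegral_mul_const]
          have := ek_meas b
          fun_prop
      _ = ENNReal.ofReal M := by rw [ek_lintegral_enorm hb, one_mul]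
  rw [← ofReal_norm, Real.norm_eq_abs] at h1
  exact (ENNReal.ofReal_le_ofReal_iff (by positivity)).1 h1

theorem pm1_meas : Measurable (pm 1) := by
  unfold pm
  exact Measurable.ite measurableSet_Iio (by fun_prop) (by fun_prop)

theorem pm1_bd (z : ℝ) : |pm 1 z| ≤ 10 * Real.exp (-|z|) := by
  have := Real.exp_pos (-|z|)
  unfold pm
  split
  · rename_i h
    rw [abs_of_neg h, neg_neg, one_mul, abs_of_pos (Real.exp_pos _)]
    linarith [Real.exp_pos z]
  · simp; positivity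

theorem PE_vert_eq_CV {b : ℝ} (hb : 0 < b) (f : ℝ × ℝ → ℝ) (v : ℝ × ℝ) :
    PE b (0, 1) f v = CV (pm 1) b f v := by
  unfold PE CV
  have e1 : ∫ t, f (v.1, t) * (b⁻¹ * pm 1 ((v.2 - t) / b))
      = ∫ w, f (v.1, w + v.2) * (b⁻¹ * pm 1 ((v.2 - (w + v.2)) / b)) :=
    (integral_add_right_eq_self (fun t => f (v.1, t) * (b⁻¹ * pm 1 ((v.2 - t) / b))) v.2).symm
  rw [e1, ← integral_indicator measurableSet_Ioi]
  apply integral_congr_ae
  filter_upwards with w
  by_cases h : w ∈ Set.Ioi (0:ℝ)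
  · rw [Set.indicator_of_mem h]
    have hw : 0 < w := h
    have h2 : (v.2 - (w + v.2)) / b < 0 := by
      rw [show v.2 - (w + v.2) = -w by ring]
      exact div_neg_of_neg_of_pos (by linarith) hb
    rw [pm, if_pos h2, ek]
    have e2 : v + w • ((0:ℝ), (1:ℝ)) = (v.1, w + v.2) := by
      ext <;> simp [add_comm]
    rw [e2, mul_comm]
    congr 3
    ring
  · rw [Set.indicator_of_notMem h]
    have hw : ¬ (0 < w) := h
    have h2 : ¬ ((v.2 - (w + v.2)) / b < 0) := by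
      rw [show v.2 - (w + v.2) = -w by ring, not_lt]
      exact div_nonneg (by linarith) hb.le
    rw [pm, if_neg h2]; simp

theorem Good.mono {f : ℝ × ℝ → ℝ} {M M' : ℝ} (hf : Good f M) (h : M ≤ M') : Good f M' :=
  ⟨hf.meas, hf.nonneg.trans h, fun v => (hf.bdd v).trans h, fun v hv => hf.supp v (lt_of_le_of_lt h hv),
    fun x => (hf.int x).trans (ENNReal.ofReal_le_ofReal h)⟩

theorem PE_vert_good {b : ℝ} (hb : 0 < b) {f : ℝ × ℝ → ℝ} {M : ℝ}
    (hf : Good f M) : Good (PE b (0, 1) f) (20 * M) := by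
  have : PE b (0,1) f = CV (pm 1) b f := by ext v; exact PE_vert_eq_CV hb f v
  rw [this]; exact CV_good pm1_meas pm1_bd hb hf

theorem Good.sub {f g : ℝ × ℝ → ℝ} {M N : ℝ} (hf : Good f M) (hg : Good g N) :
    Good (fun v => f v - g v) (M + N) := by
  have h1 := hf.nonneg
  have h2 := hg.nonneg
  refine ⟨hf.meas.sub hg.meas, by linarith, ?_, ?_, ?_⟩
  · intro v
    have := abs_sub (f v) (g v)
    linarith [hf.bdd v, hg.bdd v]
  · intro v hv
    rw [hf.supp v (by linarith), hg.supp v (by linarith)]; ring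
  · intro x
    calc ∫⁻ y, ‖f (x, y) - g (x, y)‖ₑ ≤ ∫⁻ y, (‖f (x, y)‖ₑ + ‖g (x, y)‖ₑ) := by
          apply lintegral_mono; intro y; exact enorm_sub_le
      _ = (∫⁻ y, ‖f (x, y)‖ₑ) + ∫⁻ y, ‖g (x, y)‖ₑ := by
          rw [lintegral_add_left]
          have := hf.meas
          fun_prop
      _ ≤ ENNReal.ofReal M + ENNReal.ofReal N := add_le_add (hf.int x) (hg.int x)
      _ = ENNReal.ofReal (M + N) := (ENNReal.ofReal_add h1 h2).symm

theorem ft_sub {f g : ℝ × ℝ → ℝ} {M N : ℝ} (hf : Good f M) (hg : Good g N) (x ζ : ℝ) :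
    ft (fun v => f v - g v) x ζ = ft f x ζ - ft g x ζ := by
  unfold ft
  rw [Real.fourier_real_eq, Real.fourier_real_eq, Real.fourier_real_eq, ← integral_sub]
  · apply integral_congr_ae
    filter_upwards with y
    simp only [Circle.smul_def, smul_eq_mul]
    push_cast
    ring
  · have h1 : Integrable (fun y => ((f (x, y) : ℝ) : ℂ)) := (hf.integrable_slice x).ofReal
    have h2 := (Real.fourierIntegral_convergent_iff (μ := (volume : Measure ℝ)) ζ).2 h1
    simpa [mul_comm] using h2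
  · have h1 : Integrable (fun y => ((g (x, y) : ℝ) : ℂ)) := (hg.integrable_slice x).ofReal
    have h2 := (Real.fourierIntegral_convergent_iff (μ := (volume : Measure ℝ)) ζ).2 h1
    simpa [mul_comm] using h2

theorem ft_sub_PE {b : ℝ} (hb : 0 < b) {f : ℝ × ℝ → ℝ} {M : ℝ} (hf : Good f M) (x ζ : ℝ) :
    ‖ft (fun v => f v - PE b (0, 1) f v) x ζ‖ₑ ^ 2 = ENNReal.ofReal (gw (b * ζ)) * ‖ft f x ζ‖ₑ ^ 2 := by
  rw [ft_sub hf (PE_vert_good hb hf)]
  have : PE b (0,1) f = CV (pm 1) b f := by ext v; exact PE_vert_eq_CV hb f v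
  rw [this, ft_CV pm1_meas pm1_bd hb hf]
  rw [← one_sub_mul, enorm_mul, mul_pow]
  congr 1
  rw [← fourier_one_sub_pm, ← ofReal_norm, ENNReal.ofReal_pow (norm_nonneg _)]

theorem ft_CV_kap_le {b : ℝ} (hb : 0 < b) {f : ℝ × ℝ → ℝ} {M : ℝ} (hf : Good f M) (k : ℕ) (x ζ : ℝ) :
    ‖ft (CV (kap k) b f) x ζ‖ₑ ^ 2 ≤ 225 * (ENNReal.ofReal (gw (b * ζ)) * ‖ft f x ζ‖ₑ ^ 2) := by
  rw [ft_CV (kap_meas k) (kap_bd k) hb hf, enorm_mul, mul_pow, ← mul_assoc]
  gcongr
  rw [← ofReal_norm, ← ENNReal.ofReal_pow (norm_nonneg _)]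
  refine (ENNReal.ofReal_le_ofReal (fourier_kap_bd k _)).trans (le_of_eq ?_)
  rw [ENNReal.ofReal_mul (by norm_num)]
  norm_num

end Pool.Agent.H58
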