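import Mathlib
import Pool.Agent.Lib_helper58.Avg

set_option autoImplicit false

open MeasureTheory FourierTransform
open scoped ENNReal Topology

namespace Pool.Agent.H58

/-- spectral density in `y`. -/
noncomputable def rho (u : ℝ × ℝ → ℝ) (ζ : ℝ) : ℝ≥0∞ := ∫⁻ x, ‖ft u x ζ‖ₑ ^ 2

/-- the weight `μ`. -/
noncomputable def mw (z : ℝ) : ℝ := gw z / |z|

/-- the square function at scale `b`. -/
noncomputable def QQ (b : ℝ) (u : ℝ × ℝ → ℝ) : ℝ≥0∞ := ∫⁻ ζ, ENNReal.ofReal (mw (b * ζ)) * rho u ζ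

theorem gw_meas : Measurable gw := by unfold gw; fun_prop
theorem mw_meas : Measurable mw := by have := gw_meas; unfold mw; fun_prop
theorem mw_nonneg (z : ℝ) : 0 ≤ mw z := div_nonneg (gw_nonneg z) (abs_nonneg z)

theorem rho_meas {u : ℝ × ℝ → ℝ} (hu : Measurable u) : Measurable (rho u) := by
  unfold rho
  apply Measurable.lintegral_prod_left'
    (f := fun p : ℝ × ℝ => ‖ft u p.1 p.2‖ₑ ^ 2)
  exact (ft_meas hu).enorm.pow_const 2

theorem weight_eq {b : ℝ} (hb : 0 < b) {ζ : ℝ} (hζ : ζ ≠ 0) :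
    ‖ζ‖ₑ⁻¹ * ENNReal.ofReal (gw (b * ζ)) = ENNReal.ofReal b * ENNReal.ofReal (mw (b * ζ)) := by
  rw [← ofReal_norm, ← ENNReal.ofReal_inv_of_pos (norm_pos_iff.2 hζ),
    ← ENNReal.ofReal_mul (by positivity), ← ENNReal.ofReal_mul hb.le, mw, abs_mul, abs_of_pos hb,
    Real.norm_eq_abs]
  congr 1
  have : 0 < |ζ| := abs_pos.2 hζ
  field_simp

theorem N_le {f u : ℝ × ℝ → ℝ} (hu : Measurable u) {b : ℝ} (hb : 0 < b) {C : ℝ≥0∞}
    (h : ∀ x ζ, ‖ft f x ζ‖ₑ ^ 2 ≤ C * (ENNReal.ofReal (gw (b * ζ)) * ‖ft u x ζ‖ₑ ^ 2)) :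
    ∫⁻ ζ, ‖ζ‖ₑ⁻¹ * ∫⁻ x, ‖ft f x ζ‖ₑ ^ 2 ≤ C * (ENNReal.ofReal b * QQ b u) := by
  have hm : Measurable (fun ζ => ENNReal.ofReal (mw (b * ζ)) * rho u ζ) := by
    have h1 := mw_meas
    have h2 := rho_meas hu
    fun_prop
  rw [QQ, ← lintegral_const_mul _ hm, ← lintegral_const_mul _ (by fun_prop)]
  apply lintegral_mono_ae
  have : ∀ᵐ ζ : ℝ, ζ ≠ 0 := by simp [ae_iff]
  filter_upwards [this] with ζ hζ
  have hm2 : Measurable (fun x => ‖ft u x ζ‖ₑ ^ 2) :=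
    ((ft_meas hu).comp (by fun_prop : Measurable fun x : ℝ => ((x, ζ) : ℝ × ℝ))).enorm.pow_const 2
  calc ‖ζ‖ₑ⁻¹ * ∫⁻ x, ‖ft f x ζ‖ₑ ^ 2
      ≤ ‖ζ‖ₑ⁻¹ * ∫⁻ x, C * (ENNReal.ofReal (gw (b * ζ)) * ‖ft u x ζ‖ₑ ^ 2) := by
        gcongr with x; exact h x ζ
    _ = C * ((‖ζ‖ₑ⁻¹ * ENNReal.ofReal (gw (b * ζ))) * rho u ζ) := by
        rw [lintegral_const_mul _ (by fun_prop), lintegral_const_mul _ hm2, rho]
        ring
    _ = C * (ENNReal.ofReal b * (ENNReal.ofReal (mw (b * ζ)) * rho u ζ)) := by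
        rw [weight_eq hb hζ]; ring

theorem ek_le {b : ℝ} (hb : 0 < b) {w : ℝ} (hw : 0 < w) : ek b w ≤ b⁻¹ := by
  unfold ek
  have : Real.exp (-(w / b)) ≤ 1 := Real.exp_le_one_iff.2 (by
    have := div_pos hw hb; linarith)
  have hb' : 0 < b⁻¹ := by positivity
  nlinarith

/-- auxiliary slice function -/
noncomputable def Phi (b : ℝ) (f : ℝ × ℝ → ℝ) (x : ℝ) (p : ℝ × ℝ) : ℝ :=
  if 0 < p.1 then ek b p.1 * f (x + p.1, p.2) else 0

theorem Phi_good {b : ℝ} (hb : 0 < b) {f : ℝ × ℝ → ℝ} {M : ℝ} (hf : Good f M) (x : ℝ) :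
    Good (Phi b f x) (M + |x| + b⁻¹ * M) := by
  have hM := hf.nonneg
  have hx := abs_nonneg x
  have hb' : 0 < b⁻¹ := by positivity
  have hbM : 0 ≤ b⁻¹ * M := by positivity
  refine ⟨?_, by linarith, ?_, ?_, ?_⟩
  · have h1 := hf.meas
    have h2 := ek_meas b
    unfold Phi
    exact Measurable.ite (measurableSet_lt measurable_const measurable_fst) (by fun_prop) (by fun_prop)
  · intro v
    unfold Phi
    split
    · rename_i h
      rw [abs_mul, abs_of_pos (ek_pos hb _)]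
      have h1 := ek_le hb h
      have h2 := hf.bdd (x + v.1, v.2)
      have : ek b v.1 * |f (x + v.1, v.2)| ≤ b⁻¹ * M := by
        apply mul_le_mul h1 h2 (abs_nonneg _) hb'.le
      linarith
    · simp; linarith
  · intro v hv
    unfold Phi
    split
    · rw [hf.supp, mul_zero]
      simp only
      have : |v.1| ≤ |x + v.1| + |x| := by
        have := abs_sub (x + v.1) x
        simpa using this
      linarith
    · rfl
  · intro w
    by_cases h : 0 < w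
    · simp only [Phi, if_pos h]
      calc ∫⁻ y, ‖ek b w * f (x + w, y)‖ₑ = ‖ek b w‖ₑ * ∫⁻ y, ‖f (x + w, y)‖ₑ := by
            simp only [enorm_mul]
            rw [lintegral_const_mul]
            have := hf.meas
            fun_prop
        _ ≤ ENNReal.ofReal b⁻¹ * ENNReal.ofReal M := by
            gcongr
            · rw [← ofReal_norm, Real.norm_of_nonneg (ek_pos hb _).le]
              exact ENNReal.ofReal_le_ofReal (ek_le hb h)
            · exact hf.int _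
        _ = ENNReal.ofReal (b⁻¹ * M) := (ENNReal.ofReal_mul hb'.le).symm
        _ ≤ _ := ENNReal.ofReal_le_ofReal (by linarith)
    · simp [Phi, if_neg h]

theorem PE_eq_RR (b : ℝ) (f : ℝ × ℝ → ℝ) (s x y : ℝ) :
    PE b (1, s) f (x, y) = RR (Phi b f x) s y := by
  unfold PE RR
  rw [← integral_indicator measurableSet_Ioi]
  apply integral_congr_ae
  filter_upwards with w
  by_cases h : w ∈ Set.Ioi (0:ℝ)
  · rw [Set.indicator_of_mem h]
    have hw : 0 < w := h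
    rw [Phi, if_pos hw]
    congr 2
    ext
    · simp
    · simp; ring
  · rw [Set.indicator_of_notMem h]
    have hw : ¬ (0 < w) := h
    rw [Phi, if_neg hw]

theorem ft_Phi (b : ℝ) (f : ℝ × ℝ → ℝ) (x w ζ : ℝ) :
    ft (Phi b f x) w ζ = if 0 < w then (ek b w : ℂ) * ft f (x + w) ζ else 0 := by
  unfold ft Phi
  rw [Real.fourier_real_eq, Real.fourier_real_eq]
  split
  · rw [← integral_const_mul]
    apply integral_congr_ae
    filter_upwards with y
    simp only [Circle.smul_def, smul_eq_mul]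
    push_cast
    ring
  · simp

theorem avg_swap {G : ℝ → ℝ → ℝ≥0∞} (hG : Measurable (Function.uncurry G)) (c : ℝ≥0∞)
    {E : ℝ → ℝ≥0∞} (hE : Measurable E) (hE1 : ∫⁻ w in Set.Ioi (0:ℝ), E w = 1) :
    ∫⁻ x, ∫⁻ ζ : ℝ, ‖ζ‖ₑ⁻¹ * ∫⁻ w in Set.Ioi (0:ℝ), (c * E w) * G (x + w) ζ
      = c * ∫⁻ ζ : ℝ, ‖ζ‖ₑ⁻¹ * ∫⁻ x, G x ζ := by
  have h1 : Measurable (fun p : (ℝ × ℝ) × ℝ => (c * E p.2) * G (p.1.1 + p.2) p.1.2) := by
    have : Measurable (fun p : (ℝ × ℝ) × ℝ => G (p.1.1 + p.2) p.1.2) :=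
      hG.comp (by fun_prop : Measurable fun p : (ℝ × ℝ) × ℝ => ((p.1.1 + p.2, p.1.2) : ℝ × ℝ))
    fun_prop
  have h2 : Measurable (fun p : ℝ × ℝ => ∫⁻ w in Set.Ioi (0:ℝ), (c * E w) * G (p.1 + w) p.2) :=
    h1.lintegral_prod_right'
  have h3 : Measurable (fun p : ℝ × ℝ => ‖p.2‖ₑ⁻¹ * ∫⁻ w in Set.Ioi (0:ℝ), (c * E w) * G (p.1 + w) p.2) := by
    fun_prop
  rw [lintegral_lintegral_swap h3.aemeasurable]
  have h4 : Measurable (fun ζ : ℝ => ∫⁻ x, G x ζ) :=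
    (hG.comp measurable_swap).lintegral_prod_right'
  rw [← lintegral_const_mul _ (by fun_prop)]
  apply lintegral_congr
  intro ζ
  have h5 : Measurable (fun p : ℝ × ℝ => (c * E p.2) * G (p.1 + p.2) ζ) :=
    h1.comp (by fun_prop : Measurable fun p : ℝ × ℝ => (((p.1, ζ), p.2) : (ℝ × ℝ) × ℝ))
  rw [lintegral_const_mul _ h5.lintegral_prod_right', lintegral_lintegral_swap h5.aemeasurable]
  have h6 : Measurable (fun x : ℝ => G x ζ) :=
    hG.comp (by fun_prop : Measurable fun x : ℝ => ((x, ζ) : ℝ × ℝ))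
  have h7 : ∀ w : ℝ, ∫⁻ x, (c * E w) * G (x + w) ζ = (c * ∫⁻ x, G x ζ) * E w := by
    intro w
    rw [lintegral_const_mul _ (by fun_prop), lintegral_add_right_eq_self (fun x => G x ζ) w]
    ring
  simp_rw [h7]
  rw [lintegral_const_mul _ hE, hE1, mul_one]
  ring

/-- `L²` smoothing for averages along a random direction. -/
theorem PE_l2 {b : ℝ} (hb : 0 < b) {f : ℝ × ℝ → ℝ} {M : ℝ} (hf : Good f M) :
    ∫⁻ s, ∫⁻ v : ℝ × ℝ, ‖PE b (1, s) f v‖ₑ ^ 2
      ≤ ENNReal.ofReal b⁻¹ * ∫⁻ ζ, ‖ζ‖ₑ⁻¹ * ∫⁻ x, ‖ft f x ζ‖ₑ ^ 2 := by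
  have hm0 : Measurable (fun p : ℝ × (ℝ × ℝ) => PE b (1, p.1) f p.2) :=
    (PE_meas' b hf.meas).comp (by fun_prop : Measurable fun p : ℝ × (ℝ × ℝ) =>
      ((((1:ℝ), p.1) : ℝ × ℝ), p.2))
  have hm1 : Measurable (fun p : ℝ × (ℝ × ℝ) => ‖PE b (1, p.1) f p.2‖ₑ ^ 2) :=
    hm0.enorm.pow_const 2
  have hm1' : Measurable (fun p : (ℝ × ℝ) × ℝ => ‖PE b (1, p.1.1) f (p.1.2, p.2)‖ₑ ^ 2) := by
    have : Measurable (fun p : (ℝ × ℝ) × ℝ => PE b (1, p.1.1) f (p.1.2, p.2)) :=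
      hm0.comp (by fun_prop : Measurable fun p : (ℝ × ℝ) × ℝ => (p.1.1, ((p.1.2, p.2) : ℝ × ℝ)))
    exact this.enorm.pow_const 2
  have hG : Measurable (Function.uncurry fun x ζ : ℝ => ‖ft f x ζ‖ₑ ^ 2) := by
    have := ft_meas hf.meas
    exact this.enorm.pow_const 2
  have hekm := ek_meas b
  calc ∫⁻ s, ∫⁻ v : ℝ × ℝ, ‖PE b (1, s) f v‖ₑ ^ 2
      = ∫⁻ s, ∫⁻ x, ∫⁻ y, ‖PE b (1, s) f (x, y)‖ₑ ^ 2 := by
        apply lintegral_congr
        intro s
        rw [Measure.volume_eq_prod, lintegral_prod]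
        exact (hm1.comp (by fun_prop : Measurable fun v : ℝ × ℝ => (s, v))).aemeasurable
    _ = ∫⁻ x, ∫⁻ s, ∫⁻ y, ‖PE b (1, s) f (x, y)‖ₑ ^ 2 := by
        rw [lintegral_lintegral_swap]
        apply Measurable.aemeasurable
        exact hm1'.lintegral_prod_right'
    _ = ∫⁻ x, ∫⁻ ζ, ‖ζ‖ₑ⁻¹ * ∫⁻ w, ‖ft (Phi b f x) w ζ‖ₑ ^ 2 := by
        apply lintegral_congr
        intro x
        rw [← radon_l2 (Phi_good hb hf x)]
        apply lintegral_congr
        intro s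
        apply lintegral_congr
        intro y
        rw [PE_eq_RR]
    _ ≤ ∫⁻ x, ∫⁻ ζ, ‖ζ‖ₑ⁻¹ * ∫⁻ w in Set.Ioi (0:ℝ),
          (ENNReal.ofReal b⁻¹ * ENNReal.ofReal (ek b w)) * ‖ft f (x + w) ζ‖ₑ ^ 2 := by
        apply lintegral_mono
        intro x
        apply lintegral_mono
        intro ζ
        simp only
        gcongr ‖ζ‖ₑ⁻¹ * ?_
        rw [← lintegral_indicator measurableSet_Ioi]
        apply lintegral_mono
        intro w
        simp only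
        rw [ft_Phi]
        by_cases h : w ∈ Set.Ioi (0:ℝ)
        · have hw : 0 < w := h
          rw [Set.indicator_of_mem h, if_pos hw, enorm_mul, mul_pow]
          gcongr
          rw [← ofReal_norm, Complex.norm_real, Real.norm_of_nonneg (ek_pos hb _).le, pow_two]
          gcongr
          exact ek_le hb hw
        · have hw : ¬ (0 < w) := h
          rw [Set.indicator_of_notMem h, if_neg hw]
          simp
    _ = ENNReal.ofReal b⁻¹ * ∫⁻ ζ, ‖ζ‖ₑ⁻¹ * ∫⁻ x, ‖ft f x ζ‖ₑ ^ 2 :=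
        avg_swap hG _ (by fun_prop) (ek_lintegral hb)

/-- First Bessel bound. -/
theorem bessel1 {b : ℝ} (hb : 0 < b) {u : ℝ × ℝ → ℝ} {M : ℝ} (hu : Good u M) :
    ∫⁻ s, ∫⁻ v : ℝ × ℝ, ‖PE b (1, s) (fun v => u v - PE b (0, 1) u v) v‖ₑ ^ 2 ≤ QQ b u := by
  refine (PE_l2 hb (hu.sub (PE_vert_good hb hu))).trans ?_
  have h := N_le (f := fun v => u v - PE b (0, 1) u v) hu.meas hb (C := 1) (fun x ζ => by
    rw [ft_sub_PE hb hu, one_mul])
  calc _ ≤ ENNReal.ofReal b⁻¹ * (1 * (ENNReal.ofReal b * QQ b u)) := by gcongr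
    _ = QQ b u := by
      rw [one_mul, ← mul_assoc, ← ENNReal.ofReal_mul (by positivity), inv_mul_cancel₀ hb.ne']
      simp

/-- weighted vertical convolution -/
noncomputable def XF (i k : ℕ) (b : ℝ) (u : ℝ × ℝ → ℝ) (v : ℝ × ℝ) : ℝ := v.1 ^ i * CV (kap k) b u v

theorem XF_good (i k : ℕ) {b : ℝ} (hb : 0 < b) {u : ℝ × ℝ → ℝ} {M : ℝ} (hu : Good u M)
    {L : ℝ} (hL : 1 ≤ L) (hs : ∀ v : ℝ × ℝ, L < |v.1| → u v = 0) :
    Good (XF i k b u) (L ^ i * (20 * M) + L) := by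
  have hg := CV_good (kap_meas k) (kap_bd k) hb hu
  have hM := hu.nonneg
  have hLi : 0 ≤ L ^ i := by positivity
  have hz : ∀ v : ℝ × ℝ, L < |v.1| → CV (kap k) b u v = 0 := by
    intro v hv
    have : ∀ t, u (v.1, t) = 0 := fun t => hs (v.1, t) hv
    simp [CV, this]
  have hpow : ∀ v : ℝ × ℝ, |v.1| ≤ L → |v.1 ^ i| ≤ L ^ i := by
    intro v hv
    rw [abs_pow]
    exact pow_le_pow_left₀ (abs_nonneg _) hv i
  refine ⟨?_, by positivity, ?_, ?_, ?_⟩
  · have := hg.meas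
    unfold XF
    fun_prop
  · intro v
    by_cases h : |v.1| ≤ L
    · unfold XF
      rw [abs_mul]
      have := mul_le_mul (hpow v h) (hg.bdd v) (abs_nonneg _) hLi
      linarith
    · rw [XF, hz v (not_le.1 h), mul_zero, abs_zero]; positivity
  · intro v hv
    have : 0 ≤ L ^ i * (20 * M) := by positivity
    rw [XF, hz v (by linarith), mul_zero]
  · intro x
    by_cases h : |x| ≤ L
    · unfold XF
      simp only [enorm_mul]
      rw [lintegral_const_mul]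
      · calc ‖x ^ i‖ₑ * ∫⁻ y, ‖CV (kap k) b u (x, y)‖ₑ ≤ ENNReal.ofReal (L ^ i) * ENNReal.ofReal (20 * M) := by
              gcongr
              · rw [← ofReal_norm, Real.norm_eq_abs]
                exact ENNReal.ofReal_le_ofReal (hpow (x, 0) h)
              · exact hg.int x
          _ = ENNReal.ofReal (L ^ i * (20 * M)) := (ENNReal.ofReal_mul hLi).symm
          _ ≤ _ := ENNReal.ofReal_le_ofReal (by linarith)
      · have := hg.meas
        fun_prop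
    · have : ∀ y, XF i k b u (x, y) = 0 := by
        intro y
        rw [XF, hz (x, y) (not_le.1 h), mul_zero]
      simp [this]

theorem ft_XF (i k : ℕ) (b : ℝ) (u : ℝ × ℝ → ℝ) (x ζ : ℝ) :
    ft (XF i k b u) x ζ = (x : ℂ) ^ i * ft (CV (kap k) b u) x ζ := by
  unfold ft XF
  rw [Real.fourier_real_eq, Real.fourier_real_eq, ← integral_const_mul]
  apply integral_congr_ae
  filter_upwards with y
  simp only [Circle.smul_def, smul_eq_mul]
  push_cast
  ring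

/-- Second Bessel bound. -/
theorem bessel2 (i k : ℕ) {b : ℝ} (hb : 0 < b) {u : ℝ × ℝ → ℝ} {M : ℝ} (hu : Good u M)
    {L : ℝ} (hL : 1 ≤ L) (hs : ∀ v : ℝ × ℝ, L < |v.1| → u v = 0) :
    ∫⁻ s, ∫⁻ t, ‖RR (XF i k b u) s t‖ₑ ^ 2
      ≤ ENNReal.ofReal ((L ^ i) ^ 2) * 225 * (ENNReal.ofReal b * QQ b u) := by
  rw [radon_l2 (XF_good i k hb hu hL hs)]
  apply N_le hu.meas hb
  intro x ζ
  rw [ft_XF, enorm_mul, mul_pow, mul_assoc]
  by_cases h : |x| ≤ L
  · apply mul_le_mul'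
    · rw [← ofReal_norm, norm_pow, Complex.norm_real, Real.norm_eq_abs,
        ← ENNReal.ofReal_pow (by positivity)]
      apply ENNReal.ofReal_le_ofReal
      exact pow_le_pow_left₀ (by positivity) (pow_le_pow_left₀ (abs_nonneg _) h i) 2
    · exact ft_CV_kap_le hb hu k x ζ
  · have hz : ft (CV (kap k) b u) x ζ = 0 := by
      have : ∀ y, CV (kap k) b u (x, y) = 0 := by
        intro y
        have : ∀ t, u (x, t) = 0 := fun t => hs (x, t) (not_le.1 h)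
        simp [CV, this]
      rw [ft, Real.fourier_real_eq]
      simp [this]
    rw [hz]; simp

end Pool.Agent.H58
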