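import Mathlib
import Pool.Agent.Lib_helper58.Bessel

set_option autoImplicit false

open MeasureTheory
open scoped ENNReal Topology

namespace Pool.Agent.H58

theorem ek_integral_dir {b : ℝ} (hb : 0 < b) (e : ℝ × ℝ) {Φ Φ' : ℝ × ℝ → ℝ} {C : ℝ}
    (hΦm : Measurable Φ) (hΦ'm : Measurable Φ')
    (hΦ : ∀ v, |Φ v| ≤ C) (hΦ' : ∀ v, |Φ' v| ≤ C)
    (hd : ∀ v, HasDerivAt (fun w : ℝ => Φ (v + w • e)) (Φ' v) 0) (v : ℝ × ℝ) :
    ∫ w in Set.Ioi (0:ℝ), ek b w * (Φ (v - w • e) + b * Φ' (v - w • e)) = Φ v := by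
  have hC : 0 ≤ C := le_trans (abs_nonneg _) (hΦ v)
  have hd' : ∀ w : ℝ, HasDerivAt (fun z : ℝ => Φ (v - z • e)) (-(Φ' (v - w • e))) w := by
    intro w
    have h1 := hd (v - w • e)
    have h2 : HasDerivAt (fun z : ℝ => w - z) (-1) w := by
      simpa using (hasDerivAt_id w).const_sub w
    have h3 : HasDerivAt (fun z : ℝ => Φ (v - w • e + z • e)) (Φ' (v - w • e)) (w - w) := by
      rw [sub_self]; exact h1
    have h4 := h3.comp w h2
    have e1 : ((fun z : ℝ => Φ (v - w • e + z • e)) ∘ fun z => w - z) = fun z : ℝ => Φ (v - z • e) := by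
      ext z
      simp only [Function.comp]
      congr 1
      module
    rw [e1] at h4
    simpa using h4
  have hA : ∀ w : ℝ, HasDerivAt (fun z : ℝ => -(Real.exp (-(z / b)) * Φ (v - z • e)))
      (ek b w * (Φ (v - w • e) + b * Φ' (v - w • e))) w := by
    intro w
    have h1 : HasDerivAt (fun z : ℝ => Real.exp (-(z / b))) (-(b⁻¹) * Real.exp (-(w / b))) w := by
      have h0 : HasDerivAt (fun z : ℝ => -(z / b)) (-(1 / b)) w :=
        ((hasDerivAt_id w).div_const b).neg
      refine h0.exp.congr_deriv ?_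
      ring
    have h2 := (h1.mul (hd' w)).neg
    refine h2.congr_deriv ?_
    simp only [ek]
    field_simp
    ring
  have hint : IntegrableOn (fun w : ℝ => ek b w * (Φ (v - w • e) + b * Φ' (v - w • e))) (Set.Ioi 0) := by
    refine Integrable.mul_bdd (c := C + b * C) (ek_integrableOn hb) ?_ ?_
    · exact (by fun_prop : Measurable fun w : ℝ => (Φ (v - w • e) + b * Φ' (v - w • e))).aestronglyMeasurable
    · filter_upwards with w
      rw [Real.norm_eq_abs]
      refine (abs_add_le _ _).trans ?_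
      rw [abs_mul, abs_of_pos hb]
      exact add_le_add (hΦ _) (mul_le_mul_of_nonneg_left (hΦ' _) hb.le)
  have hlim : Filter.Tendsto (fun z : ℝ => -(Real.exp (-(z / b)) * Φ (v - z • e))) Filter.atTop (𝓝 0) := by
    have h1 : Filter.Tendsto (fun z : ℝ => Real.exp (-(z / b)) * C) Filter.atTop (𝓝 0) := by
      have : Filter.Tendsto (fun z : ℝ => Real.exp (-(z / b))) Filter.atTop (𝓝 0) := by
        apply Real.tendsto_exp_atBot.comp
        apply Filter.tendsto_neg_atTop_atBot.comp
        exact Filter.tendsto_id.atTop_div_const hb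
      simpa using this.mul_const C
    refine squeeze_zero_norm (fun z => ?_) h1
    rw [norm_neg, norm_mul, Real.norm_of_nonneg (Real.exp_pos _).le, Real.norm_eq_abs]
    exact mul_le_mul_of_nonneg_left (hΦ _) (Real.exp_pos _).le
  have := integral_Ioi_of_hasDerivAt_of_tendsto (a := (0:ℝ))
    (hA 0).continuousAt.continuousWithinAt (fun w _ => hA w) hint hlim
  rw [this]
  simp

theorem mp_dir (e : ℝ × ℝ) : MeasurePreserving (fun p : ℝ × (ℝ × ℝ) => (p.1, p.2 + p.1 • e))
    ((volume.restrict (Set.Ioi 0)).prod volume) ((volume.restrict (Set.Ioi 0)).prod volume) := by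
  have := (MeasurePreserving.id ((volume : Measure ℝ).restrict (Set.Ioi 0))).skew_product
    (g := fun (w : ℝ) (v : ℝ × ℝ) => v + w • e) (μd := (volume : Measure (ℝ × ℝ)))
    (μc := (volume : Measure (ℝ × ℝ)))
    (by fun_prop) (Filter.Eventually.of_forall fun w => by
      exact (measurePreserving_add_right volume (w • e)).map_eq)
  exact this

/-- One-directional duality. -/
theorem dual_dir {b : ℝ} (hb : 0 < b) (e : ℝ × ℝ) {f Φ Φ' : ℝ × ℝ → ℝ} {C : ℝ}
    (hf : Integrable f)
    (hΦm : Measurable Φ) (hΦ'm : Measurable Φ')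
    (hΦ : ∀ v, |Φ v| ≤ C) (hΦ' : ∀ v, |Φ' v| ≤ C)
    (hd : ∀ v, HasDerivAt (fun w : ℝ => Φ (v + w • e)) (Φ' v) 0) :
    ∫ v, f v * Φ v = ∫ v, PE b e f v * (Φ v + b * Φ' v) := by
  set Ψ : ℝ × ℝ → ℝ := fun v => Φ v + b * Φ' v with hΨ
  have hΨm : Measurable Ψ := by fun_prop
  have hΨb : ∀ v, ‖Ψ v‖ ≤ C + b * C := by
    intro v
    rw [Real.norm_eq_abs]
    refine (abs_add_le _ _).trans ?_
    rw [abs_mul, abs_of_pos hb]
    exact add_le_add (hΦ _) (mul_le_mul_of_nonneg_left (hΦ' _) hb.le)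
  have hekm := ek_meas b
  have I0 : Integrable (fun p : ℝ × (ℝ × ℝ) => ek b p.1 * f p.2)
      ((volume.restrict (Set.Ioi 0)).prod volume) := (ek_integrableOn hb).integrable.mul_prod hf
  have I1 : Integrable (fun p : ℝ × (ℝ × ℝ) => ek b p.1 * f (p.2 + p.1 • e))
      ((volume.restrict (Set.Ioi 0)).prod volume) := (mp_dir e).integrable_comp_of_integrable I0
  have I2 : Integrable (fun p : ℝ × (ℝ × ℝ) => ek b p.1 * f (p.2 + p.1 • e) * Ψ p.2)
      ((volume.restrict (Set.Ioi 0)).prod volume) :=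
    I1.mul_bdd (c := C + b * C) (by
      exact (by fun_prop : Measurable fun p : ℝ × (ℝ × ℝ) => Ψ p.2).aestronglyMeasurable)
      (Filter.Eventually.of_forall fun p => hΨb _)
  have I3 : Integrable (fun p : ℝ × (ℝ × ℝ) => ek b p.1 * f p.2 * Ψ (p.2 - p.1 • e))
      ((volume.restrict (Set.Ioi 0)).prod volume) :=
    I0.mul_bdd (c := C + b * C) (by
      exact (by fun_prop : Measurable fun p : ℝ × (ℝ × ℝ) => Ψ (p.2 - p.1 • e)).aestronglyMeasurable)
      (Filter.Eventually.of_forall fun p => hΨb _)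
  symm
  calc ∫ v, PE b e f v * Ψ v
      = ∫ v, ∫ w in Set.Ioi (0:ℝ), ek b w * f (v + w • e) * Ψ v := by
        apply integral_congr_ae
        filter_upwards with v
        rw [PE, integral_mul_const]
    _ = ∫ w in Set.Ioi (0:ℝ), ∫ v, ek b w * f (v + w • e) * Ψ v := by
        rw [integral_integral_swap]
        exact I2.swap
    _ = ∫ w in Set.Ioi (0:ℝ), ∫ v, ek b w * f v * Ψ (v - w • e) := by
        apply integral_congr_ae
        filter_upwards with w
        have := integral_add_right_eq_self (μ := (volume : Measure (ℝ × ℝ)))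
          (fun v : ℝ × ℝ => ek b w * f v * Ψ (v - w • e)) (w • e)
        rw [← this]
        simp
    _ = ∫ v, ∫ w in Set.Ioi (0:ℝ), ek b w * f v * Ψ (v - w • e) := by
        rw [integral_integral_swap]
        exact I3
    _ = ∫ v, f v * Φ v := by
        apply integral_congr_ae
        filter_upwards with v
        rw [← ek_integral_dir hb e hΦm hΦ'm hΦ hΦ' hd v, ← integral_const_mul]
        apply integral_congr_ae
        filter_upwards with w
        simp only [hΨ]
        ring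

/-- Two-directional duality. -/
theorem double_dual {b : ℝ} (hb : 0 < b) {f G Gy G1x : ℝ × ℝ → ℝ} {C M : ℝ}
    (hf : Good f M)
    (hGm : Measurable G) (hGym : Measurable Gy) (hG1xm : Measurable G1x)
    (hG : ∀ v, |G v| ≤ C) (hGy : ∀ v, |Gy v| ≤ C) (hG1x : ∀ v, |G1x v| ≤ C)
    (hdy : ∀ v : ℝ × ℝ, HasDerivAt (fun w : ℝ => G (v + w • (0, 1))) (Gy v) 0)
    (hdx : ∀ v : ℝ × ℝ, HasDerivAt (fun w : ℝ => G (v + w • (1, 0)) + b * Gy (v + w • (1, 0))) (G1x v) 0) :
    (∫ v, f v * G v = ∫ v, PE b (1, 0) (PE b (0, 1) f) v * ((G v + b * Gy v) + b * G1x v)) ∧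
    (∫ v, f v * (b * Gy v) = ∫ v, PE b (1, 0) (fun v => f v - PE b (0, 1) f v) v *
      ((G v + b * Gy v) + b * G1x v)) := by
  have hP := PE_vert_good hb hf
  have hC : 0 ≤ C := le_trans (abs_nonneg _) (hG 0)
  have hG1b : ∀ v, |G v + b * Gy v| ≤ C + b * C := by
    intro v
    refine (abs_add_le _ _).trans ?_
    rw [abs_mul, abs_of_pos hb]
    exact add_le_add (hG _) (mul_le_mul_of_nonneg_left (hGy _) hb.le)
  have hG1x' : ∀ v, |G1x v| ≤ C + b * C := fun v => (hG1x v).trans (by nlinarith)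
  have h1 : ∫ v, f v * G v = ∫ v, PE b (0, 1) f v * (G v + b * Gy v) :=
    dual_dir hb (0, 1) hf.integrable hGm hGym hG hGy hdy
  have h2 : ∫ v, PE b (0, 1) f v * (G v + b * Gy v)
      = ∫ v, PE b (1, 0) (PE b (0, 1) f) v * ((G v + b * Gy v) + b * G1x v) :=
    dual_dir hb (1, 0) hP.integrable (by fun_prop) hG1xm hG1b hG1x' hdx
  have hs := hf.sub hP
  have h3 : ∫ v, (f v - PE b (0, 1) f v) * (G v + b * Gy v)
      = ∫ v, PE b (1, 0) (fun v => f v - PE b (0, 1) f v) v * ((G v + b * Gy v) + b * G1x v) :=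
    dual_dir hb (1, 0) hs.integrable (by fun_prop) hG1xm hG1b hG1x' hdx
  refine ⟨h1.trans h2, ?_⟩
  rw [← h3]
  have i1 : Integrable (fun v => f v * G v) := hf.integrable.mul_bdd (c := C) hGm.aestronglyMeasurable
    (Filter.Eventually.of_forall fun v => hG v)
  have i2 : Integrable (fun v => f v * (b * Gy v)) := hf.integrable.mul_bdd (c := b * C)
    (by exact (by fun_prop : Measurable fun v => b * Gy v).aestronglyMeasurable)
    (Filter.Eventually.of_forall fun v => by
      rw [Real.norm_eq_abs, abs_mul, abs_of_pos hb]; exact mul_le_mul_of_nonneg_left (hGy _) hb.le)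
  have i3 : Integrable (fun v => PE b (0,1) f v * (G v + b * Gy v)) :=
    hP.integrable.mul_bdd (c := C + b * C)
    (by exact (by fun_prop : Measurable fun v => G v + b * Gy v).aestronglyMeasurable)
    (Filter.Eventually.of_forall fun v => by rw [Real.norm_eq_abs]; exact hG1b v)
  have e1 : ∫ v, (f v - PE b (0, 1) f v) * (G v + b * Gy v)
      = ((∫ v, f v * G v) + ∫ v, f v * (b * Gy v)) - ∫ v, PE b (0,1) f v * (G v + b * Gy v) := by
    rw [← integral_add i1 i2, ← integral_sub (by fun_prop) i3]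
    apply integral_congr_ae
    filter_upwards with v
    ring
  rw [e1, h1]
  ring

end Pool.Agent.H58
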