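import Mathlib
import Pool.Agent.Lib_helper58.Bessel

set_option autoImplicit false

open MeasureTheory
open scoped ENNReal Topology

namespace Pool.Agent.H58

/-- `h_{k,i}(σ,τ)`. -/
noncomputable def HH (b : ℝ) (w : ℝ × ℝ → ℝ) (k i : ℕ) (p : ℝ × ℝ) : ℝ :=
  ∫ v : ℝ × ℝ, v.1 ^ i * (b⁻¹ * kap k ((p.2 + p.1 * v.1 - v.2) / b)) * w v

/-- same with the kernel `k` -/
noncomputable def KK (b : ℝ) (w : ℝ × ℝ → ℝ) (p : ℝ × ℝ) : ℝ :=
  ∫ v : ℝ × ℝ, v.1 * (b⁻¹ * kk ((p.2 + p.1 * v.1 - v.2) / b)) * w v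

/-- hypotheses on the local function -/
structure Loc (w : ℝ × ℝ → ℝ) (H : ℝ) : Prop where
  meas : Measurable w
  nonneg : ∀ v, 0 ≤ w v
  le_one : ∀ v, w v ≤ 1
  suppx : ∀ v, w v ≠ 0 → 1/2 ≤ v.1 ∧ v.1 ≤ 3
  suppy : ∀ v, w v ≠ 0 → |v.2| ≤ H

theorem Loc.good {w : ℝ × ℝ → ℝ} {H : ℝ} (hw : Loc w H) : Good w (4 + 2 * |H|) := by
  have hH := abs_nonneg H
  refine ⟨hw.meas, by positivity, ?_, ?_, ?_⟩
  · intro v
    rw [abs_of_nonneg (hw.nonneg v)]
    linarith [hw.le_one v]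
  · intro v hv
    by_contra h
    have := hw.suppx v h
    have : |v.1| ≤ 3 := abs_le.2 ⟨by linarith, by linarith⟩
    linarith
  · intro x
    calc ∫⁻ y, ‖w (x, y)‖ₑ ≤ ∫⁻ y, (Set.Icc (-|H|) |H|).indicator (fun _ => 1) y := by
          apply lintegral_mono
          intro y
          by_cases h : w (x, y) = 0
          · simp [h]
          · have h1 := hw.suppy _ h
            have h2 : y ∈ Set.Icc (-|H|) |H| := by
              rw [Set.mem_Icc, ← abs_le]
              exact h1.trans (le_abs_self H)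
            simp only
            rw [Set.indicator_of_mem h2, ← ofReal_norm, Real.norm_of_nonneg (hw.nonneg _)]
            rw [ENNReal.ofReal_le_one]
            exact hw.le_one _
      _ = ENNReal.ofReal (2 * |H|) := by
          rw [lintegral_indicator measurableSet_Icc, setLIntegral_const, one_mul, Real.volume_Icc]
          congr 1; ring
      _ ≤ _ := ENNReal.ofReal_le_ofReal (by linarith)

theorem Loc.integrable {w : ℝ × ℝ → ℝ} {H : ℝ} (hw : Loc w H) : Integrable w := hw.good.integrable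

theorem kap_bd' (k : ℕ) (z : ℝ) : |kap k z| ≤ 10 := by
  refine (kap_bd k z).trans ?_
  have : Real.exp (-|z|) ≤ 1 := Real.exp_le_one_iff.2 (by simp)
  linarith

theorem Loc.pow_bd {w : ℝ × ℝ → ℝ} {H : ℝ} (hw : Loc w H) (i : ℕ) (v : ℝ × ℝ) :
    |v.1 ^ i * w v| ≤ 3 ^ i * w v := by
  by_cases h : w v = 0
  · simp [h]
  · have h1 := hw.suppx v h
    rw [abs_mul, abs_of_nonneg (hw.nonneg v), abs_pow]
    apply mul_le_mul_of_nonneg_right _ (hw.nonneg v)
    apply pow_le_pow_left₀ (abs_nonneg _)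
    rw [abs_le]; constructor <;> linarith

theorem Loc.integrable_pow {w : ℝ × ℝ → ℝ} {H : ℝ} (hw : Loc w H) (i : ℕ) :
    Integrable (fun v : ℝ × ℝ => v.1 ^ i * w v) := by
  have hm := hw.meas
  refine Integrable.mono' (hw.integrable.const_mul (3 ^ i)) (by
    exact (by fun_prop : Measurable fun v : ℝ × ℝ => v.1 ^ i * w v).aestronglyMeasurable) ?_
  filter_upwards with v
  rw [Real.norm_eq_abs]
  exact hw.pow_bd i v

theorem HH_integrand {b : ℝ} {w : ℝ × ℝ → ℝ} {H : ℝ} (hw : Loc w H) (k i : ℕ)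
    (p : ℝ × ℝ) :
    Integrable (fun v : ℝ × ℝ => v.1 ^ i * (b⁻¹ * kap k ((p.2 + p.1 * v.1 - v.2) / b)) * w v) := by
  have hk := kap_meas k
  have h1 := (hw.integrable_pow i).bdd_mul (c := |b⁻¹| * 10)
    (f := fun v : ℝ × ℝ => (b⁻¹ * kap k ((p.2 + p.1 * v.1 - v.2) / b)))
    (by exact (by fun_prop : Measurable fun v : ℝ × ℝ =>
      (b⁻¹ * kap k ((p.2 + p.1 * v.1 - v.2) / b))).aestronglyMeasurable)
    (Filter.Eventually.of_forall fun v => by
      rw [Real.norm_eq_abs, abs_mul]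
      exact mul_le_mul_of_nonneg_left (kap_bd' k _) (abs_nonneg _))
  refine h1.congr (Filter.Eventually.of_forall fun v => ?_)
  simp only
  ring

theorem HH_bdd {b : ℝ} (hb : 0 < b) {w : ℝ × ℝ → ℝ} {H : ℝ} (hw : Loc w H) (k i : ℕ)
    (p : ℝ × ℝ) : |HH b w k i p| ≤ b⁻¹ * 10 * 3 ^ i * ∫ v, w v := by
  unfold HH
  rw [← Real.norm_eq_abs, ← integral_const_mul]
  refine (norm_integral_le_integral_norm _).trans ?_
  apply integral_mono (HH_integrand hw k i p).norm (hw.integrable.const_mul _)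
  intro v
  simp only [Real.norm_eq_abs]
  have e : v.1 ^ i * (b⁻¹ * kap k ((p.2 + p.1 * v.1 - v.2) / b)) * w v
    = (b⁻¹ * kap k ((p.2 + p.1 * v.1 - v.2) / b)) * (v.1 ^ i * w v) := by ring
  rw [e, abs_mul]
  have h1 := hw.pow_bd i v
  have h2 : |b⁻¹ * kap k ((p.2 + p.1 * v.1 - v.2) / b)| ≤ b⁻¹ * 10 := by
    rw [abs_mul, abs_of_pos (by positivity : 0 < b⁻¹)]
    exact mul_le_mul_of_nonneg_left (kap_bd' k _) (by positivity)
  calc _ ≤ (b⁻¹ * 10) * (3 ^ i * w v) := mul_le_mul h2 h1 (abs_nonneg _) (by positivity)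
    _ = _ := by ring

theorem HH_meas (b : ℝ) {w : ℝ × ℝ → ℝ} (hm : Measurable w) (k i : ℕ) :
    Measurable (HH b w k i) := by
  have hk := kap_meas k
  have h : StronglyMeasurable (fun p : (ℝ × ℝ) × (ℝ × ℝ) =>
      p.2.1 ^ i * (b⁻¹ * kap k ((p.1.2 + p.1.1 * p.2.1 - p.2.2) / b)) * w p.2) := by
    apply Measurable.stronglyMeasurable
    fun_prop
  exact (h.integral_prod_right' (ν := (volume : Measure (ℝ × ℝ)))).measurable

theorem kap_lip {k : ℕ} (hk : k = 1 ∨ k = 2) (x y : ℝ) : |kap k x - kap k y| ≤ 10 * |x - y| := by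
  rcases hk with rfl | rfl
  · exact kap1_lip x y
  · exact kap2_lip x y

theorem kap_deriv {k : ℕ} (hk : k = 1 ∨ k = 2) {z : ℝ} (hz : z ≠ 0) :
    HasDerivAt (kap k) (kap (k + 1) z) z := by
  rcases hk with rfl | rfl
  · exact kap1_deriv hz
  · exact kap2_deriv hz

theorem ae_line_ne (σ τ : ℝ) : ∀ᵐ v : ℝ × ℝ, τ + σ * v.1 - v.2 ≠ 0 := by
  have hm : MeasurableSet {v : ℝ × ℝ | ¬ (τ + σ * v.1 - v.2 ≠ 0)} := by
    have : {v : ℝ × ℝ | ¬ (τ + σ * v.1 - v.2 ≠ 0)} = {v : ℝ × ℝ | (τ + σ * v.1 - v.2 = 0)} := by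
      ext v; simp
    rw [this]
    exact measurableSet_eq_fun (by fun_prop) (by fun_prop)
  rw [ae_iff, Measure.volume_eq_prod, Measure.measure_prod_null hm]
  filter_upwards with x
  have : Prod.mk x ⁻¹' {v : ℝ × ℝ | ¬ (τ + σ * v.1 - v.2 ≠ 0)} = {τ + σ * x} := by
    ext y
    simp only [ne_eq, not_not, Set.mem_preimage, Set.mem_ofPred_eq, Set.mem_singleton_iff]
    constructor
    · intro h; linarith
    · intro h; rw [h]; ring
  rw [this]
  simp

/-- Fréchet derivative of `h_{k,i}`. -/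
theorem HH_hasFDerivAt {b : ℝ} (hb : 0 < b) {w : ℝ × ℝ → ℝ} {H : ℝ} (hw : Loc w H) {k : ℕ}
    (hk : k = 1 ∨ k = 2) (i : ℕ) (p : ℝ × ℝ) :
    HasFDerivAt (HH b w k i)
      ((b⁻¹ * HH b w (k+1) (i+1) p) • (ContinuousLinearMap.fst ℝ ℝ ℝ)
        + (b⁻¹ * HH b w (k+1) i p) • (ContinuousLinearMap.snd ℝ ℝ ℝ)) p := by
  have hkm := kap_meas k
  have hkm1 := kap_meas (k+1)
  have hwm := hw.meas
  set F : ℝ × ℝ → ℝ × ℝ → ℝ := fun p v => v.1 ^ i * (b⁻¹ * kap k ((p.2 + p.1 * v.1 - v.2) / b)) * w v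
    with hF
  set c1 : ℝ × ℝ → ℝ := fun v => b⁻¹ * (v.1 ^ (i+1) * (b⁻¹ * kap (k+1) ((p.2 + p.1 * v.1 - v.2) / b)) * w v)
    with hc1
  set c2 : ℝ × ℝ → ℝ := fun v => b⁻¹ * (v.1 ^ i * (b⁻¹ * kap (k+1) ((p.2 + p.1 * v.1 - v.2) / b)) * w v)
    with hc2
  set F' : ℝ × ℝ → (ℝ × ℝ →L[ℝ] ℝ) := fun v => c1 v • (ContinuousLinearMap.fst ℝ ℝ ℝ)
    + c2 v • (ContinuousLinearMap.snd ℝ ℝ ℝ) with hF'
  have hc1i : Integrable c1 := (HH_integrand hw (k+1) (i+1) p).const_mul _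
  have hc2i : Integrable c2 := (HH_integrand hw (k+1) i p).const_mul _
  have key := hasFDerivAt_integral_of_dominated_loc_of_lip (μ := (volume : Measure (ℝ × ℝ)))
    (F := F) (F' := F') (x₀ := p) (s := Set.univ) (bound := fun v => 40 * b⁻¹ * b⁻¹ * 3 ^ i * w v)
    Filter.univ_mem
    (Filter.Eventually.of_forall fun p => by
      exact (by fun_prop : Measurable fun v : ℝ × ℝ =>
        v.1 ^ i * (b⁻¹ * kap k ((p.2 + p.1 * v.1 - v.2) / b)) * w v).aestronglyMeasurable)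
    (HH_integrand hw k i p)
    (by
      exact (hc1i.aestronglyMeasurable.smul_const _).add (hc2i.aestronglyMeasurable.smul_const _))
    (by
      filter_upwards with v
      rw [lipschitzOnWith_univ]
      apply LipschitzWith.of_dist_le_mul
      intro x y
      have hb0 : 0 ≤ 40 * b⁻¹ * b⁻¹ * 3 ^ i * w v := by have := hw.nonneg v; positivity
      rw [Real.dist_eq, Real.coe_nnabs, abs_of_nonneg hb0]
      simp only [hF]
      have e : v.1 ^ i * (b⁻¹ * kap k ((x.2 + x.1 * v.1 - v.2) / b)) * w v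
          - v.1 ^ i * (b⁻¹ * kap k ((y.2 + y.1 * v.1 - v.2) / b)) * w v
          = b⁻¹ * (kap k ((x.2 + x.1 * v.1 - v.2) / b) - kap k ((y.2 + y.1 * v.1 - v.2) / b))
            * (v.1 ^ i * w v) := by ring
      rw [e, abs_mul, abs_mul, abs_of_pos (by positivity : 0 < b⁻¹)]
      have h1 := kap_lip hk ((x.2 + x.1 * v.1 - v.2) / b) ((y.2 + y.1 * v.1 - v.2) / b)
      by_cases hv : w v = 0
      · simp [hv]
      have hvx := hw.suppx v hv
      have h2 : |(x.2 + x.1 * v.1 - v.2) / b - (y.2 + y.1 * v.1 - v.2) / b| ≤ b⁻¹ * (4 * dist x y) := by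
        have e2 : (x.2 + x.1 * v.1 - v.2) / b - (y.2 + y.1 * v.1 - v.2) / b
            = b⁻¹ * ((x.2 - y.2) + (x.1 - y.1) * v.1) := by ring
        rw [e2, abs_mul, abs_of_pos (by positivity : 0 < b⁻¹)]
        apply mul_le_mul_of_nonneg_left _ (by positivity)
        have h3 : |x.2 - y.2| ≤ dist x y := by
          have := norm_snd_le (x - y)
          simpa [dist_eq_norm] using this
        have h4 : |x.1 - y.1| ≤ dist x y := by
          have := norm_fst_le (x - y)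
          simpa [dist_eq_norm] using this
        have h5 : |v.1| ≤ 3 := by rw [abs_le]; constructor <;> linarith
        calc |(x.2 - y.2) + (x.1 - y.1) * v.1| ≤ |x.2 - y.2| + |x.1 - y.1| * |v.1| := by
              refine (abs_add_le _ _).trans ?_
              rw [abs_mul]
          _ ≤ dist x y + dist x y * 3 := by
              gcongr
          _ = 4 * dist x y := by ring
      have h6 := hw.pow_bd i v
      calc b⁻¹ * |kap k ((x.2 + x.1 * v.1 - v.2) / b) - kap k ((y.2 + y.1 * v.1 - v.2) / b)|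
            * |v.1 ^ i * w v|
          ≤ b⁻¹ * (10 * (b⁻¹ * (4 * dist x y))) * (3 ^ i * w v) := by
            have := hw.nonneg v
            gcongr
            exact h1.trans (by linarith)
        _ = 40 * b⁻¹ * b⁻¹ * 3 ^ i * w v * dist x y := by ring)
    (by exact hw.integrable.const_mul _)
    (by
      filter_upwards [ae_line_ne p.1 p.2] with v hv
      have hz : (p.2 + p.1 * v.1 - v.2) / b ≠ 0 := div_ne_zero hv hb.ne'
      have h1 := kap_deriv hk hz
      have h2 : HasFDerivAt (fun q : ℝ × ℝ => (q.2 + q.1 * v.1 - v.2) / b)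
          ((b⁻¹) • (ContinuousLinearMap.snd ℝ ℝ ℝ + v.1 • ContinuousLinearMap.fst ℝ ℝ ℝ)) p := by
        have h3 : HasFDerivAt (fun q : ℝ × ℝ => q.2) (ContinuousLinearMap.snd ℝ ℝ ℝ) p := hasFDerivAt_snd
        have h4 : HasFDerivAt (fun q : ℝ × ℝ => q.1) (ContinuousLinearMap.fst ℝ ℝ ℝ) p := hasFDerivAt_fst
        have h5 := ((h3.add (h4.mul_const v.1)).sub_const v.2).const_mul b⁻¹
        refine h5.congr_of_eventuallyEq ?_
        filter_upwards with q
        simp only [Pi.add_apply]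
        ring
      have h3 := h1.comp_hasFDerivAt p h2
      have h4 := (((h3.const_mul b⁻¹).const_mul (v.1 ^ i)).mul_const (w v))
      refine HasFDerivAt.congr_fderiv h4 ?_
      ext
      · simp [hF', hc1, hc2]; ring
      · simp [hF', hc1, hc2]; ring)
  have e1 : ∫ v, F' v = (b⁻¹ * HH b w (k+1) (i+1) p) • (ContinuousLinearMap.fst ℝ ℝ ℝ)
        + (b⁻¹ * HH b w (k+1) i p) • (ContinuousLinearMap.snd ℝ ℝ ℝ) := by
    simp only [hF']
    rw [integral_add (hc1i.smul_const _) (hc2i.smul_const _), integral_smul_const, integral_smul_const]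
    simp only [hc1, hc2, integral_const_mul, HH]
  rw [← e1]
  exact key.2

/-- `g_{k,i}(x,y) = h_{k,i}(y/x, 2/x)`. -/
noncomputable def gg (b : ℝ) (w : ℝ × ℝ → ℝ) (k i : ℕ) (v : ℝ × ℝ) : ℝ := HH b w k i (v.2 / v.1, 2 / v.1)

theorem gg_meas (b : ℝ) {w : ℝ × ℝ → ℝ} (hm : Measurable w) (k i : ℕ) :
    Measurable (gg b w k i) := by
  have := HH_meas b hm k i
  unfold gg
  fun_prop

theorem gg_dy {b : ℝ} (hb : 0 < b) {w : ℝ × ℝ → ℝ} {H : ℝ} (hw : Loc w H) {k : ℕ}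
    (hk : k = 1 ∨ k = 2) (i : ℕ) (x y : ℝ) :
    HasDerivAt (fun z : ℝ => gg b w k i (x, z)) (b⁻¹ * (x⁻¹ * gg b w (k+1) (i+1) (x, y))) y := by
  have h1 := HH_hasFDerivAt hb hw hk i (y / x, 2 / x)
  have h2 : HasDerivAt (fun z : ℝ => ((z / x, 2 / x) : ℝ × ℝ)) (1 / x, 0) y :=
    ((hasDerivAt_id y).div_const x).prodMk (hasDerivAt_const y _)
  have h3 := h1.comp_hasDerivAt y h2
  refine h3.congr_deriv ?_
  simp [gg]
  ring

theorem gg_dx {b : ℝ} (hb : 0 < b) {w : ℝ × ℝ → ℝ} {H : ℝ} (hw : Loc w H) {k : ℕ}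
    (hk : k = 1 ∨ k = 2) (i : ℕ) {x : ℝ} (hx : x ≠ 0) (y : ℝ) :
    HasDerivAt (fun z : ℝ => gg b w k i (z, y))
      (b⁻¹ * (-(y / x ^ 2) * gg b w (k+1) (i+1) (x, y) - (2 / x ^ 2) * gg b w (k+1) i (x, y))) x := by
  have h1 := HH_hasFDerivAt hb hw hk i (y / x, 2 / x)
  have h2 : HasDerivAt (fun z : ℝ => ((y / z, 2 / z) : ℝ × ℝ)) (-(y / x ^ 2), -(2 / x ^ 2)) x := by
    apply HasDerivAt.prodMk
    · have := (hasDerivAt_inv hx).const_mul y
      simp only [div_eq_mul_inv]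
      refine this.congr_deriv ?_
      ring
    · have := (hasDerivAt_inv hx).const_mul 2
      simp only [div_eq_mul_inv]
      refine this.congr_deriv ?_
      ring
  have h3 := h1.comp_hasDerivAt x h2
  refine h3.congr_deriv ?_
  simp [gg]
  ring

end Pool.Agent.H58
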