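import Mathlib
import Pool.Agent.Lib_helper58.HHder
import Pool.Agent.Lib_helper58.Duality

set_option autoImplicit false

open MeasureTheory
open scoped ENNReal Topology

namespace Pool.Agent.H58

noncomputable def chiB : ContDiffBump (7/4 : ℝ) := ⟨5/4, 3/2, by norm_num, by norm_num⟩
noncomputable def WB : ContDiffBump (0 : ℝ) := ⟨2, 3, by norm_num, by norm_num⟩
noncomputable def chi (x : ℝ) : ℝ := chiB x
noncomputable def WW (y : ℝ) : ℝ := WB y

theorem chi_smooth : ContDiff ℝ 2 chi := chiB.contDiff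
theorem WW_smooth : ContDiff ℝ 3 WW := WB.contDiff
theorem chi_nonneg (x : ℝ) : 0 ≤ chi x := chiB.nonneg
theorem chi_le_one (x : ℝ) : chi x ≤ 1 := chiB.le_one
theorem WW_nonneg (x : ℝ) : 0 ≤ WW x := WB.nonneg
theorem WW_le_one (x : ℝ) : WW x ≤ 1 := WB.le_one
theorem chi_one {x : ℝ} (h1 : 1/2 ≤ x) (h2 : x ≤ 3) : chi x = 1 := by
  apply chiB.one_of_mem_closedBall
  rw [Metric.mem_closedBall, Real.dist_eq]
  show |x - 7/4| ≤ 5/4
  rw [abs_le]; constructor <;> linarith
theorem chi_zero {x : ℝ} (h : x ≤ 1/4 ∨ 13/4 ≤ x) : chi x = 0 := by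
  apply chiB.zero_of_le_dist
  rw [Real.dist_eq]
  show 3/2 ≤ |x - 7/4|
  rcases h with h | h
  · rw [abs_of_nonpos (by linarith)]; linarith
  · rw [abs_of_nonneg (by linarith)]; linarith
theorem WW_one {x : ℝ} (h : |x| ≤ 2) : WW x = 1 := by
  apply WB.one_of_mem_closedBall
  rw [Metric.mem_closedBall, Real.dist_eq]
  show |x - 0| ≤ 2
  simpa using h
theorem WW_zero {x : ℝ} (h : 3 ≤ |x|) : WW x = 0 := by
  apply WB.zero_of_le_dist
  rw [Real.dist_eq]
  show 3 ≤ |x - 0|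
  simpa using h

theorem deriv_zero_of_locally {f : ℝ → ℝ} {s : Set ℝ} (hs : IsOpen s) (h : ∀ x ∈ s, f x = 0)
    {x : ℝ} (hx : x ∈ s) : deriv f x = 0 := by
  have : f =ᶠ[𝓝 x] fun _ => 0 := by
    filter_upwards [hs.mem_nhds hx] with y hy using h y hy
  rw [this.deriv_eq]
  simp

theorem dchi_zero {x : ℝ} (h : x < 1/4 ∨ 13/4 < x) : deriv chi x = 0 := by
  rcases h with h | h
  · exact deriv_zero_of_locally isOpen_Iio (fun y hy => chi_zero (Or.inl (le_of_lt hy))) h
  · exact deriv_zero_of_locally isOpen_Ioi (fun y hy => chi_zero (Or.inr (le_of_lt hy))) h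

theorem open_abs : IsOpen {x : ℝ | 3 < |x|} := isOpen_lt continuous_const continuous_abs

theorem dWW_zero {x : ℝ} (h : 3 < |x|) : deriv WW x = 0 :=
  deriv_zero_of_locally open_abs (fun y hy => WW_zero (le_of_lt hy)) h

theorem ddWW_zero {x : ℝ} (h : 3 < |x|) : deriv (deriv WW) x = 0 :=
  deriv_zero_of_locally open_abs (fun y hy => dWW_zero hy) h

theorem bdd_of_cont {f : ℝ → ℝ} (hf : Continuous f) {a : ℝ} (hz : ∀ x, a < |x| → f x = 0) :
    ∃ C, 0 ≤ C ∧ ∀ x, |f x| ≤ C := by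
  have hcs : HasCompactSupport f := by
    apply HasCompactSupport.of_support_subset_isCompact (isCompact_Icc (a := -a) (b := a))
    intro x hx
    rw [Function.mem_support] at hx
    rw [Set.mem_Icc, ← abs_le]
    by_contra h
    exact hx (hz x (not_le.1 h))
  obtain ⟨C, hC⟩ := hf.bounded_above_of_compact_support hcs
  refine ⟨|C|, abs_nonneg _, fun x => ?_⟩
  exact (hC x).trans (le_abs_self C)

/-- `x`-cutoff data -/
theorem exists_Kx : ∃ K : ℝ, 0 ≤ K ∧ ∀ x : ℝ, |x * chi x| ≤ K ∧ |chi x| ≤ K ∧ |deriv chi x| ≤ K ∧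
    |chi x + x * deriv chi x| ≤ K ∧ |x * chi x / x ^ 2| ≤ K ∧ |chi x / x ^ 2| ≤ K := by
  have hc : Continuous chi := chi_smooth.continuous
  have hc' : Continuous (deriv chi) := chi_smooth.continuous_deriv (by norm_num)
  have z0 : ∀ x : ℝ, 4 < |x| → chi x = 0 := by
    intro x hx
    rcases lt_abs.1 hx with h | h
    · exact chi_zero (Or.inr (by linarith))
    · exact chi_zero (Or.inl (by linarith))
  have z1 : ∀ x : ℝ, 4 < |x| → deriv chi x = 0 := by
    intro x hx
    rcases lt_abs.1 hx with h | h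
    · exact dchi_zero (Or.inr (by linarith))
    · exact dchi_zero (Or.inl (by linarith))
  obtain ⟨C1, h10, h1⟩ := bdd_of_cont (f := fun x => x * chi x) (a := 4) (by fun_prop)
    (fun x hx => by simp [z0 x hx])
  obtain ⟨C2, h20, h2⟩ := bdd_of_cont (f := deriv chi) (a := 4) hc' z1
  obtain ⟨C3, h30, h3⟩ := bdd_of_cont (f := fun x => chi x + x * deriv chi x) (a := 4) (by fun_prop)
    (fun x hx => by simp [z0 x hx, z1 x hx])
  have h4 : ∀ x : ℝ, |chi x / x ^ 2| ≤ 16 := by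
    intro x
    by_cases hx : x ≤ 1/4
    · rw [chi_zero (Or.inl hx)]; simp
    · push Not at hx
      rw [abs_of_nonneg (div_nonneg (chi_nonneg x) (by positivity)), div_le_iff₀ (by positivity)]
      nlinarith [chi_le_one x]
  have h5 : ∀ x : ℝ, |x * chi x / x ^ 2| ≤ 16 := by
    intro x
    by_cases hx : x ≤ 1/4
    · rw [chi_zero (Or.inl hx)]; simp
    · push Not at hx
      have hc0 := chi_nonneg x
      rw [abs_of_nonneg (div_nonneg (by positivity) (by positivity)), div_le_iff₀ (by positivity)]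
      nlinarith [chi_le_one x, mul_nonneg hc0 (by linarith : 0 ≤ x)]
  refine ⟨C1 + C2 + C3 + 16, by positivity, fun x => ⟨?_, ?_, ?_, ?_, ?_, ?_⟩⟩
  · linarith [h1 x]
  · rw [abs_of_nonneg (chi_nonneg x)]; linarith [chi_le_one x]
  · linarith [h2 x]
  · linarith [h3 x]
  · linarith [h5 x]
  · linarith [h4 x]

/-- `y`-cutoff data. -/
structure Cut (V V' : ℝ → ℝ) (C : ℝ) : Prop where
  hd : ∀ y, HasDerivAt V (V' y) y
  mV : Measurable V
  mV' : Measurable V'
  b0 : ∀ y, |V y| ≤ C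
  b1 : ∀ y, |V' y| ≤ C
  b2 : ∀ y, |y * V y| ≤ C
  b3 : ∀ y, |y * V' y| ≤ C
  z0 : ∀ y, 3 < |y| → V y = 0
  z1 : ∀ y, 3 < |y| → V' y = 0

theorem Cut.nonneg {V V' : ℝ → ℝ} {C : ℝ} (h : Cut V V' C) : 0 ≤ C := (abs_nonneg _).trans (h.b0 0)

theorem exists_Cut {V : ℝ → ℝ} (hV : ContDiff ℝ 2 V) (z0 : ∀ y, 3 < |y| → V y = 0) :
    ∃ C, Cut V (deriv V) C := by
  have hc : Continuous V := hV.continuous
  have hc' : Continuous (deriv V) := hV.continuous_deriv (by norm_num)
  have z1 : ∀ y, 3 < |y| → deriv V y = 0 := fun y hy => deriv_zero_of_locally open_abs z0 hy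
  obtain ⟨C1, h10, h1⟩ := bdd_of_cont (f := V) (a := 3) hc z0
  obtain ⟨C2, h20, h2⟩ := bdd_of_cont (f := deriv V) (a := 3) hc' z1
  obtain ⟨C3, h30, h3⟩ := bdd_of_cont (f := fun y => y * V y) (a := 3) (by fun_prop)
    (fun y hy => by simp [z0 y hy])
  obtain ⟨C4, h40, h4⟩ := bdd_of_cont (f := fun y => y * deriv V y) (a := 3) (by fun_prop)
    (fun y hy => by simp [z1 y hy])
  refine ⟨C1 + C2 + C3 + C4, fun y => ?_, hc.measurable, hc'.measurable, ?_, ?_, ?_, ?_, z0, z1⟩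
  · exact (hV.differentiable (by norm_num) y).hasDerivAt
  · intro y; linarith [h1 y]
  · intro y; linarith [h2 y]
  · intro y; linarith [h3 y]
  · intro y; linarith [h4 y]

/-- Cutoff constants for `W` and `W'`. -/
theorem exists_Ky : ∃ C : ℝ, Cut WW (deriv WW) C ∧ Cut (deriv WW) (deriv (deriv WW)) C := by
  obtain ⟨C1, h1⟩ := exists_Cut (V := WW) (WW_smooth.of_le (by norm_num)) (fun y hy => WW_zero hy.le)
  have hs : ContDiff ℝ 2 (deriv WW) := by
    have := WW_smooth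
    rw [show (3 : WithTop ℕ∞) = 2 + 1 by norm_num, contDiff_succ_iff_deriv] at this
    exact this.2.2
  obtain ⟨C2, h2⟩ := exists_Cut (V := deriv WW) hs (fun y hy => dWW_zero hy)
  refine ⟨C1 + C2, ?_, ?_⟩
  · have := h2.nonneg
    exact ⟨h1.hd, h1.mV, h1.mV', fun y => (h1.b0 y).trans (by linarith),
      fun y => (h1.b1 y).trans (by linarith), fun y => (h1.b2 y).trans (by linarith),
      fun y => (h1.b3 y).trans (by linarith), h1.z0, h1.z1⟩
  · have := h1.nonneg
    exact ⟨h2.hd, h2.mV, h2.mV', fun y => (h2.b0 y).trans (by linarith),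
      fun y => (h2.b1 y).trans (by linarith), fun y => (h2.b2 y).trans (by linarith),
      fun y => (h2.b3 y).trans (by linarith), h2.z0, h2.z1⟩

end Pool.Agent.H58
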