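import Mathlib
import Pool.Agent.Lib_helper58.Cut

set_option autoImplicit false

open MeasureTheory
open scoped ENNReal Topology

namespace Pool.Agent.H58

/-- `G = X(x) V(y) g_{1,0}`. -/
noncomputable def GG (b : ℝ) (w : ℝ × ℝ → ℝ) (V : ℝ → ℝ) (v : ℝ × ℝ) : ℝ :=
  v.1 * chi v.1 * V v.2 * gg b w 1 0 v

noncomputable def GGy (b : ℝ) (w : ℝ × ℝ → ℝ) (V V' : ℝ → ℝ) (v : ℝ × ℝ) : ℝ :=
  v.1 * chi v.1 * V' v.2 * gg b w 1 0 v + b⁻¹ * (chi v.1 * V v.2 * gg b w 2 1 v)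

noncomputable def GG1x (b : ℝ) (w : ℝ × ℝ → ℝ) (V V' : ℝ → ℝ) (v : ℝ × ℝ) : ℝ :=
  (chi v.1 + v.1 * deriv chi v.1) * (V v.2 + b * V' v.2) * gg b w 1 0 v
  - b⁻¹ * ((v.1 * chi v.1 / v.1 ^ 2) * (v.2 * V v.2 + b * (v.2 * V' v.2)) * gg b w 2 1 v)
  - b⁻¹ * (2 * (v.1 * chi v.1 / v.1 ^ 2) * (V v.2 + b * V' v.2) * gg b w 2 0 v)
  + deriv chi v.1 * V v.2 * gg b w 2 1 v
  - b⁻¹ * ((chi v.1 / v.1 ^ 2) * (v.2 * V v.2) * gg b w 3 2 v)
  - b⁻¹ * (2 * (chi v.1 / v.1 ^ 2) * V v.2 * gg b w 3 1 v)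

noncomputable def Psi (b : ℝ) (w : ℝ × ℝ → ℝ) (V V' : ℝ → ℝ) (v : ℝ × ℝ) : ℝ :=
  (GG b w V v + b * GGy b w V V' v) + b * GG1x b w V V' v

theorem deriv_dir_y {F : ℝ × ℝ → ℝ} {d : ℝ} {v : ℝ × ℝ}
    (h : HasDerivAt (fun z => F (v.1, z)) d v.2) :
    HasDerivAt (fun w : ℝ => F (v + w • (0, 1))) d 0 := by
  have h2 : HasDerivAt (fun w : ℝ => v.2 + w) 1 0 := by
    simpa using (hasDerivAt_id (0:ℝ)).const_add v.2
  have h3 : HasDerivAt (fun z => F (v.1, z)) d (v.2 + 0) := by simpa using h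
  have h4 := h3.comp 0 h2
  rw [mul_one] at h4
  refine h4.congr_of_eventuallyEq (Filter.Eventually.of_forall fun w => ?_)
  show F (v + w • ((0:ℝ), (1:ℝ))) = F (v.1, v.2 + w)
  congr 1
  ext <;> simp

theorem deriv_dir_x {F : ℝ × ℝ → ℝ} {d : ℝ} {v : ℝ × ℝ}
    (h : HasDerivAt (fun z => F (z, v.2)) d v.1) :
    HasDerivAt (fun w : ℝ => F (v + w • (1, 0))) d 0 := by
  have h2 : HasDerivAt (fun w : ℝ => v.1 + w) 1 0 := by
    simpa using (hasDerivAt_id (0:ℝ)).const_add v.1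
  have h3 : HasDerivAt (fun z => F (z, v.2)) d (v.1 + 0) := by simpa using h
  have h4 := h3.comp 0 h2
  rw [mul_one] at h4
  refine h4.congr_of_eventuallyEq (Filter.Eventually.of_forall fun w => ?_)
  show F (v + w • ((1:ℝ), (0:ℝ))) = F (v.1 + w, v.2)
  congr 1
  ext <;> simp

theorem chi_meas : Measurable chi := chi_smooth.continuous.measurable
theorem dchi_meas : Measurable (deriv chi) := measurable_deriv chi

theorem GG_dy {b : ℝ} (hb : 0 < b) {w : ℝ × ℝ → ℝ} {H : ℝ} (hw : Loc w H) {V V' : ℝ → ℝ} {C : ℝ}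
    (hV : Cut V V' C) (v : ℝ × ℝ) :
    HasDerivAt (fun z : ℝ => GG b w V (v + z • (0, 1))) (GGy b w V V' v) 0 := by
  apply deriv_dir_y
  unfold GG GGy
  simp only
  by_cases hx : v.1 = 0
  · have hz : chi v.1 = 0 := chi_zero (Or.inl (by rw [hx]; norm_num))
    simp only [hz, mul_zero, zero_mul, add_zero]
    exact hasDerivAt_const _ _
  · have h1 := gg_dy hb hw (Or.inl rfl : (1:ℕ) = 1 ∨ (1:ℕ) = 2) 0 v.1 v.2
    have h2 := hV.hd v.2
    have h3 := ((h2.const_mul (v.1 * chi v.1)).mul h1)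
    refine h3.congr_deriv ?_
    simp only [Prod.mk.eta]
    field_simp

theorem GG_dx {b : ℝ} (hb : 0 < b) {w : ℝ × ℝ → ℝ} {H : ℝ} (hw : Loc w H) {V V' : ℝ → ℝ}
    (v : ℝ × ℝ) :
    HasDerivAt (fun z : ℝ => GG b w V (v + z • (1, 0)) + b * GGy b w V V' (v + z • (1, 0)))
      (GG1x b w V V' v) 0 := by
  apply deriv_dir_x (F := fun v => GG b w V v + b * GGy b w V V' v)
  by_cases hx : v.1 < 1/4
  · have hz : chi v.1 = 0 := chi_zero (Or.inl hx.le)
    have hz' : deriv chi v.1 = 0 := dchi_zero (Or.inl hx)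
    have e : GG1x b w V V' v = 0 := by
      unfold GG1x; simp [hz, hz']
    rw [e]
    have : (fun z : ℝ => GG b w V (z, v.2) + b * GGy b w V V' (z, v.2)) =ᶠ[𝓝 v.1] fun _ => 0 := by
      filter_upwards [Iio_mem_nhds hx] with z hz
      have hz : chi z = 0 := chi_zero (Or.inl (le_of_lt hz))
      simp [GG, GGy, hz]
    exact (hasDerivAt_const v.1 (0:ℝ)).congr_of_eventuallyEq this
  · push Not at hx
    have hx0 : v.1 ≠ 0 := by linarith
    have g1 := gg_dx hb hw (Or.inl rfl : (1:ℕ) = 1 ∨ (1:ℕ) = 2) 0 hx0 v.2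
    have g2 := gg_dx hb hw (Or.inr rfl : (2:ℕ) = 1 ∨ (2:ℕ) = 2) 1 hx0 v.2
    have c0 : HasDerivAt chi (deriv chi v.1) v.1 :=
      (chi_smooth.differentiable (by norm_num) v.1).hasDerivAt
    have c1 : HasDerivAt (fun z => z * chi z) (1 * chi v.1 + v.1 * deriv chi v.1) v.1 :=
      (hasDerivAt_id v.1).mul c0
    have t1 := (c1.mul_const (V v.2 + b * V' v.2)).mul g1
    have t2 := (c0.mul_const (V v.2)).mul g2
    have t := t1.add t2
    have e : (fun z : ℝ => GG b w V (z, v.2) + b * GGy b w V V' (z, v.2))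
        = (((fun z => z * chi z * (V v.2 + b * V' v.2)) * fun z => gg b w 1 0 (z, v.2)) +
            (fun y => chi y * V v.2) * fun z => gg b w 2 1 (z, v.2)) := by
      ext z
      simp only [GG, GGy, Pi.add_apply, Pi.mul_apply]
      field_simp
      ring
    rw [e]
    refine t.congr_deriv ?_
    unfold GG1x
    simp only [Prod.mk.eta]
    field_simp
    ring

theorem GG_meas (b : ℝ) {w : ℝ × ℝ → ℝ} (hm : Measurable w) {V V' : ℝ → ℝ} {C : ℝ}
    (hV : Cut V V' C) : Measurable (GG b w V) ∧ Measurable (GGy b w V V') ∧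
      Measurable (GG1x b w V V') ∧ Measurable (Psi b w V V') := by
  have h1 := hV.mV
  have h2 := hV.mV'
  have h3 := chi_meas
  have h4 := dchi_meas
  have h5 := gg_meas b hm 1 0
  have h6 := gg_meas b hm 2 0
  have h7 := gg_meas b hm 2 1
  have h8 := gg_meas b hm 3 1
  have h9 := gg_meas b hm 3 2
  have m1 : Measurable (GG b w V) := by unfold GG; fun_prop
  have m2 : Measurable (GGy b w V V') := by unfold GGy; fun_prop
  have m3 : Measurable (GG1x b w V V') := by unfold GG1x; fun_prop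
  refine ⟨m1, m2, m3, ?_⟩
  unfold Psi; fun_prop

/-- sum of absolute values of the five `g`'s -/
noncomputable def SG (b : ℝ) (w : ℝ × ℝ → ℝ) (v : ℝ × ℝ) : ℝ :=
  |gg b w 1 0 v| + |gg b w 2 0 v| + |gg b w 2 1 v| + |gg b w 3 1 v| + |gg b w 3 2 v|

theorem abs_mul3 {a c g K L : ℝ} (ha : |a| ≤ K) (hc : |c| ≤ L) : |a * c * g| ≤ K * L * |g| := by
  rw [abs_mul, abs_mul]
  have := abs_nonneg g
  have h1 : |a| * |c| ≤ K * L := mul_le_mul ha hc (abs_nonneg _) ((abs_nonneg _).trans ha)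
  exact mul_le_mul_of_nonneg_right h1 this

theorem GG_bounds {b : ℝ} (hb : 0 < b) (hb1 : b ≤ 1) (w : ℝ × ℝ → ℝ)
    {V V' : ℝ → ℝ} {C : ℝ} (hV : Cut V V' C) {K : ℝ}
    (hK : ∀ x : ℝ, |x * chi x| ≤ K ∧ |chi x| ≤ K ∧ |deriv chi x| ≤ K ∧
      |chi x + x * deriv chi x| ≤ K ∧ |x * chi x / x ^ 2| ≤ K ∧ |chi x / x ^ 2| ≤ K) (v : ℝ × ℝ) :
    |GG b w V v| ≤ K * C * SG b w v ∧ |b * GGy b w V V' v| ≤ 2 * K * C * SG b w v ∧
    |b * GG1x b w V V' v| ≤ 12 * K * C * SG b w v ∧ |Psi b w V V' v| ≤ 15 * K * C * SG b w v := by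
  obtain ⟨k1, k2, k3, k4, k5, k6⟩ := hK v.1
  have c0 := hV.b0 v.2
  have c1 := hV.b1 v.2
  have c2 := hV.b2 v.2
  have c3 := hV.b3 v.2
  have hKK : 0 ≤ K := (abs_nonneg _).trans k1
  have hCC : 0 ≤ C := (abs_nonneg _).trans c0
  have hKC : 0 ≤ K * C := by positivity
  have n1 := abs_nonneg (gg b w 1 0 v)
  have n2 := abs_nonneg (gg b w 2 0 v)
  have n3 := abs_nonneg (gg b w 2 1 v)
  have n4 := abs_nonneg (gg b w 3 1 v)
  have n5 := abs_nonneg (gg b w 3 2 v)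
  have hbV : ∀ a a' : ℝ, |a| ≤ C → |a'| ≤ C → |a + b * a'| ≤ 2 * C := by
    intro a a' h h'
    refine (abs_add_le _ _).trans ?_
    rw [abs_mul, abs_of_pos hb]
    nlinarith [abs_nonneg a']
  have e1 : |GG b w V v| ≤ K * C * SG b w v := by
    unfold GG SG
    refine (abs_mul3 k1 c0).trans ?_
    apply mul_le_mul_of_nonneg_left _ hKC
    linarith
  have e2 : |b * GGy b w V V' v| ≤ 2 * K * C * SG b w v := by
    have e : b * GGy b w V V' v = (b * (v.1 * chi v.1 * V' v.2 * gg b w 1 0 v))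
        + chi v.1 * V v.2 * gg b w 2 1 v := by
      unfold GGy; field_simp
    rw [e]
    refine (abs_add_le _ _).trans ?_
    have h1 : |b * (v.1 * chi v.1 * V' v.2 * gg b w 1 0 v)| ≤ K * C * |gg b w 1 0 v| := by
      rw [abs_mul, abs_of_pos hb]
      have := abs_mul3 (g := gg b w 1 0 v) k1 c1
      nlinarith [abs_nonneg (v.1 * chi v.1 * V' v.2 * gg b w 1 0 v)]
    have h2 := abs_mul3 (g := gg b w 2 1 v) k2 c0
    have h3 : K * C * |gg b w 1 0 v| ≤ K * C * SG b w v := by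
      apply mul_le_mul_of_nonneg_left _ hKC
      unfold SG; linarith
    have h4 : K * C * |gg b w 2 1 v| ≤ K * C * SG b w v := by
      apply mul_le_mul_of_nonneg_left _ hKC
      unfold SG; linarith
    linarith
  have e3 : |b * GG1x b w V V' v| ≤ 12 * K * C * SG b w v := by
    have e : b * GG1x b w V V' v =
      b * ((chi v.1 + v.1 * deriv chi v.1) * (V v.2 + b * V' v.2) * gg b w 1 0 v)
      + (-((v.1 * chi v.1 / v.1 ^ 2) * (v.2 * V v.2 + b * (v.2 * V' v.2)) * gg b w 2 1 v))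
      + (-(2 * ((v.1 * chi v.1 / v.1 ^ 2) * (V v.2 + b * V' v.2) * gg b w 2 0 v)))
      + b * (deriv chi v.1 * V v.2 * gg b w 2 1 v)
      + (-((chi v.1 / v.1 ^ 2) * (v.2 * V v.2) * gg b w 3 2 v))
      + (-(2 * ((chi v.1 / v.1 ^ 2) * V v.2 * gg b w 3 1 v))) := by
      unfold GG1x
      have : b * b⁻¹ = 1 := mul_inv_cancel₀ hb.ne'
      linear_combination (-((v.1 * chi v.1 / v.1 ^ 2) * (v.2 * V v.2 + b * (v.2 * V' v.2)) * gg b w 2 1 v)
        - (2 * ((v.1 * chi v.1 / v.1 ^ 2) * (V v.2 + b * V' v.2) * gg b w 2 0 v))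
        - ((chi v.1 / v.1 ^ 2) * (v.2 * V v.2) * gg b w 3 2 v)
        - (2 * ((chi v.1 / v.1 ^ 2) * V v.2 * gg b w 3 1 v))) * this
    rw [e]
    have hb' : ∀ z B : ℝ, |z| ≤ B → |b * z| ≤ B := by
      intro z B h
      rw [abs_mul, abs_of_pos hb]
      nlinarith [abs_nonneg z]
    have h2' : ∀ z B : ℝ, |z| ≤ B → |-(2 * z)| ≤ 2 * B := by
      intro z B h
      rw [abs_neg, abs_mul]
      norm_num
      linarith
    have a1 := hb' _ _ (abs_mul3 (g := gg b w 1 0 v) k4 (hbV _ _ c0 c1))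
    have a2 := abs_mul3 (g := gg b w 2 1 v) k5 (hbV _ _ c2 c3)
    rw [← abs_neg] at a2
    have a3 := h2' _ _ (abs_mul3 (g := gg b w 2 0 v) k5 (hbV _ _ c0 c1))
    have a4 := hb' _ _ (abs_mul3 (g := gg b w 2 1 v) k3 c0)
    have a5 := abs_mul3 (g := gg b w 3 2 v) k6 c2
    rw [← abs_neg] at a5
    have a6 := h2' _ _ (abs_mul3 (g := gg b w 3 1 v) k6 c0)
    have m1 : K * C * |gg b w 1 0 v| ≥ 0 := by positivity
    have m2 : K * C * |gg b w 2 0 v| ≥ 0 := by positivity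
    have m3 : K * C * |gg b w 2 1 v| ≥ 0 := by positivity
    have m4 : K * C * |gg b w 3 1 v| ≥ 0 := by positivity
    have m5 : K * C * |gg b w 3 2 v| ≥ 0 := by positivity
    refine (abs_add_le _ _).trans ?_
    refine (add_le_add_left ((abs_add_le _ _).trans (add_le_add_left ((abs_add_le _ _).trans
      (add_le_add_left ((abs_add_le _ _).trans (add_le_add_left (abs_add_le _ _) _)) _)) _)) _).trans ?_
    unfold SG
    nlinarith [a1, a2, a3, a4, a5, a6, m1, m2, m3, m4, m5]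
  refine ⟨e1, e2, e3, ?_⟩
  unfold Psi
  refine (abs_add_le _ _).trans ?_
  have := abs_add_le (GG b w V v) (b * GGy b w V V' v)
  linarith

theorem Psi_zero (b : ℝ) (w : ℝ × ℝ → ℝ) {V V' : ℝ → ℝ} {C : ℝ} (hV : Cut V V' C) {v : ℝ × ℝ}
    (hv : v.1 < 1/4 ∨ 13/4 < v.1 ∨ 3 < |v.2|) : Psi b w V V' v = 0 := by
  have hcase : (chi v.1 = 0 ∧ deriv chi v.1 = 0) ∨ (V v.2 = 0 ∧ V' v.2 = 0) := by
    rcases hv with h | h | h
    · exact Or.inl ⟨chi_zero (Or.inl h.le), dchi_zero (Or.inl h)⟩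
    · exact Or.inl ⟨chi_zero (Or.inr h.le), dchi_zero (Or.inr h)⟩
    · exact Or.inr ⟨hV.z0 _ h, hV.z1 _ h⟩
  unfold Psi GG GGy GG1x
  rcases hcase with ⟨h1, h2⟩ | ⟨h1, h2⟩ <;> simp [h1, h2]

theorem SG_bdd {b : ℝ} (hb : 0 < b) {w : ℝ × ℝ → ℝ} {H : ℝ} (hw : Loc w H) :
    ∃ B, ∀ v, SG b w v ≤ B := by
  refine ⟨b⁻¹ * 10 * 3 ^ 0 * (∫ v, w v) + b⁻¹ * 10 * 3 ^ 0 * (∫ v, w v)
    + b⁻¹ * 10 * 3 ^ 1 * (∫ v, w v) + b⁻¹ * 10 * 3 ^ 1 * (∫ v, w v) + b⁻¹ * 10 * 3 ^ 2 * (∫ v, w v), ?_⟩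
  intro v
  unfold SG gg
  gcongr <;> exact HH_bdd hb hw _ _ _

/-- Main identity at scale `b`. -/
theorem J_eq {b : ℝ} (hb : 0 < b) (hb1 : b ≤ 1) {w : ℝ × ℝ → ℝ} {H : ℝ} (hw : Loc w H) :
    ∫ v : ℝ × ℝ, w v * (chi v.1 * WW v.2 * gg b w 2 1 v)
      = (∫ v, PE b (1, 0) (fun v => w v - PE b (0, 1) w v) v * Psi b w WW (deriv WW) v)
        - b * ∫ v, PE b (1, 0) (PE b (0, 1) w) v * Psi b w (deriv WW) (deriv (deriv WW)) v := by
  obtain ⟨C, h1, h2⟩ := exists_Ky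
  obtain ⟨K, hK0, hK⟩ := exists_Kx
  obtain ⟨B, hB⟩ := SG_bdd hb hw
  have hC0 := h1.nonneg
  have hB0 : 0 ≤ B := by
    refine le_trans ?_ (hB 0)
    unfold SG; positivity
  have hKC : 0 ≤ K * C := by positivity
  set D := 12 * K * C * B * b⁻¹ + 12 * K * C * B with hD
  have hD0 : 0 ≤ K * C * B := by positivity
  have hDi : 0 ≤ K * C * B * b⁻¹ := by positivity
  have key : ∀ {V V' : ℝ → ℝ}, Cut V V' C → (∀ v, |GG b w V v| ≤ D) ∧ (∀ v, |GGy b w V V' v| ≤ D) ∧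
      (∀ v, |GG1x b w V V' v| ≤ D) := by
    intro V V' hV
    have hbound : ∀ v z c, |b * z| ≤ c * K * C * SG b w v → 0 ≤ c → c ≤ 12 → |z| ≤ D := by
      intro v z c hz hc0 hc
      have h3 : |z| = b⁻¹ * |b * z| := by
        rw [abs_mul, abs_of_pos hb, ← mul_assoc, inv_mul_cancel₀ hb.ne', one_mul]
      have h4 : c * K * C * SG b w v ≤ 12 * (K * C * B) := by
        have : K * C * SG b w v ≤ K * C * B := mul_le_mul_of_nonneg_left (hB v) hKC
        calc c * K * C * SG b w v = c * (K * C * SG b w v) := by ring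
          _ ≤ c * (K * C * B) := mul_le_mul_of_nonneg_left this hc0
          _ ≤ 12 * (K * C * B) := mul_le_mul_of_nonneg_right hc hD0
      rw [h3, hD]
      have h5 : b⁻¹ * |b * z| ≤ b⁻¹ * (12 * (K * C * B)) :=
        mul_le_mul_of_nonneg_left (hz.trans h4) (by positivity)
      nlinarith
    refine ⟨fun v => ?_, fun v => ?_, fun v => ?_⟩
    · have h3 := (GG_bounds hb hb1 w hV hK v).1
      have : K * C * SG b w v ≤ K * C * B := mul_le_mul_of_nonneg_left (hB v) hKC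
      rw [hD]; nlinarith
    · exact hbound v _ 2 (GG_bounds hb hb1 w hV hK v).2.1 (by norm_num) (by norm_num)
    · exact hbound v _ 12 (GG_bounds hb hb1 w hV hK v).2.2.1 (by norm_num) (by norm_num)
  obtain ⟨m1, m2, m3, m4⟩ := GG_meas b hw.meas h1
  obtain ⟨n1, n2, n3, n4⟩ := GG_meas b hw.meas h2
  obtain ⟨q1, q2, q3⟩ := key h1
  obtain ⟨r1, r2, r3⟩ := key h2
  have d1 := (double_dual hb hw.good m1 m2 m3 q1 q2 q3 (GG_dy hb hw h1) (GG_dx hb hw)).2
  have d2 := (double_dual hb hw.good n1 n2 n3 r1 r2 r3 (GG_dy hb hw h2) (GG_dx hb hw)).1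
  have e : ∫ v : ℝ × ℝ, w v * (chi v.1 * WW v.2 * gg b w 2 1 v)
      = (∫ v, w v * (b * GGy b w WW (deriv WW) v)) - b * ∫ v, w v * GG b w (deriv WW) v := by
    rw [← integral_const_mul, ← integral_sub]
    · apply integral_congr_ae
      filter_upwards with v
      unfold GGy GG
      field_simp
      ring
    · exact hw.integrable.mul_bdd (c := b * D) (by
        exact (by fun_prop : Measurable fun v => b * GGy b w WW (deriv WW) v).aestronglyMeasurable)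
        (Filter.Eventually.of_forall fun v => by
          rw [Real.norm_eq_abs, abs_mul, abs_of_pos hb]
          exact mul_le_mul_of_nonneg_left (q2 v) hb.le)
    · exact (hw.integrable.mul_bdd (c := D) n1.aestronglyMeasurable
        (Filter.Eventually.of_forall fun v => r1 v)).const_mul b
  rw [e, d1, d2]
  rfl

end Pool.Agent.H58
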