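import Mathlib
import Pool.Agent.Lib_helper58.Psi

set_option autoImplicit false

open MeasureTheory
open scoped ENNReal Topology

namespace Pool.Agent.H58

/-- Young's inequality in `ℝ≥0∞`. -/
theorem young (a b θ : ℝ≥0∞) (h0 : θ ≠ 0) (ht : θ ≠ ⊤) : a * b ≤ θ * a ^ 2 + θ⁻¹ * b ^ 2 := by
  by_cases h : b ≤ θ * a
  · calc a * b ≤ a * (θ * a) := by gcongr
      _ = θ * a ^ 2 := by ring
      _ ≤ _ := le_self_add
  · push Not at h
    have h1 : a ≤ θ⁻¹ * b := by
      calc a = θ⁻¹ * (θ * a) := by rw [← mul_assoc, ENNReal.inv_mul_cancel h0 ht, one_mul]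
        _ ≤ θ⁻¹ * b := by gcongr
    calc a * b ≤ (θ⁻¹ * b) * b := by gcongr
      _ = θ⁻¹ * b ^ 2 := by ring
      _ ≤ _ := le_add_self

/-- source region -/
def RR0 : Set (ℝ × ℝ) := Set.Icc (1/4) (13/4) ×ˢ Set.Icc (-3) 3
/-- target region -/
def SS0 : Set (ℝ × ℝ) := Set.Icc (-12) 12 ×ˢ Set.Icc (-12) 12

theorem RR0_meas : MeasurableSet RR0 := measurableSet_Icc.prod measurableSet_Icc
theorem SS0_meas : MeasurableSet SS0 := measurableSet_Icc.prod measurableSet_Icc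

theorem cov1 {F : ℝ → ℝ≥0∞} (hF : Measurable F) {x : ℝ} (hx : x ∈ Set.Icc (1/4:ℝ) (13/4)) :
    ∫⁻ y in Set.Icc (-3:ℝ) 3, F (y / x) ≤ ENNReal.ofReal (13/4) * ∫⁻ σ in Set.Icc (-12:ℝ) 12, F σ := by
  have hx0 : 0 < x := by linarith [hx.1]
  have hG : Measurable ((Set.Icc (-12:ℝ) 12).indicator F) := hF.indicator measurableSet_Icc
  calc ∫⁻ y in Set.Icc (-3:ℝ) 3, F (y / x)
      ≤ ∫⁻ y, (Set.Icc (-12:ℝ) 12).indicator F (y / x) := by
        rw [← lintegral_indicator measurableSet_Icc]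
        apply lintegral_mono
        intro y
        simp only
        by_cases hy : y ∈ Set.Icc (-3:ℝ) 3
        · have hy' : y / x ∈ Set.Icc (-12:ℝ) 12 := by
            have h1 : 1/4 ≤ x := hx.1
            rw [Set.mem_Icc] at hy ⊢
            rw [le_div_iff₀ hx0, div_le_iff₀ hx0]
            constructor <;> linarith
          rw [Set.indicator_of_mem hy, Set.indicator_of_mem hy']
        · rw [Set.indicator_of_notMem hy]
          exact zero_le
    _ = ENNReal.ofReal x * ∫⁻ σ, (Set.Icc (-12:ℝ) 12).indicator F σ := lintegral_comp_div hG hx0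
    _ ≤ _ := by
        rw [lintegral_indicator measurableSet_Icc]
        gcongr
        exact hx.2

theorem cov2 {P : ℝ → ℝ≥0∞} :
    ∫⁻ x in Set.Icc (1/4:ℝ) (13/4), P (2 / x) ≤ 6 * ∫⁻ τ in Set.Icc (-12:ℝ) 12, P τ := by
  have hd : ∀ x ∈ Set.Icc (1/4:ℝ) (13/4), HasDerivWithinAt (fun x : ℝ => 2 / x) (-(2 / x ^ 2))
      (Set.Icc (1/4:ℝ) (13/4)) x := by
    intro x hx
    have hx0 : x ≠ 0 := by linarith [hx.1]
    have := ((hasDerivAt_inv hx0).const_mul 2)
    simp only [div_eq_mul_inv]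
    refine (this.congr_deriv ?_).hasDerivWithinAt
    ring
  have hinj : Set.InjOn (fun x : ℝ => 2 / x) (Set.Icc (1/4:ℝ) (13/4)) := by
    intro x hx y hy hxy
    have hx0 : x ≠ 0 := by linarith [hx.1]
    have hy0 : y ≠ 0 := by linarith [hy.1]
    simp only at hxy
    field_simp at hxy
    linarith
  have key := lintegral_image_eq_lintegral_abs_deriv_mul measurableSet_Icc hd hinj P
  calc ∫⁻ x in Set.Icc (1/4:ℝ) (13/4), P (2 / x)
      ≤ ∫⁻ x in Set.Icc (1/4:ℝ) (13/4), 6 * (ENNReal.ofReal |-(2 / x ^ 2)| * P (2 / x)) := by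
        apply setLIntegral_mono' measurableSet_Icc
        intro x hx
        have hx0 : 0 < x := by linarith [hx.1]
        rw [← mul_assoc]
        have h1 : (1:ℝ≥0∞) ≤ 6 * ENNReal.ofReal |-(2 / x ^ 2)| := by
          rw [abs_neg, abs_of_pos (by positivity)]
          have : (6:ℝ≥0∞) = ENNReal.ofReal 6 := by norm_num
          rw [this, ← ENNReal.ofReal_mul (by norm_num), ← ENNReal.ofReal_one]
          apply ENNReal.ofReal_le_ofReal
          rw [← mul_div_assoc, le_div_iff₀ (by positivity)]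
          nlinarith [hx.1, hx.2]
        calc P (2 / x) = 1 * P (2 / x) := by rw [one_mul]
          _ ≤ _ := by gcongr
    _ = 6 * ∫⁻ x in Set.Icc (1/4:ℝ) (13/4), (ENNReal.ofReal |-(2 / x ^ 2)| * P (2 / x)) := by
        rw [lintegral_const_mul']
        norm_num
    _ = 6 * ∫⁻ τ in (fun x : ℝ => 2 / x) '' Set.Icc (1/4:ℝ) (13/4), P τ := by rw [key]
    _ ≤ 6 * ∫⁻ τ in Set.Icc (-12:ℝ) 12, P τ := by
        have hsub : (fun x : ℝ => 2 / x) '' Set.Icc (1/4:ℝ) (13/4) ⊆ Set.Icc (-12:ℝ) 12 := by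
          rintro τ ⟨x, hx, rfl⟩
          have hx0 : 0 < x := by linarith [hx.1]
          have h1 := hx.1
          simp only
          rw [Set.mem_Icc, le_div_iff₀ hx0, div_le_iff₀ hx0]
          constructor <;> linarith
        gcongr

/-- Change of variables `(x,y) ↦ (y/x, 2/x)`. -/
theorem cov {F : ℝ × ℝ → ℝ≥0∞} (hF : Measurable F) :
    ∫⁻ v in RR0, F (v.2 / v.1, 2 / v.1) ≤ 20 * ∫⁻ p in SS0, F p := by
  set P : ℝ → ℝ≥0∞ := fun τ => ∫⁻ σ in Set.Icc (-12:ℝ) 12, F (σ, τ) with hP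
  have hPm : Measurable P := by
    have : Measurable (fun p : ℝ × ℝ => F (p.2, p.1)) := by fun_prop
    exact this.lintegral_prod_right'
  have e1 : ∫⁻ v in RR0, F (v.2 / v.1, 2 / v.1)
      = ∫⁻ x in Set.Icc (1/4:ℝ) (13/4), ∫⁻ y in Set.Icc (-3:ℝ) 3, F (y / x, 2 / x) := by
    rw [RR0, Measure.volume_eq_prod, ← Measure.prod_restrict, lintegral_prod]
    apply Measurable.aemeasurable
    fun_prop
  have e2 : ∫⁻ p in SS0, F p = ∫⁻ τ in Set.Icc (-12:ℝ) 12, P τ := by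
    rw [SS0, Measure.volume_eq_prod, ← Measure.prod_restrict, lintegral_prod_symm]
    exact hF.aemeasurable
  rw [e1, e2]
  calc ∫⁻ x in Set.Icc (1/4:ℝ) (13/4), ∫⁻ y in Set.Icc (-3:ℝ) 3, F (y / x, 2 / x)
      ≤ ∫⁻ x in Set.Icc (1/4:ℝ) (13/4), ENNReal.ofReal (13/4) * P (2 / x) := by
        apply setLIntegral_mono' measurableSet_Icc
        intro x hx
        exact cov1 (F := fun σ => F (σ, 2 / x)) (by fun_prop) hx
    _ = ENNReal.ofReal (13/4) * ∫⁻ x in Set.Icc (1/4:ℝ) (13/4), P (2 / x) := by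
        rw [lintegral_const_mul]
        fun_prop
    _ ≤ ENNReal.ofReal (13/4) * (6 * ∫⁻ τ in Set.Icc (-12:ℝ) 12, P τ) := by
        gcongr
        exact cov2
    _ ≤ 20 * ∫⁻ τ in Set.Icc (-12:ℝ) 12, P τ := by
        rw [← mul_assoc]
        gcongr
        have : (6:ℝ≥0∞) = ENNReal.ofReal 6 := by norm_num
        rw [this, ← ENNReal.ofReal_mul (by norm_num)]
        have : (20:ℝ≥0∞) = ENNReal.ofReal 20 := by norm_num
        rw [this]
        apply ENNReal.ofReal_le_ofReal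
        norm_num

end Pool.Agent.H58
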