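import Mathlib
import Pool.Agent.Lib_helper58.Local1

set_option autoImplicit false

open MeasureTheory
open scoped ENNReal Topology

namespace Pool.Agent.H58

noncomputable def S2 (b : ℝ) (w : ℝ × ℝ → ℝ) (p : ℝ × ℝ) : ℝ≥0∞ :=
  ‖HH b w 1 0 p‖ₑ ^ 2 + ‖HH b w 2 0 p‖ₑ ^ 2 + ‖HH b w 2 1 p‖ₑ ^ 2 + ‖HH b w 3 1 p‖ₑ ^ 2
    + ‖HH b w 3 2 p‖ₑ ^ 2

noncomputable def E2 (b : ℝ) (w : ℝ × ℝ → ℝ) : ℝ≥0∞ := ∫⁻ p in SS0, S2 b w p

def T3 : Set (ℝ × ℝ) := {v | |v.2| ≤ 3}
theorem T3_meas : MeasurableSet T3 := measurableSet_le (by fun_prop) measurable_const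

noncomputable def E1 (b : ℝ) (w : ℝ × ℝ → ℝ) : ℝ≥0∞ :=
  ∫⁻ v in T3, ‖PE b (1, 0) (fun v => w v - PE b (0, 1) w v) v‖ₑ ^ 2

noncomputable def aStar (w : ℝ × ℝ → ℝ) : ℝ≥0∞ :=
  ∫⁻ v, ENNReal.ofReal (Real.exp (-(|v.2| / 2))) * ENNReal.ofReal (w v)

theorem S2_meas (b : ℝ) {w : ℝ × ℝ → ℝ} (hm : Measurable w) : Measurable (S2 b w) := by
  have h1 := HH_meas b hm 1 0
  have h2 := HH_meas b hm 2 0
  have h3 := HH_meas b hm 2 1
  have h4 := HH_meas b hm 3 1
  have h5 := HH_meas b hm 3 2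
  unfold S2
  fun_prop

theorem enorm_sq_eq (x : ℝ) : ‖x‖ₑ ^ 2 = ENNReal.ofReal (x ^ 2) := by
  rw [← ofReal_norm, ← ENNReal.ofReal_pow (norm_nonneg _), Real.norm_eq_abs, sq_abs]

theorem Psi_l2 {b : ℝ} (hb : 0 < b) (hb1 : b ≤ 1) {w : ℝ × ℝ → ℝ} (hm : Measurable w)
    {V V' : ℝ → ℝ} {C : ℝ} (hV : Cut V V' C) {K : ℝ}
    (hK : ∀ x : ℝ, |x * chi x| ≤ K ∧ |chi x| ≤ K ∧ |deriv chi x| ≤ K ∧
      |chi x + x * deriv chi x| ≤ K ∧ |x * chi x / x ^ 2| ≤ K ∧ |chi x / x ^ 2| ≤ K) :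
    ∫⁻ v, ‖Psi b w V V' v‖ₑ ^ 2 ≤ ENNReal.ofReal ((15 * K * C) ^ 2 * 5) * (20 * E2 b w) := by
  have h1 : ∀ v, ‖Psi b w V V' v‖ₑ ^ 2 ≤ RR0.indicator
      (fun v => ENNReal.ofReal ((15 * K * C) ^ 2 * 5) * S2 b w (v.2 / v.1, 2 / v.1)) v := by
    intro v
    by_cases hv : v ∈ RR0
    · rw [Set.indicator_of_mem hv, enorm_sq_eq]
      have hP := (GG_bounds hb hb1 w hV hK v).2.2.2
      have e : S2 b w (v.2 / v.1, 2 / v.1) = ENNReal.ofReal ((gg b w 1 0 v) ^ 2 + (gg b w 2 0 v) ^ 2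
          + (gg b w 2 1 v) ^ 2 + (gg b w 3 1 v) ^ 2 + (gg b w 3 2 v) ^ 2) := by
        unfold S2
        rw [ENNReal.ofReal_add (by positivity) (by positivity), ENNReal.ofReal_add (by positivity) (by positivity),
          ENNReal.ofReal_add (by positivity) (by positivity), ENNReal.ofReal_add (by positivity) (by positivity)]
        simp only [enorm_sq_eq, gg]
      rw [e, ← ENNReal.ofReal_mul (by positivity)]
      apply ENNReal.ofReal_le_ofReal
      rw [← sq_abs]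
      have hsg : (SG b w v) ^ 2 ≤ 5 * ((gg b w 1 0 v) ^ 2 + (gg b w 2 0 v) ^ 2
          + (gg b w 2 1 v) ^ 2 + (gg b w 3 1 v) ^ 2 + (gg b w 3 2 v) ^ 2) := by
        unfold SG
        rw [← sq_abs (gg b w 1 0 v), ← sq_abs (gg b w 2 0 v), ← sq_abs (gg b w 2 1 v),
          ← sq_abs (gg b w 3 1 v), ← sq_abs (gg b w 3 2 v)]
        generalize |gg b w 1 0 v| = a1
        generalize |gg b w 2 0 v| = a2
        generalize |gg b w 2 1 v| = a3
        generalize |gg b w 3 1 v| = a4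
        generalize |gg b w 3 2 v| = a5
        nlinarith [sq_nonneg (a1 - a2), sq_nonneg (a1 - a3), sq_nonneg (a1 - a4), sq_nonneg (a1 - a5),
          sq_nonneg (a2 - a3), sq_nonneg (a2 - a4), sq_nonneg (a2 - a5), sq_nonneg (a3 - a4),
          sq_nonneg (a3 - a5), sq_nonneg (a4 - a5)]
      calc |Psi b w V V' v| ^ 2 ≤ (15 * K * C * SG b w v) ^ 2 :=
            pow_le_pow_left₀ (abs_nonneg _) hP 2
        _ = (15 * K * C) ^ 2 * (SG b w v) ^ 2 := by ring
        _ ≤ (15 * K * C) ^ 2 * (5 * ((gg b w 1 0 v) ^ 2 + (gg b w 2 0 v) ^ 2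
          + (gg b w 2 1 v) ^ 2 + (gg b w 3 1 v) ^ 2 + (gg b w 3 2 v) ^ 2)) := by gcongr
        _ = _ := by ring
    · rw [Set.indicator_of_notMem hv, Psi_zero b w hV]
      · simp
      · by_contra h
        push Not at h
        apply hv
        rw [RR0, Set.mem_prod, Set.mem_Icc, Set.mem_Icc, ← abs_le]
        exact ⟨⟨h.1, h.2.1⟩, h.2.2⟩
  have hS := S2_meas b hm
  calc ∫⁻ v, ‖Psi b w V V' v‖ₑ ^ 2
      ≤ ∫⁻ v, RR0.indicator (fun v => ENNReal.ofReal ((15 * K * C) ^ 2 * 5) * S2 b w (v.2 / v.1, 2 / v.1)) v :=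
        lintegral_mono h1
    _ = ENNReal.ofReal ((15 * K * C) ^ 2 * 5) * ∫⁻ v in RR0, S2 b w (v.2 / v.1, 2 / v.1) := by
        rw [lintegral_indicator RR0_meas, lintegral_const_mul]
        fun_prop
    _ ≤ _ := by
        gcongr
        exact cov hS

theorem PP_pt (b : ℝ) (w : ℝ × ℝ → ℝ) (v : ℝ × ℝ) (hw : ∀ v, 0 ≤ w v) :
    ‖PE b (1, 0) (PE b (0, 1) w) v‖ₑ ≤ ∫⁻ z in Set.Ioi (0:ℝ), ∫⁻ z' in Set.Ioi (0:ℝ),
      ‖ek b z‖ₑ * (‖ek b z'‖ₑ * ENNReal.ofReal (w (v.1 + z, v.2 + z'))) := by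
  unfold PE
  refine (enorm_integral_le_lintegral_enorm _).trans ?_
  apply lintegral_mono
  intro z
  simp only
  rw [enorm_mul, lintegral_const_mul']
  · gcongr
    refine (enorm_integral_le_lintegral_enorm _).trans ?_
    apply lintegral_mono
    intro z'
    simp only
    rw [enorm_mul]
    gcongr
    rw [← ofReal_norm, Real.norm_of_nonneg (hw _)]
    apply le_of_eq
    congr 2
    ext <;> simp
  · exact enorm_ne_top

theorem exp_shift {y z : ℝ} (hy : |y| ≤ 3) (hz : 0 ≤ z) :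
    Real.exp (-(z / 2)) ≤ Real.exp (3/2) * Real.exp (-(|y + z| / 2)) := by
  rw [← Real.exp_add]
  apply Real.exp_le_exp.2
  have := abs_add_le y z
  rw [abs_of_nonneg hz] at this
  linarith

theorem PP_sup {b : ℝ} (hb : 0 < b) (hb1 : b ≤ 1) {w : ℝ × ℝ → ℝ} (hm : Measurable w)
    (hw : ∀ v, 0 ≤ w v) {v : ℝ × ℝ} (hv : v ∈ T3) :
    ‖PE b (1, 0) (PE b (0, 1) w) v‖ₑ ≤ ENNReal.ofReal (b⁻¹ * b⁻¹ * Real.exp (3/2)) * aStar w := by
  refine (PP_pt b w v hw).trans ?_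
  set F : ℝ × ℝ → ℝ≥0∞ := fun v => ENNReal.ofReal (Real.exp (-(|v.2| / 2))) * ENNReal.ofReal (w v) with hF
  have hFm : Measurable F := by fun_prop
  have hb' : 0 < b⁻¹ := by positivity
  calc ∫⁻ z in Set.Ioi (0:ℝ), ∫⁻ z' in Set.Ioi (0:ℝ),
      ‖ek b z‖ₑ * (‖ek b z'‖ₑ * ENNReal.ofReal (w (v.1 + z, v.2 + z')))
      ≤ ∫⁻ z in Set.Ioi (0:ℝ), ∫⁻ z' in Set.Ioi (0:ℝ),
        ENNReal.ofReal (b⁻¹ * b⁻¹ * Real.exp (3/2)) * F (v.1 + z, v.2 + z') := by
        apply setLIntegral_mono' measurableSet_Ioi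
        intro z hz
        apply setLIntegral_mono' measurableSet_Ioi
        intro z' hz'
        have hz0 : 0 < z := hz
        have hz0' : 0 < z' := hz'
        simp only [hF]
        rw [← mul_assoc, ← mul_assoc]
        refine mul_le_mul' ?_ le_rfl
        rw [← ofReal_norm, ← ofReal_norm, Real.norm_of_nonneg (ek_pos hb _).le,
          Real.norm_of_nonneg (ek_pos hb _).le, ← ENNReal.ofReal_mul (ek_pos hb _).le,
          ← ENNReal.ofReal_mul (by positivity)]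
        apply ENNReal.ofReal_le_ofReal
        have h1 := ek_le hb hz0
        have h2 : ek b z' ≤ b⁻¹ * Real.exp (-(z' / 2)) := by
          unfold ek
          gcongr
          linarith
        have h3 := exp_shift (y := v.2) hv hz0'.le
        calc ek b z * ek b z' ≤ b⁻¹ * (b⁻¹ * (Real.exp (3/2) * Real.exp (-(|v.2 + z'| / 2)))) := by
              apply mul_le_mul h1 _ (ek_pos hb _).le hb'.le
              exact h2.trans (mul_le_mul_of_nonneg_left h3 hb'.le)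
          _ = _ := by ring
    _ ≤ ∫⁻ z, ∫⁻ z', ENNReal.ofReal (b⁻¹ * b⁻¹ * Real.exp (3/2)) * F (v.1 + z, v.2 + z') := by
        refine (setLIntegral_le_lintegral _ _).trans ?_
        apply lintegral_mono
        intro z
        exact setLIntegral_le_lintegral _ _
    _ = ENNReal.ofReal (b⁻¹ * b⁻¹ * Real.exp (3/2)) * ∫⁻ z, ∫⁻ z', F (v.1 + z, v.2 + z') := by
        rw [← lintegral_const_mul']
        · apply lintegral_congr
          intro z
          rw [lintegral_const_mul' _ _ ENNReal.ofReal_ne_top]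
        · exact ENNReal.ofReal_ne_top
    _ = ENNReal.ofReal (b⁻¹ * b⁻¹ * Real.exp (3/2)) * aStar w := by
        congr 1
        have h1 : ∀ z, ∫⁻ z', F (v.1 + z, v.2 + z') = ∫⁻ z', F (v.1 + z, z') := fun z =>
          lintegral_add_left_eq_self (fun z' => F (v.1 + z, z')) v.2
        simp_rw [h1]
        rw [lintegral_add_left_eq_self (fun z => ∫⁻ z', F (z, z')) v.1, aStar, Measure.volume_eq_prod,
          lintegral_prod _ hFm.aemeasurable]

theorem T3_shift {w : ℝ × ℝ → ℝ} (hm : Measurable w) (z : ℝ) {z' : ℝ} (hz' : 0 ≤ z') :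
    ∫⁻ v in T3, ENNReal.ofReal (w (v.1 + z, v.2 + z')) ≤
      ENNReal.ofReal (Real.exp (3/2) * Real.exp (z' / 2)) * aStar w := by
  set F : ℝ × ℝ → ℝ≥0∞ := fun v => ENNReal.ofReal (Real.exp (-(|v.2| / 2))) * ENNReal.ofReal (w v) with hF
  have hFm : Measurable F := by fun_prop
  calc ∫⁻ v in T3, ENNReal.ofReal (w (v.1 + z, v.2 + z'))
      ≤ ∫⁻ v in T3, ENNReal.ofReal (Real.exp (3/2) * Real.exp (z' / 2)) * F (v + (z, z')) := by
        apply setLIntegral_mono' T3_meas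
        intro v hv
        have hv' : |v.2| ≤ 3 := hv
        simp only [hF]
        rw [← mul_assoc, ← ENNReal.ofReal_mul (by positivity)]
        have e : v + (z, z') = (v.1 + z, v.2 + z') := rfl
        rw [e]
        have h1 : (1:ℝ≥0∞) ≤ ENNReal.ofReal (Real.exp (3/2) * Real.exp (z' / 2) *
            Real.exp (-(|v.2 + z'| / 2))) := by
          rw [← ENNReal.ofReal_one]
          apply ENNReal.ofReal_le_ofReal
          rw [← Real.exp_add, ← Real.exp_add]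
          apply Real.one_le_exp
          have := abs_add_le v.2 z'
          rw [abs_of_nonneg hz'] at this
          linarith
        calc ENNReal.ofReal (w (v.1 + z, v.2 + z')) = 1 * ENNReal.ofReal (w (v.1 + z, v.2 + z')) := by
              rw [one_mul]
          _ ≤ _ := by gcongr
    _ ≤ ∫⁻ v : ℝ × ℝ, ENNReal.ofReal (Real.exp (3/2) * Real.exp (z' / 2)) * F (v + (z, z')) :=
        setLIntegral_le_lintegral _ _
    _ = ENNReal.ofReal (Real.exp (3/2) * Real.exp (z' / 2)) * ∫⁻ v : ℝ × ℝ, F (v + (z, z')) := by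
        rw [lintegral_const_mul' _ _ ENNReal.ofReal_ne_top]
    _ = _ := by
        rw [lintegral_add_right_eq_self F (z, z')]
        rfl

theorem PP_int {b : ℝ} (hb : 0 < b) (hb1 : b ≤ 1) {w : ℝ × ℝ → ℝ} (hm : Measurable w)
    (hw : ∀ v, 0 ≤ w v) :
    ∫⁻ v in T3, ‖PE b (1, 0) (PE b (0, 1) w) v‖ₑ ≤ ENNReal.ofReal (2 * Real.exp (3/2)) * aStar w := by
  have hek := ek_meas b
  have hek2 := ek_meas (2 * b)
  have m3 : Measurable (fun p : ((ℝ × ℝ) × ℝ) × ℝ =>
      ‖ek b p.1.2‖ₑ * (‖ek b p.2‖ₑ * ENNReal.ofReal (w (p.1.1.1 + p.1.2, p.1.1.2 + p.2)))) := by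
    fun_prop
  have m2 : Measurable (fun p : (ℝ × ℝ) × ℝ => ∫⁻ z' in Set.Ioi (0:ℝ),
      ‖ek b p.2‖ₑ * (‖ek b z'‖ₑ * ENNReal.ofReal (w (p.1.1 + p.2, p.1.2 + z')))) :=
    m3.lintegral_prod_right'
  calc ∫⁻ v in T3, ‖PE b (1, 0) (PE b (0, 1) w) v‖ₑ
      ≤ ∫⁻ v in T3, ∫⁻ z in Set.Ioi (0:ℝ), ∫⁻ z' in Set.Ioi (0:ℝ),
      ‖ek b z‖ₑ * (‖ek b z'‖ₑ * ENNReal.ofReal (w (v.1 + z, v.2 + z'))) := by
        apply lintegral_mono
        intro v
        exact PP_pt b w v hw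
    _ = ∫⁻ z in Set.Ioi (0:ℝ), ∫⁻ z' in Set.Ioi (0:ℝ), ∫⁻ v in T3,
      ‖ek b z‖ₑ * (‖ek b z'‖ₑ * ENNReal.ofReal (w (v.1 + z, v.2 + z'))) := by
        rw [lintegral_lintegral_swap m2.aemeasurable]
        apply lintegral_congr
        intro z
        rw [lintegral_lintegral_swap]
        apply Measurable.aemeasurable
        simp only [Function.uncurry_def]
        fun_prop
    _ ≤ ∫⁻ z in Set.Ioi (0:ℝ), ∫⁻ z' in Set.Ioi (0:ℝ),
        (ENNReal.ofReal (2 * Real.exp (3/2)) * aStar w) * (‖ek b z‖ₑ * ‖ek (2 * b) z'‖ₑ) := by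
        apply setLIntegral_mono' measurableSet_Ioi
        intro z hz
        apply setLIntegral_mono' measurableSet_Ioi
        intro z' hz'
        have hz0' : 0 < z' := hz'
        have h1 := T3_shift hm z hz0'.le
        rw [lintegral_const_mul' _ _ enorm_ne_top, lintegral_const_mul' _ _ enorm_ne_top]
        calc ‖ek b z‖ₑ * (‖ek b z'‖ₑ * ∫⁻ v in T3, ENNReal.ofReal (w (v.1 + z, v.2 + z')))
            ≤ ‖ek b z‖ₑ * (‖ek b z'‖ₑ * (ENNReal.ofReal (Real.exp (3/2) * Real.exp (z' / 2)) * aStar w)) := by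
              gcongr
          _ = aStar w * ‖ek b z‖ₑ * (‖ek b z'‖ₑ * ENNReal.ofReal (Real.exp (3/2) * Real.exp (z' / 2))) := by
              ring
          _ ≤ aStar w * ‖ek b z‖ₑ * (ENNReal.ofReal (2 * Real.exp (3/2)) * ‖ek (2 * b) z'‖ₑ) := by
              refine mul_le_mul' le_rfl ?_
              rw [← ofReal_norm, ← ofReal_norm, Real.norm_of_nonneg (ek_pos hb _).le,
                Real.norm_of_nonneg (ek_pos (by positivity) _).le, ← ENNReal.ofReal_mul (ek_pos hb _).le,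
                ← ENNReal.ofReal_mul (by positivity)]
              apply ENNReal.ofReal_le_ofReal
              unfold ek
              have h2 : Real.exp (-(z' / b)) * Real.exp (z' / 2) ≤ Real.exp (-(z' / (2 * b))) := by
                rw [← Real.exp_add]
                apply Real.exp_le_exp.2
                have h3 : z' / (2 * b) = z' / b - z' / (2 * b) := by field_simp; ring
                have h4 : z' / 2 ≤ z' / (2 * b) := by
                  apply div_le_div_of_nonneg_left hz0'.le (by positivity) (by linarith)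
                linarith
              have he := Real.exp_pos (3/2)
              calc b⁻¹ * Real.exp (-(z' / b)) * (Real.exp (3/2) * Real.exp (z' / 2))
                  = b⁻¹ * Real.exp (3/2) * (Real.exp (-(z' / b)) * Real.exp (z' / 2)) := by ring
                _ ≤ b⁻¹ * Real.exp (3/2) * Real.exp (-(z' / (2 * b))) := by gcongr
                _ = _ := by field_simp
          _ = _ := by ring
    _ = ENNReal.ofReal (2 * Real.exp (3/2)) * aStar w := by
        have h1 : ∀ z, ∫⁻ z' in Set.Ioi (0:ℝ),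
          (ENNReal.ofReal (2 * Real.exp (3/2)) * aStar w) * (‖ek b z‖ₑ * ‖ek (2 * b) z'‖ₑ)
          = (ENNReal.ofReal (2 * Real.exp (3/2)) * aStar w) * ‖ek b z‖ₑ := by
          intro z
          rw [lintegral_const_mul _ (by fun_prop), lintegral_const_mul _ (by fun_prop),
            ek_lintegral_enorm (by positivity), mul_one]
        simp_rw [h1]
        rw [lintegral_const_mul _ (by fun_prop), ek_lintegral_enorm hb, mul_one]

theorem PP_l2 {b : ℝ} (hb : 0 < b) (hb1 : b ≤ 1) {w : ℝ × ℝ → ℝ} (hm : Measurable w)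
    (hw : ∀ v, 0 ≤ w v) :
    ENNReal.ofReal b ^ 2 * ∫⁻ v in T3, ‖PE b (1, 0) (PE b (0, 1) w) v‖ₑ ^ 2
      ≤ ENNReal.ofReal (2 * Real.exp 3) * aStar w ^ 2 := by
  calc ENNReal.ofReal b ^ 2 * ∫⁻ v in T3, ‖PE b (1, 0) (PE b (0, 1) w) v‖ₑ ^ 2
      ≤ ENNReal.ofReal b ^ 2 * ∫⁻ v in T3, (ENNReal.ofReal (b⁻¹ * b⁻¹ * Real.exp (3/2)) * aStar w) *
          ‖PE b (1, 0) (PE b (0, 1) w) v‖ₑ := by
        gcongr ENNReal.ofReal b ^ 2 * ?_
        apply setLIntegral_mono' T3_meas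
        intro v hv
        rw [pow_two]
        gcongr
        exact PP_sup hb hb1 hm hw hv
    _ = ENNReal.ofReal b ^ 2 * ((ENNReal.ofReal (b⁻¹ * b⁻¹ * Real.exp (3/2)) * aStar w) *
          ∫⁻ v in T3, ‖PE b (1, 0) (PE b (0, 1) w) v‖ₑ) := by
        rw [lintegral_const_mul]
        exact (PE_meas b _ (PE_meas b _ hm)).enorm
    _ ≤ ENNReal.ofReal b ^ 2 * ((ENNReal.ofReal (b⁻¹ * b⁻¹ * Real.exp (3/2)) * aStar w) *
          (ENNReal.ofReal (2 * Real.exp (3/2)) * aStar w)) := by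
        gcongr
        exact PP_int hb hb1 hm hw
    _ = (ENNReal.ofReal b ^ 2 * ENNReal.ofReal (b⁻¹ * b⁻¹ * Real.exp (3/2)) *
          ENNReal.ofReal (2 * Real.exp (3/2))) * aStar w ^ 2 := by ring
    _ = _ := by
        congr 1
        rw [← ENNReal.ofReal_pow hb.le, ← ENNReal.ofReal_mul (by positivity),
          ← ENNReal.ofReal_mul (by positivity)]
        congr 1
        have : Real.exp 3 = Real.exp (3/2) * Real.exp (3/2) := by
          rw [← Real.exp_add]; norm_num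
        rw [this]
        field_simp

end Pool.Agent.H58
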