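import Mathlib
import Pool.Agent.Lib_helper58.Local2

set_option autoImplicit false

open MeasureTheory
open scoped ENNReal Topology

namespace Pool.Agent.H58

noncomputable def JJ (b : ℝ) (w : ℝ × ℝ → ℝ) : ℝ :=
  ∫ v : ℝ × ℝ, w v * (chi v.1 * WW v.2 * gg b w 2 1 v)

noncomputable def LL (b : ℝ) (w : ℝ × ℝ → ℝ) : ℝ :=
  ∫ v : ℝ × ℝ, w v * (chi v.1 * WW v.2 * KK b w (v.2 / v.1, 2 / v.1))

/-- Cauchy–Schwarz/Young over `T3`. -/
theorem pair_bound {P Q : ℝ × ℝ → ℝ} (hP : Measurable P) (hQ : Measurable Q) (hz : ∀ v, v ∉ T3 → Q v = 0)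
    (θ : ℝ≥0∞) (h0 : θ ≠ 0) (ht : θ ≠ ⊤) :
    ‖∫ v, P v * Q v‖ₑ ≤ θ * (∫⁻ v in T3, ‖P v‖ₑ ^ 2) + θ⁻¹ * ∫⁻ v, ‖Q v‖ₑ ^ 2 := by
  have e : ∫⁻ v, ‖P v * Q v‖ₑ = ∫⁻ v in T3, ‖P v * Q v‖ₑ := by
    rw [← lintegral_indicator T3_meas]
    apply lintegral_congr
    intro v
    by_cases hv : v ∈ T3
    · rw [Set.indicator_of_mem hv]
    · rw [Set.indicator_of_notMem hv, hz v hv]; simp
  calc ‖∫ v, P v * Q v‖ₑ ≤ ∫⁻ v, ‖P v * Q v‖ₑ := enorm_integral_le_lintegral_enorm _
    _ = ∫⁻ v in T3, ‖P v * Q v‖ₑ := e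
    _ ≤ ∫⁻ v in T3, (θ * ‖P v‖ₑ ^ 2 + θ⁻¹ * ‖Q v‖ₑ ^ 2) := by
        apply lintegral_mono
        intro v
        simp only
        rw [enorm_mul]
        exact young _ _ θ h0 ht
    _ = θ * (∫⁻ v in T3, ‖P v‖ₑ ^ 2) + θ⁻¹ * ∫⁻ v in T3, ‖Q v‖ₑ ^ 2 := by
        rw [lintegral_add_left (by fun_prop), lintegral_const_mul _ (by fun_prop),
          lintegral_const_mul _ (by fun_prop)]
    _ ≤ _ := by
        refine add_le_add le_rfl (mul_le_mul' le_rfl ?_)
        exact setLIntegral_le_lintegral _ _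

/-- Bound for `J_b`. -/
theorem JJ_bound : ∃ C : ℝ≥0∞, C ≠ ⊤ ∧ ∀ (b : ℝ), 0 < b → b ≤ 1 → ∀ (w : ℝ × ℝ → ℝ) (H : ℝ), Loc w H →
    ∀ θ θ' : ℝ≥0∞, θ ≠ 0 → θ ≠ ⊤ → θ' ≠ 0 → θ' ≠ ⊤ →
    ‖JJ b w‖ₑ ≤ C * (θ * E1 b w + θ⁻¹ * E2 b w + (θ' * aStar w ^ 2 + θ'⁻¹ * E2 b w)) := by
  obtain ⟨C, h1, h2⟩ := exists_Ky
  obtain ⟨K, hK0, hK⟩ := exists_Kx
  set D : ℝ≥0∞ := ENNReal.ofReal ((15 * K * C) ^ 2 * 5) * 20 with hD
  set A : ℝ≥0∞ := ENNReal.ofReal (2 * Real.exp 3) with hA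
  refine ⟨1 + D + A, ?_, ?_⟩
  · simp only [hD, hA, ne_eq, ENNReal.add_eq_top, ENNReal.one_ne_top, false_or, not_or]
    exact ⟨ENNReal.mul_ne_top ENNReal.ofReal_ne_top (by norm_num), ENNReal.ofReal_ne_top⟩
  intro b hb hb1 w H hw θ θ' h0 ht h0' ht'
  have hm := hw.meas
  have hzz : ∀ {V V' : ℝ → ℝ}, Cut V V' C → ∀ v, v ∉ T3 → Psi b w V V' v = 0 := by
    intro V V' hV v hv
    apply Psi_zero b w hV
    right; right
    by_contra h
    exact hv (not_lt.1 h)
  have hu := hw.good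
  have mP1 : Measurable (PE b (1, 0) (fun v => w v - PE b (0, 1) w v)) :=
    PE_meas b _ (hm.sub (PE_meas b _ hm))
  have mP2 : Measurable (PE b (1, 0) (PE b (0, 1) w)) := PE_meas b _ (PE_meas b _ hm)
  have mQ1 := (GG_meas b hm h1).2.2.2
  have mQ2 := (GG_meas b hm h2).2.2.2
  have b1 := pair_bound mP1 mQ1 (hzz h1) θ h0 ht
  have b2 := pair_bound mP2 mQ2 (hzz h2) (θ' * ENNReal.ofReal b)
    (mul_ne_zero h0' (by simpa using hb)) (ENNReal.mul_ne_top ht' ENNReal.ofReal_ne_top)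
  have p1 := Psi_l2 hb hb1 hm h1 hK
  have p2 := Psi_l2 hb hb1 hm h2 hK
  have p3 := PP_l2 hb hb1 hm hw.nonneg
  rw [← mul_assoc] at p1 p2
  have hbinv : ENNReal.ofReal b * (θ' * ENNReal.ofReal b)⁻¹ = θ'⁻¹ := by
    rw [ENNReal.mul_inv (Or.inl h0') (Or.inl ht'), mul_comm θ'⁻¹, ← mul_assoc,
      ENNReal.mul_inv_cancel (by simpa using hb) ENNReal.ofReal_ne_top, one_mul]
  have hJ : JJ b w = (∫ v, PE b (1, 0) (fun v => w v - PE b (0, 1) w v) v * Psi b w WW (deriv WW) v)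
        - b * ∫ v, PE b (1, 0) (PE b (0, 1) w) v * Psi b w (deriv WW) (deriv (deriv WW)) v :=
    J_eq hb hb1 hw
  rw [hJ]
  calc ‖(∫ v, PE b (1, 0) (fun v => w v - PE b (0, 1) w v) v * Psi b w WW (deriv WW) v)
        - b * ∫ v, PE b (1, 0) (PE b (0, 1) w) v * Psi b w (deriv WW) (deriv (deriv WW)) v‖ₑ
      ≤ ‖(∫ v, PE b (1, 0) (fun v => w v - PE b (0, 1) w v) v * Psi b w WW (deriv WW) v)‖ₑ
        + ‖b * ∫ v, PE b (1, 0) (PE b (0, 1) w) v * Psi b w (deriv WW) (deriv (deriv WW)) v‖ₑ :=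
        enorm_sub_le
    _ ≤ (θ * E1 b w + θ⁻¹ * (D * E2 b w)) + ENNReal.ofReal b *
        ((θ' * ENNReal.ofReal b) * (∫⁻ v in T3, ‖PE b (1, 0) (PE b (0, 1) w) v‖ₑ ^ 2)
          + (θ' * ENNReal.ofReal b)⁻¹ * (D * E2 b w)) := by
        apply add_le_add
        · refine b1.trans ?_
          gcongr
          exact le_rfl
        · rw [enorm_mul]
          have : ‖b‖ₑ = ENNReal.ofReal b := by rw [← ofReal_norm, Real.norm_of_nonneg hb.le]
          rw [this]
          gcongr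
          refine b2.trans ?_
          gcongr
    _ = (θ * E1 b w + θ⁻¹ * (D * E2 b w)) +
        (θ' * (ENNReal.ofReal b ^ 2 * (∫⁻ v in T3, ‖PE b (1, 0) (PE b (0, 1) w) v‖ₑ ^ 2))
          + (ENNReal.ofReal b * (θ' * ENNReal.ofReal b)⁻¹) * (D * E2 b w)) := by ring
    _ ≤ (θ * E1 b w + θ⁻¹ * (D * E2 b w)) + (θ' * (A * aStar w ^ 2) + θ'⁻¹ * (D * E2 b w)) := by
        rw [hbinv]
        gcongr
    _ ≤ ((1 + D + A) * (θ * E1 b w) + (1 + D + A) * (θ⁻¹ * E2 b w))
        + ((1 + D + A) * (θ' * aStar w ^ 2) + (1 + D + A) * (θ'⁻¹ * E2 b w)) := by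
        have e1 : (1:ℝ≥0∞) ≤ 1 + D + A := by
          rw [add_assoc]; exact le_self_add
        have e2 : D ≤ 1 + D + A := by
          calc D ≤ 1 + D := le_add_self
            _ ≤ _ := le_self_add
        have e3 : A ≤ 1 + D + A := le_add_self
        refine add_le_add (add_le_add ?_ ?_) (add_le_add ?_ ?_)
        · calc θ * E1 b w = 1 * (θ * E1 b w) := by rw [one_mul]
            _ ≤ _ := by gcongr
        · calc θ⁻¹ * (D * E2 b w) = D * (θ⁻¹ * E2 b w) := by ring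
            _ ≤ _ := by gcongr
        · calc θ' * (A * aStar w ^ 2) = A * (θ' * aStar w ^ 2) := by ring
            _ ≤ _ := by gcongr
        · calc θ'⁻¹ * (D * E2 b w) = D * (θ'⁻¹ * E2 b w) := by ring
            _ ≤ _ := by gcongr
    _ = _ := by ring

theorem kk_nonneg (z : ℝ) : 0 ≤ kk z := by unfold kk; positivity
theorem kk_le (z : ℝ) : kk z ≤ 1 / 2 := by
  unfold kk
  have : Real.exp (-|z|) ≤ 1 := Real.exp_le_one_iff.2 (by simp)
  linarith

theorem KK_integrand {b : ℝ} {w : ℝ × ℝ → ℝ} {H : ℝ} (hw : Loc w H) (p : ℝ × ℝ) :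
    Integrable (fun v : ℝ × ℝ => v.1 * (b⁻¹ * kk ((p.2 + p.1 * v.1 - v.2) / b)) * w v) := by
  have hk := kk_meas
  have h1 := (hw.integrable_pow 1).bdd_mul (c := |b⁻¹| * (1/2))
    (f := fun v : ℝ × ℝ => (b⁻¹ * kk ((p.2 + p.1 * v.1 - v.2) / b)))
    (by exact (by fun_prop : Measurable fun v : ℝ × ℝ =>
      (b⁻¹ * kk ((p.2 + p.1 * v.1 - v.2) / b))).aestronglyMeasurable)
    (Filter.Eventually.of_forall fun v => by
      rw [Real.norm_eq_abs, abs_mul, abs_of_nonneg (kk_nonneg _)]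
      exact mul_le_mul_of_nonneg_left (kk_le _) (abs_nonneg _))
  refine h1.congr (Filter.Eventually.of_forall fun v => ?_)
  simp only
  ring

theorem KK_meas (b : ℝ) {w : ℝ × ℝ → ℝ} (hm : Measurable w) : Measurable (KK b w) := by
  have hk := kk_meas
  have h : StronglyMeasurable (fun p : (ℝ × ℝ) × (ℝ × ℝ) =>
      p.2.1 * (b⁻¹ * kk ((p.1.2 + p.1.1 * p.2.1 - p.2.2) / b)) * w p.2) := by
    apply Measurable.stronglyMeasurable
    fun_prop
  exact (h.integral_prod_right' (ν := (volume : Measure (ℝ × ℝ)))).measurable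

theorem KK_bound {b : ℝ} (hb : 0 < b) {w : ℝ × ℝ → ℝ} {H : ℝ} (hw : Loc w H) (p : ℝ × ℝ) {D : ℝ}
    (hD : ∀ v, w v ≠ 0 → b⁻¹ * kk ((p.2 + p.1 * v.1 - v.2) / b) ≤ D) :
    0 ≤ KK b w p ∧ KK b w p ≤ 3 * D * ∫ v, w v := by
  constructor
  · apply integral_nonneg
    intro v
    by_cases h : w v = 0
    · simp [h]
    · have := hw.suppx v h
      have h2 := hw.nonneg v
      have h3 := kk_nonneg ((p.2 + p.1 * v.1 - v.2) / b)
      have h4 : 0 ≤ v.1 := by linarith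
      simp only [Pi.zero_apply]
      positivity
  · rw [KK, ← integral_const_mul]
    apply integral_mono (KK_integrand hw p) (hw.integrable.const_mul _)
    intro v
    simp only
    by_cases h : w v = 0
    · simp [h]
    · have h1 := hw.suppx v h
      have h2 := hw.nonneg v
      have h3 := kk_nonneg ((p.2 + p.1 * v.1 - v.2) / b)
      have h4 : 0 ≤ b⁻¹ * kk ((p.2 + p.1 * v.1 - v.2) / b) := by positivity
      have h5 := hD v h
      apply mul_le_mul_of_nonneg_right _ h2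
      apply mul_le_mul h1.2 h5 h4 (by norm_num)

theorem LL_integrand {b : ℝ} (hb : 0 < b) {w : ℝ × ℝ → ℝ} {H : ℝ} (hw : Loc w H) :
    Integrable (fun v : ℝ × ℝ => w v * (chi v.1 * WW v.2 * KK b w (v.2 / v.1, 2 / v.1))) := by
  have hm := hw.meas
  have h1 := KK_meas b hm
  have h2 := chi_meas
  have h3 : Measurable WW := WW_smooth.continuous.measurable
  have hI : 0 ≤ ∫ v, w v := integral_nonneg hw.nonneg
  refine hw.integrable.mul_bdd (c := 3 * (b⁻¹ * (1/2)) * ∫ v, w v) (by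
    exact (by fun_prop : Measurable fun v : ℝ × ℝ =>
      chi v.1 * WW v.2 * KK b w (v.2 / v.1, 2 / v.1)).aestronglyMeasurable)
    (Filter.Eventually.of_forall fun v => ?_)
  have hK := KK_bound hb hw (v.2 / v.1, 2 / v.1) (D := b⁻¹ * (1/2)) (fun v _ => by
    exact mul_le_mul_of_nonneg_left (kk_le _) (by positivity))
  rw [Real.norm_eq_abs, abs_mul, abs_mul, abs_of_nonneg (chi_nonneg _), abs_of_nonneg (WW_nonneg _),
    abs_of_nonneg hK.1]
  have h4 : chi v.1 * WW v.2 ≤ 1 := mul_le_one₀ (chi_le_one _) (WW_nonneg _) (WW_le_one _)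
  calc chi v.1 * WW v.2 * KK b w (v.2 / v.1, 2 / v.1) ≤ 1 * KK b w (v.2 / v.1, 2 / v.1) :=
        mul_le_mul_of_nonneg_right h4 hK.1
    _ ≤ _ := by rw [one_mul]; exact hK.2

/-- telescoping step -/
theorem LL_sub {b : ℝ} (hb : 0 < b) {w : ℝ × ℝ → ℝ} {H : ℝ} (hw : Loc w H) :
    LL b w - LL (b / 4) w = JJ b w := by
  rw [LL, LL, JJ, ← integral_sub (LL_integrand hb hw) (LL_integrand (by positivity) hw)]
  apply integral_congr_ae
  filter_upwards with v
  have : KK b w (v.2 / v.1, 2 / v.1) - KK (b / 4) w (v.2 / v.1, 2 / v.1) = gg b w 2 1 v := by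
    rw [KK, KK, gg, HH, ← integral_sub (KK_integrand hw _) (KK_integrand hw _)]
    apply integral_congr_ae
    filter_upwards with u
    rw [show kap 2 = kap2 from rfl, ← kk_sub b _ hb]
    ring
  rw [← this]
  ring

/-- lower bound for `Λ_1` -/
theorem LL_one {w : ℝ × ℝ → ℝ} {H : ℝ} (hw : Loc w H) :
    ENNReal.ofReal (Real.exp (-18) / 4) * (∫⁻ v in {v : ℝ × ℝ | |v.2| ≤ 2}, ENNReal.ofReal (w v)) ^ 2
      ≤ ENNReal.ofReal (LL 1 w) := by
  have hT : MeasurableSet {v : ℝ × ℝ | |v.2| ≤ 2} := measurableSet_le (by fun_prop) measurable_const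
  set T : Set (ℝ × ℝ) := {v : ℝ × ℝ | |v.2| ≤ 2} with hTdef
  have hwT : Integrable (T.indicator w) := hw.integrable.indicator hT
  set a := ∫ v, T.indicator w v with ha
  have ha0 : 0 ≤ a := integral_nonneg (fun v => Set.indicator_nonneg (fun v _ => hw.nonneg v) v)
  have e1 : ∫⁻ v in T, ENNReal.ofReal (w v) = ENNReal.ofReal a := by
    rw [ha, integral_indicator hT, ofReal_integral_eq_lintegral_ofReal hw.integrable.integrableOn
      (Filter.Eventually.of_forall hw.nonneg)]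
  rw [e1, ← ENNReal.ofReal_pow ha0, ← ENNReal.ofReal_mul (by positivity)]
  apply ENNReal.ofReal_le_ofReal
  have hK : ∀ v ∈ T, w v ≠ 0 → Real.exp (-18) / 4 * a ≤ KK 1 w (v.2 / v.1, 2 / v.1) := by
    intro v hv hwv
    have hvx := hw.suppx v hwv
    rw [ha, ← integral_const_mul, KK]
    apply integral_mono (hwT.const_mul _) (KK_integrand hw _)
    intro u
    simp only
    by_cases hu : w u = 0
    · have : T.indicator w u = 0 := by
        by_cases h : u ∈ T
        · rw [Set.indicator_of_mem h, hu]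
        · rw [Set.indicator_of_notMem h]
      rw [this, hu]; simp
    · have hux := hw.suppx u hu
      have hu0 := hw.nonneg u
      by_cases h : u ∈ T
      · rw [Set.indicator_of_mem h]
        apply mul_le_mul_of_nonneg_right _ hu0
        have hv2 : |v.2| ≤ 2 := hv
        have hu2 : |u.2| ≤ 2 := h
        have hz : |2 / v.1 + v.2 / v.1 * u.1 - u.2| ≤ 18 := by
          have hx0 : 0 < v.1 := by linarith
          have t1 : |2 / v.1| ≤ 4 := by
            rw [abs_of_pos (by positivity), div_le_iff₀ hx0]; linarith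
          have t2 : |v.2 / v.1 * u.1| ≤ 12 := by
            rw [abs_mul, abs_div, abs_of_pos hx0, abs_of_nonneg (by linarith : 0 ≤ u.1)]
            have : |v.2| / v.1 ≤ 4 := by rw [div_le_iff₀ hx0]; linarith
            nlinarith [div_nonneg (abs_nonneg v.2) hx0.le]
          have t3 := abs_sub (2 / v.1 + v.2 / v.1 * u.1) u.2
          have t4 := abs_add_le (2 / v.1) (v.2 / v.1 * u.1)
          linarith
        have hk : Real.exp (-18) / 2 ≤ kk ((2 / v.1 + v.2 / v.1 * u.1 - u.2) / 1) := by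
          unfold kk
          rw [div_one]
          have : Real.exp (-18) ≤ Real.exp (-|2 / v.1 + v.2 / v.1 * u.1 - u.2|) :=
            Real.exp_le_exp.2 (by linarith)
          linarith
        have he : 0 < Real.exp (-18) := Real.exp_pos _
        rw [inv_one, one_mul]
        calc Real.exp (-18) / 4 = (1/2) * (Real.exp (-18) / 2) := by ring
          _ ≤ _ := mul_le_mul hux.1 hk (by positivity) (by linarith)
      · rw [Set.indicator_of_notMem h]
        rw [mul_zero]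
        have h3 := kk_nonneg ((2 / v.1 + v.2 / v.1 * u.1 - u.2) / 1)
        have h4 : 0 ≤ u.1 := by linarith
        positivity
  rw [LL]
  have e2 : Real.exp (-18) / 4 * a ^ 2 = ∫ v, (Real.exp (-18) / 4 * a) * T.indicator w v := by
    rw [integral_const_mul, ← ha]; ring
  rw [e2]
  apply integral_mono (hwT.const_mul _) (LL_integrand (by norm_num) hw)
  intro v
  simp only
  by_cases hwv : w v = 0
  · have : T.indicator w v = 0 := by
      by_cases h : v ∈ T
      · rw [Set.indicator_of_mem h, hwv]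
      · rw [Set.indicator_of_notMem h]
    rw [this, hwv]; simp
  · have hvx := hw.suppx v hwv
    have hv0 := hw.nonneg v
    by_cases h : v ∈ T
    · rw [Set.indicator_of_mem h, chi_one hvx.1 hvx.2, WW_one h, one_mul, one_mul, mul_comm]
      exact mul_le_mul_of_nonneg_left (hK v h hwv) hv0
    · rw [Set.indicator_of_notMem h, mul_zero]
      have h1 := chi_nonneg v.1
      have h2 := WW_nonneg v.2
      have h3 := (KK_bound (b := 1) (by norm_num) hw (v.2 / v.1, 2 / v.1) (D := 1⁻¹ * (1/2)) (fun v _ => by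
        exact mul_le_mul_of_nonneg_left (kk_le _) (by positivity))).1
      positivity

/-- upper bound for `Λ_b` -/
theorem LL_small {b : ℝ} (hb : 0 < b) {w : ℝ × ℝ → ℝ} {H : ℝ} (hw : Loc w H) {ε : ℝ} (hε : 0 < ε)
    (hav : ∀ v u, w v ≠ 0 → w u ≠ 0 → ε ≤ |v.1 * u.2 - u.1 * v.2 - 2|) :
    LL b w ≤ 3 * (b⁻¹ * Real.exp (-(ε / (3 * b)))) * (∫ v, w v) ^ 2 := by
  have hI : 0 ≤ ∫ v, w v := integral_nonneg hw.nonneg
  rw [LL]
  have e2 : 3 * (b⁻¹ * Real.exp (-(ε / (3 * b)))) * (∫ v, w v) ^ 2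
      = ∫ v, (3 * (b⁻¹ * Real.exp (-(ε / (3 * b)))) * ∫ v, w v) * w v := by
    rw [integral_const_mul]; ring
  rw [e2]
  apply integral_mono (LL_integrand hb hw) (hw.integrable.const_mul _)
  intro v
  simp only
  by_cases hwv : w v = 0
  · simp [hwv]
  · have hvx := hw.suppx v hwv
    have hv0 := hw.nonneg v
    have hx0 : 0 < v.1 := by linarith
    have hK := KK_bound hb hw (v.2 / v.1, 2 / v.1) (D := b⁻¹ * Real.exp (-(ε / (3 * b)))) (fun u hu => by
      apply mul_le_mul_of_nonneg_left _ (by positivity)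
      unfold kk
      have h1 := hav v u hwv hu
      have h2 : ε / (3 * b) ≤ |(2 / v.1 + v.2 / v.1 * u.1 - u.2) / b| := by
        have e3 : (2 / v.1 + v.2 / v.1 * u.1 - u.2) / b = -(v.1 * u.2 - u.1 * v.2 - 2) / (v.1 * b) := by
          field_simp; ring
        rw [e3, abs_div, abs_neg, abs_of_pos (by positivity : 0 < v.1 * b)]
        rw [div_le_div_iff₀ (by positivity) (by positivity)]
        have : v.1 * b ≤ 3 * b := mul_le_mul_of_nonneg_right hvx.2 hb.le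
        calc ε * (v.1 * b) ≤ ε * (3 * b) := by gcongr
          _ ≤ |v.1 * u.2 - u.1 * v.2 - 2| * (3 * b) := by gcongr
      have h3 : Real.exp (-|(2 / v.1 + v.2 / v.1 * u.1 - u.2) / b|) ≤ Real.exp (-(ε / (3 * b))) :=
        Real.exp_le_exp.2 (by linarith)
      have h4 := Real.exp_pos (-|(2 / v.1 + v.2 / v.1 * u.1 - u.2) / b|)
      linarith)
    rw [mul_comm]
    apply mul_le_mul_of_nonneg_right _ hv0
    have h4 : chi v.1 * WW v.2 ≤ 1 := mul_le_one₀ (chi_le_one _) (WW_nonneg _) (WW_le_one _)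
    calc chi v.1 * WW v.2 * KK b w (v.2 / v.1, 2 / v.1) ≤ 1 * KK b w (v.2 / v.1, 2 / v.1) :=
          mul_le_mul_of_nonneg_right h4 hK.1
      _ ≤ _ := by rw [one_mul]; exact hK.2

end Pool.Agent.H58
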