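import Mathlib
import Pool.Agent.Lib_helper58.Local3

set_option autoImplicit false

open MeasureTheory
open scoped ENNReal Topology

namespace Pool.Agent.H58

/-- scales -/
noncomputable def bj (j : ℕ) : ℝ := (1 / 4 : ℝ) ^ j

theorem bj_pos (j : ℕ) : 0 < bj j := by unfold bj; positivity
theorem bj_le_one (j : ℕ) : bj j ≤ 1 := pow_le_one₀ (by norm_num) (by norm_num)
theorem bj_zero : bj 0 = 1 := by simp [bj]
theorem bj_succ (j : ℕ) : bj (j + 1) = bj j / 4 := by unfold bj; ring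

theorem LL_telescope {w : ℝ × ℝ → ℝ} {H : ℝ} (hw : Loc w H) (J : ℕ) :
    LL 1 w = LL (bj J) w + ∑ j ∈ Finset.range J, JJ (bj j) w := by
  induction J with
  | zero => simp [bj_zero]
  | succ n ih =>
    rw [Finset.sum_range_succ, bj_succ, ih, ← LL_sub (bj_pos n) hw]
    ring

theorem LL_tendsto {w : ℝ × ℝ → ℝ} {H : ℝ} (hw : Loc w H) {ε : ℝ} (hε : 0 < ε)
    (hav : ∀ v u, w v ≠ 0 → w u ≠ 0 → ε ≤ |v.1 * u.2 - u.1 * v.2 - 2|) :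
    Filter.Tendsto (fun J => ENNReal.ofReal (LL (bj J) w)) Filter.atTop (𝓝 0) := by
  have h1 : Filter.Tendsto (fun J : ℕ => 3 * ((bj J)⁻¹ * Real.exp (-(ε / (3 * bj J)))) * (∫ v, w v) ^ 2)
      Filter.atTop (𝓝 0) := by
    have h2 : Filter.Tendsto (fun y : ℝ => y ^ 1 * Real.exp (-y)) Filter.atTop (𝓝 0) :=
      Real.tendsto_pow_mul_exp_neg_atTop_nhds_zero 1
    have h3 : Filter.Tendsto (fun J : ℕ => (ε / 3) * (4:ℝ) ^ J) Filter.atTop Filter.atTop :=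
      (tendsto_pow_atTop_atTop_of_one_lt (by norm_num)).const_mul_atTop (by positivity)
    have h4 := (h2.comp h3).const_mul (3 * (3 / ε) * (∫ v, w v) ^ 2)
    rw [mul_zero] at h4
    refine h4.congr fun J => ?_
    simp only [Function.comp, pow_one, bj]
    have e1 : ((1 / 4 : ℝ) ^ J)⁻¹ = 4 ^ J := by
      rw [one_div, inv_pow, inv_inv]
    have e2 : ε / (3 * (1 / 4 : ℝ) ^ J) = ε / 3 * 4 ^ J := by
      rw [div_mul_eq_div_div, div_eq_mul_inv (ε / 3), e1]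
    rw [e1, e2]
    field_simp
  have h5 : Filter.Tendsto (fun J : ℕ => ENNReal.ofReal
      (3 * ((bj J)⁻¹ * Real.exp (-(ε / (3 * bj J)))) * (∫ v, w v) ^ 2)) Filter.atTop (𝓝 0) := by
    have := (ENNReal.continuous_ofReal.tendsto 0).comp h1
    rw [ENNReal.ofReal_zero] at this
    exact this
  refine tendsto_of_tendsto_of_tendsto_of_le_of_le tendsto_const_nhds h5 (fun _ => zero_le) ?_
  intro J
  exact ENNReal.ofReal_le_ofReal (LL_small (bj_pos J) hw hε hav)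

theorem two_pow_inv (j : ℕ) : ((2:ℝ≥0∞)⁻¹ ^ j)⁻¹ = 2 ^ j := by
  rw [ENNReal.inv_pow, inv_inv]

/-- The local inequality. -/
theorem local_ineq : ∃ C : ℝ≥0∞, C ≠ ⊤ ∧ ∀ (w : ℝ × ℝ → ℝ) (H ε : ℝ), Loc w H → 0 < ε →
    (∀ v u, w v ≠ 0 → w u ≠ 0 → ε ≤ |v.1 * u.2 - u.1 * v.2 - 2|) →
    ∀ l : ℝ≥0∞, l ≠ 0 → l ≤ 1 →
    (∫⁻ v in {v : ℝ × ℝ | |v.2| ≤ 2}, ENNReal.ofReal (w v)) ^ 2
      ≤ C * (l * aStar w ^ 2 + l⁻¹ * ∑' j : ℕ, (2⁻¹ ^ j * E1 (bj j) w + 2 ^ j * E2 (bj j) w)) := by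
  obtain ⟨C0, hC0, hJ⟩ := JJ_bound
  set c0 : ℝ≥0∞ := ENNReal.ofReal (Real.exp (-18) / 4) with hc0
  have hc00 : c0 ≠ 0 := by
    rw [hc0]; simp; positivity
  have hc0t : c0 ≠ ⊤ := ENNReal.ofReal_ne_top
  refine ⟨c0⁻¹ * (2 * C0), ?_, ?_⟩
  · exact ENNReal.mul_ne_top (ENNReal.inv_ne_top.2 hc00) (ENNReal.mul_ne_top (by norm_num) hC0)
  intro w H ε hw hε hav l hl0 hl1
  have hlt : l ≠ ⊤ := ne_top_of_le_ne_top ENNReal.one_ne_top hl1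
  have hl1' : 1 ≤ l⁻¹ := by rwa [ENNReal.one_le_inv]
  set R := ∑' j : ℕ, (2⁻¹ ^ j * E1 (bj j) w + 2 ^ j * E2 (bj j) w) with hR
  set α2 := (∫⁻ v in {v : ℝ × ℝ | |v.2| ≤ 2}, ENNReal.ofReal (w v)) ^ 2 with hα
  have hj : ∀ j, ‖JJ (bj j) w‖ₑ ≤ 2 * C0 * ((2⁻¹ * (2⁻¹ ^ j)) * (l * aStar w ^ 2)
      + l⁻¹ * (2⁻¹ ^ j * E1 (bj j) w + 2 ^ j * E2 (bj j) w)) := by
    intro j
    have h2 : ((2:ℝ≥0∞)⁻¹ ^ j) ≠ 0 := by simp
    have h2t : ((2:ℝ≥0∞)⁻¹ ^ j) ≠ ⊤ := by simp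
    have h := hJ (bj j) (bj_pos j) (bj_le_one j) w H hw (2⁻¹ ^ j) (l * 2⁻¹ ^ j) h2 h2t
      (mul_ne_zero hl0 h2) (ENNReal.mul_ne_top hlt h2t)
    refine h.trans ?_
    rw [ENNReal.mul_inv (Or.inl hl0) (Or.inl hlt), two_pow_inv]
    calc C0 * (2⁻¹ ^ j * E1 (bj j) w + 2 ^ j * E2 (bj j) w
          + (l * 2⁻¹ ^ j * aStar w ^ 2 + l⁻¹ * 2 ^ j * E2 (bj j) w))
        = C0 * (l * 2⁻¹ ^ j * aStar w ^ 2 + (1 * (2⁻¹ ^ j * E1 (bj j) w + 2 ^ j * E2 (bj j) w) +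
            l⁻¹ * (0 + 2 ^ j * E2 (bj j) w))) := by ring
      _ ≤ C0 * (l * 2⁻¹ ^ j * aStar w ^ 2 + (l⁻¹ * (2⁻¹ ^ j * E1 (bj j) w + 2 ^ j * E2 (bj j) w) +
            l⁻¹ * (2⁻¹ ^ j * E1 (bj j) w + 2 ^ j * E2 (bj j) w))) := by
          gcongr
          exact zero_le
      _ = C0 * (1 * (l * 2⁻¹ ^ j * aStar w ^ 2) + 2 * (l⁻¹ * (2⁻¹ ^ j * E1 (bj j) w + 2 ^ j * E2 (bj j) w))) := by
          ring
      _ = C0 * ((2 * 2⁻¹) * (l * 2⁻¹ ^ j * aStar w ^ 2) + 2 * (l⁻¹ * (2⁻¹ ^ j * E1 (bj j) w + 2 ^ j * E2 (bj j) w))) := by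
          rw [ENNReal.mul_inv_cancel (by norm_num) (by norm_num)]
      _ = _ := by ring
  have hsum : ∀ J : ℕ, ∑ j ∈ Finset.range J, ‖JJ (bj j) w‖ₑ ≤ 2 * C0 * (l * aStar w ^ 2 + l⁻¹ * R) := by
    intro J
    calc ∑ j ∈ Finset.range J, ‖JJ (bj j) w‖ₑ
        ≤ ∑' j, 2 * C0 * ((2⁻¹ * (2⁻¹ ^ j)) * (l * aStar w ^ 2)
          + l⁻¹ * (2⁻¹ ^ j * E1 (bj j) w + 2 ^ j * E2 (bj j) w)) :=
          (Finset.sum_le_sum fun j _ => hj j).trans (ENNReal.sum_le_tsum _)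
      _ = 2 * C0 * (l * aStar w ^ 2 + l⁻¹ * R) := by
          rw [ENNReal.tsum_mul_left, ENNReal.tsum_add, ENNReal.tsum_mul_right, ENNReal.tsum_mul_left,
            ENNReal.tsum_mul_left, ENNReal.tsum_geometric, ENNReal.one_sub_inv_two, inv_inv,
            ENNReal.inv_mul_cancel (by norm_num) (by norm_num), one_mul]
  have hall : ∀ J : ℕ, c0 * α2 ≤ ENNReal.ofReal (LL (bj J) w) + 2 * C0 * (l * aStar w ^ 2 + l⁻¹ * R) := by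
    intro J
    refine (LL_one hw).trans ?_
    rw [LL_telescope hw J]
    refine ENNReal.ofReal_add_le.trans ?_
    gcongr
    calc ENNReal.ofReal (∑ j ∈ Finset.range J, JJ (bj j) w)
        ≤ ‖∑ j ∈ Finset.range J, JJ (bj j) w‖ₑ := by
          rw [← ofReal_norm]
          exact ENNReal.ofReal_le_ofReal (le_abs_self _)
      _ ≤ ∑ j ∈ Finset.range J, ‖JJ (bj j) w‖ₑ := enorm_sum_le _ _
      _ ≤ _ := hsum J
  have hlim : Filter.Tendsto (fun J => ENNReal.ofReal (LL (bj J) w) + 2 * C0 * (l * aStar w ^ 2 + l⁻¹ * R))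
      Filter.atTop (𝓝 (0 + 2 * C0 * (l * aStar w ^ 2 + l⁻¹ * R))) :=
    (LL_tendsto hw hε hav).add tendsto_const_nhds
  rw [zero_add] at hlim
  have hfin : c0 * α2 ≤ 2 * C0 * (l * aStar w ^ 2 + l⁻¹ * R) :=
    ge_of_tendsto hlim (Filter.Eventually.of_forall hall)
  calc α2 = c0⁻¹ * (c0 * α2) := by
        rw [← mul_assoc, ENNReal.inv_mul_cancel hc00 hc0t, one_mul]
    _ ≤ c0⁻¹ * (2 * C0 * (l * aStar w ^ 2 + l⁻¹ * R)) := by gcongr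
    _ = _ := by ring

end Pool.Agent.H58
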