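import Mathlib
import Pool.Agent.Lib_helper58.Local4

set_option autoImplicit false

open MeasureTheory
open scoped ENNReal Topology

namespace Pool.Agent.H58

/-- hypotheses on the global function (scale 1) -/
structure Glo (u : ℝ × ℝ → ℝ) (H : ℝ) : Prop where
  meas : Measurable u
  nonneg : ∀ v, 0 ≤ u v
  le_one : ∀ v, u v ≤ 1
  suppx : ∀ v, u v ≠ 0 → |v.1| ≤ 4
  suppy : ∀ v, u v ≠ 0 → |v.2| ≤ H

/-- separation -/
def Sep (u : ℝ × ℝ → ℝ) (q : ℝ × ℝ) : Prop := |q.1| ≤ 4 ∧ ∀ v, u v ≠ 0 → 1/2 ≤ v.1 - q.1 ∧ v.1 - q.1 ≤ 3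

/-- avoidance with margin -/
def Avo (u : ℝ × ℝ → ℝ) (ε : ℝ) (q : ℝ × ℝ) : Prop :=
  ∀ v v', u v ≠ 0 → u v' ≠ 0 → ε ≤ |(v.1 - q.1) * (v'.2 - q.2) - (v'.1 - q.1) * (v.2 - q.2) - 2|

/-- the affine map -/
def TT (q : ℝ × ℝ) (s : ℝ) (v : ℝ × ℝ) : ℝ × ℝ := (q.1 + v.1, q.2 + s * v.1 + v.2)

theorem TT_mp (q : ℝ × ℝ) (s : ℝ) : MeasurePreserving (TT q s) volume volume := by
  have h1 := shear_mp s
  have h2 : MeasurePreserving (fun v : ℝ × ℝ => q + v) volume volume :=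
    measurePreserving_add_left volume q
  have h3 := h2.comp h1
  have : TT q s = (fun v : ℝ × ℝ => q + v) ∘ (fun v : ℝ × ℝ => (v.1, s * v.1 + v.2)) := by
    ext v
    · simp [TT]
    · simp [TT]; ring
  rw [this]
  exact h3

theorem TT_lintegral (q : ℝ × ℝ) (s : ℝ) {F : ℝ × ℝ → ℝ≥0∞} (hF : Measurable F) :
    ∫⁻ v, F (TT q s v) = ∫⁻ v, F v := (TT_mp q s).lintegral_comp hF

theorem TT_emb (q : ℝ × ℝ) (s : ℝ) : MeasurableEmbedding (TT q s) := by
  have hm : Measurable (TT q s) := (TT_mp q s).measurable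
  have hm' : Measurable (fun v : ℝ × ℝ => ((v.1 - q.1, v.2 - q.2 - s * (v.1 - q.1)) : ℝ × ℝ)) := by fun_prop
  let e : ℝ × ℝ ≃ᵐ ℝ × ℝ := {
    toFun := TT q s
    invFun := fun v : ℝ × ℝ => (v.1 - q.1, v.2 - q.2 - s * (v.1 - q.1))
    left_inv := by
      intro v
      ext
      · simp only [TT]; ring
      · simp only [TT]; ring
    right_inv := by
      intro v
      ext
      · simp only [TT]; ring
      · simp only [TT]; ring
    measurable_toFun := hm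
    measurable_invFun := hm' }
  exact e.measurableEmbedding

theorem TT_integral (q : ℝ × ℝ) (s : ℝ) (F : ℝ × ℝ → ℝ) :
    ∫ v, F (TT q s v) = ∫ v, F v := (TT_mp q s).integral_comp (TT_emb q s) F

/-- the localised function -/
def ww (u : ℝ × ℝ → ℝ) (q : ℝ × ℝ) (s : ℝ) (v : ℝ × ℝ) : ℝ := u (TT q s v)

theorem ww_loc {u : ℝ × ℝ → ℝ} {H : ℝ} (hu : Glo u H) {q : ℝ × ℝ} (hq : Sep u q) (s : ℝ) :
    Loc (ww u q s) (H + |q.2| + 3 * |s|) := by
  refine ⟨hu.meas.comp (TT_mp q s).measurable, fun v => hu.nonneg _, fun v => hu.le_one _, ?_, ?_⟩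
  · intro v hv
    have := hq.2 _ hv
    simp only [TT] at this
    constructor <;> linarith [this.1, this.2]
  · intro v hv
    have h1 := hq.2 _ hv
    have h2 := hu.suppy _ hv
    simp only [TT] at h1 h2
    have e : v.2 = (q.2 + s * v.1 + v.2) - q.2 - s * v.1 := by ring
    rw [e]
    refine (abs_sub _ _).trans ?_
    refine (add_le_add (abs_sub _ _) le_rfl).trans ?_
    rw [abs_mul s v.1]
    have h3 : |v.1| ≤ 3 := by rw [abs_le]; constructor <;> linarith [h1.1, h1.2]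
    nlinarith [abs_nonneg s]

theorem ww_avo {u : ℝ × ℝ → ℝ} {ε : ℝ} {q : ℝ × ℝ} (hq : Avo u ε q) (s : ℝ) :
    ∀ v v', ww u q s v ≠ 0 → ww u q s v' ≠ 0 → ε ≤ |v.1 * v'.2 - v'.1 * v.2 - 2| := by
  intro v v' hv hv'
  have := hq _ _ hv hv'
  simp only [TT] at this
  have e : (q.1 + v.1 - q.1) * (q.2 + s * v'.1 + v'.2 - q.2) - (q.1 + v'.1 - q.1) * (q.2 + s * v.1 + v.2 - q.2) - 2
    = v.1 * v'.2 - v'.1 * v.2 - 2 := by ring
  rwa [e] at this

/-- relative height -/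
def Yst (p v : ℝ × ℝ) : ℝ := v.2 - p.1 * v.1 - p.2

theorem Yst_meas : Measurable (fun x : (ℝ × ℝ) × (ℝ × ℝ) => Yst x.1 x.2) := by
  unfold Yst; fun_prop

theorem Yst_meas' (p : ℝ × ℝ) : Measurable (Yst p) := by
  unfold Yst; fun_prop

/-- strip mass with half width `c` -/
noncomputable def al (c : ℝ) (u : ℝ × ℝ → ℝ) (p : ℝ × ℝ) : ℝ≥0∞ :=
  ∫⁻ v, ({v : ℝ × ℝ | |Yst p v| ≤ c}).indicator (fun v => ENNReal.ofReal (u v)) v

/-- exponential strip mass -/
noncomputable def as (u : ℝ × ℝ → ℝ) (p : ℝ × ℝ) : ℝ≥0∞ :=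
  ∫⁻ v, ENNReal.ofReal (Real.exp (-(|Yst p v| / 2))) * ENNReal.ofReal (u v)

noncomputable def e1 (b : ℝ) (u : ℝ × ℝ → ℝ) (p : ℝ × ℝ) : ℝ≥0∞ :=
  ∫⁻ v, ({v : ℝ × ℝ | |Yst p v| ≤ 4}).indicator
    (fun v => ‖PE b (1, p.1) (fun v => u v - PE b (0, 1) u v) v‖ₑ ^ 2) v

noncomputable def S9 (b : ℝ) (u : ℝ × ℝ → ℝ) (p : ℝ × ℝ) : ℝ≥0∞ :=
  ∑ k ∈ Finset.range 3, ∑ m ∈ Finset.range 3, ‖HH b u (k + 1) m p‖ₑ ^ 2

noncomputable def e2 (b : ℝ) (u : ℝ × ℝ → ℝ) (p : ℝ × ℝ) : ℝ≥0∞ :=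
  ∫⁻ p', ({p' : ℝ × ℝ | |p'.1 - p.1| ≤ 12 ∧ |p'.2 - p.2| ≤ 61}).indicator (S9 b u) p'

theorem al_le {u : ℝ × ℝ → ℝ} (hm : Measurable u) {q p : ℝ × ℝ} (hq : |Yst p q| ≤ 1) :
    al 1 u p ≤ ∫⁻ v in {v : ℝ × ℝ | |v.2| ≤ 2}, ENNReal.ofReal (ww u q p.1 v) := by
  have hT : MeasurableSet {v : ℝ × ℝ | |v.2| ≤ 2} := measurableSet_le (by fun_prop) measurable_const
  have hY := Yst_meas' p
  have hT2 : MeasurableSet {v : ℝ × ℝ | |Yst p v| ≤ 1} := measurableSet_le (by fun_prop) measurable_const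
  have hmF : Measurable (({v : ℝ × ℝ | |Yst p v| ≤ 1}).indicator (fun v => ENNReal.ofReal (u v))) := by
    apply Measurable.indicator _ hT2
    fun_prop
  rw [al, ← TT_lintegral q p.1 hmF, ← lintegral_indicator hT]
  apply lintegral_mono
  intro v
  simp only
  by_cases h : TT q p.1 v ∈ {v : ℝ × ℝ | |Yst p v| ≤ 1}
  · have h2 : v ∈ {v : ℝ × ℝ | |v.2| ≤ 2} := by
      have h3 : |Yst p (TT q p.1 v)| ≤ 1 := h
      show |v.2| ≤ 2
      have e : v.2 = Yst p (TT q p.1 v) - Yst p q := by simp only [Yst, TT]; ring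
      rw [e]
      exact (abs_sub _ _).trans (by linarith)
    rw [Set.indicator_of_mem h, Set.indicator_of_mem h2]
    rfl
  · rw [Set.indicator_of_notMem h]; exact zero_le

theorem aStar_le {u : ℝ × ℝ → ℝ} (hm : Measurable u) {q p : ℝ × ℝ} (hq : |Yst p q| ≤ 1) :
    aStar (ww u q p.1) ≤ ENNReal.ofReal (Real.exp (1/2)) * as u p := by
  have hY := Yst_meas' p
  have hmF : Measurable (fun v => ENNReal.ofReal (Real.exp (-(|Yst p v| / 2))) * ENNReal.ofReal (u v)) := by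
    fun_prop
  rw [as, ← TT_lintegral q p.1 hmF, aStar, ← lintegral_const_mul]
  · apply lintegral_mono
    intro v
    simp only
    rw [← mul_assoc, ← ENNReal.ofReal_mul (Real.exp_pos (1/2)).le, ← Real.exp_add]
    unfold ww
    gcongr
    have e : v.2 = Yst p (TT q p.1 v) - Yst p q := by simp only [Yst, TT]; ring
    have h3 := abs_sub_abs_le_abs_sub (Yst p (TT q p.1 v)) (Yst p q)
    rw [← e] at h3
    linarith
  · have := (TT_mp q p.1).measurable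
    fun_prop

theorem PE_TT (b : ℝ) (u : ℝ × ℝ → ℝ) (q : ℝ × ℝ) (s : ℝ) (v : ℝ × ℝ) :
    PE b (1, 0) (fun v => ww u q s v - PE b (0, 1) (ww u q s) v) v
      = PE b (1, s) (fun v => u v - PE b (0, 1) u v) (TT q s v) := by
  have h1 : ∀ v, PE b (0, 1) (ww u q s) v = PE b (0, 1) u (TT q s v) := by
    intro v
    unfold PE ww
    apply integral_congr_ae
    filter_upwards with z
    congr 2
    ext
    · simp [TT]
    · simp [TT]; ring
  have h2 : (fun v => ww u q s v - PE b (0, 1) (ww u q s) v) = fun v => u (TT q s v) - PE b (0, 1) u (TT q s v) := by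
    ext v
    rw [h1]; rfl
  rw [h2]
  unfold PE
  apply integral_congr_ae
  filter_upwards with z
  have h3 : TT q s (v + z • ((1:ℝ), (0:ℝ))) = TT q s v + z • ((1:ℝ), s) := by
    ext
    · simp [TT]; ring
    · simp [TT]; ring
  rw [h3]

theorem E1_le {b : ℝ} {u : ℝ × ℝ → ℝ} (hm : Measurable u) {q p : ℝ × ℝ} (hq : |Yst p q| ≤ 1) :
    E1 b (ww u q p.1) ≤ e1 b u p := by
  have hY := Yst_meas' p
  have hT2 : MeasurableSet {v : ℝ × ℝ | |Yst p v| ≤ 4} := measurableSet_le (by fun_prop) measurable_const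
  have mP1 : Measurable (PE b (1, p.1) (fun v => u v - PE b (0, 1) u v)) :=
    PE_meas b _ (hm.sub (PE_meas b _ hm))
  have hmF : Measurable (({v : ℝ × ℝ | |Yst p v| ≤ 4}).indicator
      (fun v => ‖PE b (1, p.1) (fun v => u v - PE b (0, 1) u v) v‖ₑ ^ 2)) := by
    apply Measurable.indicator _ hT2
    fun_prop
  rw [e1, ← TT_lintegral q p.1 hmF, E1, ← lintegral_indicator T3_meas]
  apply lintegral_mono
  intro v
  simp only
  by_cases h : v ∈ T3
  · have h2 : TT q p.1 v ∈ {v : ℝ × ℝ | |Yst p v| ≤ 4} := by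
      have h3 : |v.2| ≤ 3 := h
      show |Yst p (TT q p.1 v)| ≤ 4
      have e : Yst p (TT q p.1 v) = v.2 + Yst p q := by simp only [Yst, TT]; ring
      rw [e]
      exact (abs_add_le _ _).trans (by linarith)
    rw [Set.indicator_of_mem h, Set.indicator_of_mem h2, PE_TT]
  · rw [Set.indicator_of_notMem h]; exact zero_le

/-- map of the parameters -/
def UU (q : ℝ × ℝ) (s : ℝ) (p : ℝ × ℝ) : ℝ × ℝ := (p.1 + s, q.2 + p.2 - (p.1 + s) * q.1)

theorem UU_mp (q : ℝ × ℝ) (s : ℝ) : MeasurePreserving (UU q s) volume volume := by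
  have h1 := TT_mp (s, q.2 - s * q.1) (-q.1)
  have : UU q s = TT (s, q.2 - s * q.1) (-q.1) := by
    ext p
    · simp [TT, UU]; ring
    · simp [TT, UU]; ring
  rw [this]
  exact h1

theorem Glo.good {u : ℝ × ℝ → ℝ} {H : ℝ} (hu : Glo u H) : Good u (4 + 2 * |H|) := by
  have hH := abs_nonneg H
  refine ⟨hu.meas, by positivity, ?_, ?_, ?_⟩
  · intro v
    rw [abs_of_nonneg (hu.nonneg v)]
    linarith [hu.le_one v]
  · intro v hv
    by_contra h
    have := hu.suppx v h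
    linarith
  · intro x
    calc ∫⁻ y, ‖u (x, y)‖ₑ ≤ ∫⁻ y, (Set.Icc (-|H|) |H|).indicator (fun _ => 1) y := by
          apply lintegral_mono
          intro y
          by_cases h : u (x, y) = 0
          · simp [h]
          · have h1 := hu.suppy _ h
            have h2 : y ∈ Set.Icc (-|H|) |H| := by
              rw [Set.mem_Icc, ← abs_le]
              exact h1.trans (le_abs_self H)
            simp only
            rw [Set.indicator_of_mem h2, ← ofReal_norm, Real.norm_of_nonneg (hu.nonneg _)]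
            rw [ENNReal.ofReal_le_one]
            exact hu.le_one _
      _ = ENNReal.ofReal (2 * |H|) := by
          rw [lintegral_indicator measurableSet_Icc, setLIntegral_const, one_mul, Real.volume_Icc]
          congr 1; ring
      _ ≤ _ := ENNReal.ofReal_le_ofReal (by linarith)

theorem Glo.integrable {u : ℝ × ℝ → ℝ} {H : ℝ} (hu : Glo u H) : Integrable u := hu.good.integrable

theorem HH_integrand' {b : ℝ} {u : ℝ × ℝ → ℝ} {H : ℝ} (hu : Glo u H) (k i : ℕ)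
    (p : ℝ × ℝ) :
    Integrable (fun v : ℝ × ℝ => v.1 ^ i * (b⁻¹ * kap k ((p.2 + p.1 * v.1 - v.2) / b)) * u v) := by
  have hk := kap_meas k
  have hm := hu.meas
  have h0 : Integrable (fun v : ℝ × ℝ => v.1 ^ i * u v) := by
    refine Integrable.mono' (hu.integrable.const_mul (4 ^ i)) (by
      exact (by fun_prop : Measurable fun v : ℝ × ℝ => v.1 ^ i * u v).aestronglyMeasurable) ?_
    filter_upwards with v
    rw [Real.norm_eq_abs, abs_mul, abs_of_nonneg (hu.nonneg v), abs_pow]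
    by_cases h : u v = 0
    · simp [h]
    · apply mul_le_mul_of_nonneg_right _ (hu.nonneg v)
      exact pow_le_pow_left₀ (abs_nonneg _) (hu.suppx v h) i
  have h1 := h0.bdd_mul (c := |b⁻¹| * 10)
    (f := fun v : ℝ × ℝ => (b⁻¹ * kap k ((p.2 + p.1 * v.1 - v.2) / b)))
    (by exact (by fun_prop : Measurable fun v : ℝ × ℝ =>
      (b⁻¹ * kap k ((p.2 + p.1 * v.1 - v.2) / b))).aestronglyMeasurable)
    (Filter.Eventually.of_forall fun v => by
      rw [Real.norm_eq_abs, abs_mul]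
      exact mul_le_mul_of_nonneg_left (kap_bd' k _) (abs_nonneg _))
  refine h1.congr (Filter.Eventually.of_forall fun v => ?_)
  simp only
  ring

theorem HH_TT (b : ℝ) (u : ℝ × ℝ → ℝ) (q : ℝ × ℝ) (s : ℝ) (k i : ℕ) (p : ℝ × ℝ) :
    HH b (ww u q s) k i p = ∫ v : ℝ × ℝ, (v.1 - q.1) ^ i *
      (b⁻¹ * kap k (((UU q s p).2 + (UU q s p).1 * v.1 - v.2) / b)) * u v := by
  rw [← TT_integral q s]
  unfold HH ww
  apply integral_congr_ae
  filter_upwards with v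
  have h1 : (TT q s v).1 - q.1 = v.1 := by simp [TT]
  have h2 : (UU q s p).2 + (UU q s p).1 * (TT q s v).1 - (TT q s v).2 = p.2 + p.1 * v.1 - v.2 := by
    simp only [UU, TT]; ring
  rw [h1, h2]

theorem HH0_le (b : ℝ) (u : ℝ × ℝ → ℝ) (q : ℝ × ℝ) (s : ℝ) (k : ℕ) (p : ℝ × ℝ) :
    ‖HH b (ww u q s) k 0 p‖ₑ ^ 2 ≤ 768 * ∑ m ∈ Finset.range 3, ‖HH b u k m (UU q s p)‖ₑ ^ 2 := by
  have e : HH b (ww u q s) k 0 p = HH b u k 0 (UU q s p) := by
    rw [HH_TT, HH]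
    apply integral_congr_ae
    filter_upwards with v
    simp
  rw [e, Finset.sum_range_succ, Finset.sum_range_succ, Finset.sum_range_one]
  calc ‖HH b u k 0 (UU q s p)‖ₑ ^ 2 = 1 * ‖HH b u k 0 (UU q s p)‖ₑ ^ 2 := by rw [one_mul]
    _ ≤ 768 * (‖HH b u k 0 (UU q s p)‖ₑ ^ 2 + ‖HH b u k 1 (UU q s p)‖ₑ ^ 2 + ‖HH b u k 2 (UU q s p)‖ₑ ^ 2) := by
        gcongr
        · norm_num
        · rw [add_assoc]; exact le_self_add

theorem HH1_le {b : ℝ} {u : ℝ × ℝ → ℝ} {H : ℝ} (hu : Glo u H) {q : ℝ × ℝ} (hq : |q.1| ≤ 4) (s : ℝ) (k : ℕ)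
    (p : ℝ × ℝ) :
    ‖HH b (ww u q s) k 1 p‖ₑ ^ 2 ≤ 768 * ∑ m ∈ Finset.range 3, ‖HH b u k m (UU q s p)‖ₑ ^ 2 := by
  have e : HH b (ww u q s) k 1 p = HH b u k 1 (UU q s p) - q.1 * HH b u k 0 (UU q s p) := by
    rw [HH_TT, HH, HH, ← integral_const_mul, ← integral_sub (HH_integrand' hu k 1 _)
      ((HH_integrand' hu k 0 _).const_mul _)]
    apply integral_congr_ae
    filter_upwards with v
    ring
  rw [e, Finset.sum_range_succ, Finset.sum_range_succ, Finset.sum_range_one]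
  simp only [enorm_sq_eq]
  rw [← ENNReal.ofReal_add (by positivity) (by positivity), ← ENNReal.ofReal_add (by positivity) (by positivity),
    show (768:ℝ≥0∞) = ENNReal.ofReal 768 by norm_num, ← ENNReal.ofReal_mul (by norm_num)]
  apply ENNReal.ofReal_le_ofReal
  generalize HH b u k 0 (UU q s p) = h0
  generalize HH b u k 1 (UU q s p) = h1
  generalize HH b u k 2 (UU q s p) = h2
  have hq2 : q.1 ^ 2 ≤ 16 := by
    rw [← sq_abs]; nlinarith [abs_nonneg q.1]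
  nlinarith [sq_nonneg (h1 + q.1 * h0), sq_nonneg h0, sq_nonneg h1, sq_nonneg h2,
    mul_nonneg (sub_nonneg.2 hq2) (sq_nonneg h0)]

theorem HH2_le {b : ℝ} {u : ℝ × ℝ → ℝ} {H : ℝ} (hu : Glo u H) {q : ℝ × ℝ} (hq : |q.1| ≤ 4) (s : ℝ) (k : ℕ)
    (p : ℝ × ℝ) :
    ‖HH b (ww u q s) k 2 p‖ₑ ^ 2 ≤ 768 * ∑ m ∈ Finset.range 3, ‖HH b u k m (UU q s p)‖ₑ ^ 2 := by
  have e : HH b (ww u q s) k 2 p = HH b u k 2 (UU q s p) - 2 * q.1 * HH b u k 1 (UU q s p)
      + q.1 ^ 2 * HH b u k 0 (UU q s p) := by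
    rw [HH_TT, HH, HH, HH, ← integral_const_mul, ← integral_const_mul,
      ← integral_sub (HH_integrand' hu k 2 _) ((HH_integrand' hu k 1 _).const_mul _),
      ← integral_add (by
        exact (HH_integrand' hu k 2 _).sub ((HH_integrand' hu k 1 _).const_mul _))
        ((HH_integrand' hu k 0 _).const_mul _)]
    apply integral_congr_ae
    filter_upwards with v
    ring
  rw [e, Finset.sum_range_succ, Finset.sum_range_succ, Finset.sum_range_one]
  simp only [enorm_sq_eq]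
  rw [← ENNReal.ofReal_add (by positivity) (by positivity), ← ENNReal.ofReal_add (by positivity) (by positivity),
    show (768:ℝ≥0∞) = ENNReal.ofReal 768 by norm_num, ← ENNReal.ofReal_mul (by norm_num)]
  apply ENNReal.ofReal_le_ofReal
  generalize HH b u k 0 (UU q s p) = h0
  generalize HH b u k 1 (UU q s p) = h1
  generalize HH b u k 2 (UU q s p) = h2
  have hq2 : q.1 ^ 2 ≤ 16 := by
    rw [← sq_abs]; nlinarith [abs_nonneg q.1]
  have hq4 : (q.1 ^ 2) ^ 2 ≤ 256 := by nlinarith [sq_nonneg q.1]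
  have t : (h2 - 2 * q.1 * h1 + q.1 ^ 2 * h0) ^ 2 ≤ 3 * (h2 ^ 2 + 4 * q.1 ^ 2 * h1 ^ 2 + (q.1 ^ 2) ^ 2 * h0 ^ 2) := by
    nlinarith [sq_nonneg (h2 + 2 * q.1 * h1), sq_nonneg (h2 - q.1 ^ 2 * h0),
      sq_nonneg (2 * q.1 * h1 + q.1 ^ 2 * h0)]
  nlinarith [mul_nonneg (sub_nonneg.2 hq2) (sq_nonneg h1), mul_nonneg (sub_nonneg.2 hq4) (sq_nonneg h0),
    sq_nonneg h0, sq_nonneg h1, sq_nonneg h2]

theorem S9_meas (b : ℝ) {u : ℝ × ℝ → ℝ} (hm : Measurable u) : Measurable (S9 b u) := by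
  have h := fun k i => HH_meas b hm k i
  unfold S9
  fun_prop

theorem S2_le {b : ℝ} {u : ℝ × ℝ → ℝ} {H : ℝ} (hu : Glo u H) {q : ℝ × ℝ} (hq : |q.1| ≤ 4) (s : ℝ)
    (p : ℝ × ℝ) : S2 b (ww u q s) p ≤ 1536 * S9 b u (UU q s p) := by
  have a1 := HH0_le b u q s 1 p
  have a2 := HH0_le b u q s 2 p
  have a3 := HH1_le (b := b) hu hq s 2 p
  have a4 := HH1_le (b := b) hu hq s 3 p
  have a5 := HH2_le (b := b) hu hq s 3 p
  unfold S2 S9
  rw [Finset.sum_range_succ (fun k => ∑ m ∈ Finset.range 3, ‖HH b u (k + 1) m (UU q s p)‖ₑ ^ 2),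
    Finset.sum_range_succ (fun k => ∑ m ∈ Finset.range 3, ‖HH b u (k + 1) m (UU q s p)‖ₑ ^ 2),
    Finset.sum_range_one]
  simp only [zero_add, Nat.reduceAdd]
  set x1 := ∑ m ∈ Finset.range 3, ‖HH b u 1 m (UU q s p)‖ₑ ^ 2
  set x2 := ∑ m ∈ Finset.range 3, ‖HH b u 2 m (UU q s p)‖ₑ ^ 2
  set x3 := ∑ m ∈ Finset.range 3, ‖HH b u 3 m (UU q s p)‖ₑ ^ 2
  calc _ ≤ 768 * x1 + 768 * x2 + 768 * x2 + 768 * x3 + 768 * x3 := by gcongr
    _ ≤ 768 * x1 + 768 * x2 + 768 * x2 + 768 * x3 + 768 * x3 + 768 * x1 := le_self_add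
    _ = 1536 * (x1 + x2 + x3) := by ring

theorem E2_le {b : ℝ} {u : ℝ × ℝ → ℝ} {H : ℝ} (hu : Glo u H) {q p : ℝ × ℝ} (hq1 : |q.1| ≤ 4)
    (hq : |Yst p q| ≤ 1) : E2 b (ww u q p.1) ≤ 1536 * e2 b u p := by
  have hS := S9_meas b hu.meas
  have hT : MeasurableSet {p' : ℝ × ℝ | |p'.1 - p.1| ≤ 12 ∧ |p'.2 - p.2| ≤ 61} := by
    have h1 : MeasurableSet {p' : ℝ × ℝ | |p'.1 - p.1| ≤ 12} := measurableSet_le (by fun_prop) measurable_const
    have h2 : MeasurableSet {p' : ℝ × ℝ | |p'.2 - p.2| ≤ 61} := measurableSet_le (by fun_prop) measurable_const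
    exact h1.inter h2
  have hmF : Measurable (({p' : ℝ × ℝ | |p'.1 - p.1| ≤ 12 ∧ |p'.2 - p.2| ≤ 61}).indicator (S9 b u)) :=
    hS.indicator hT
  rw [e2, ← (UU_mp q p.1).lintegral_comp hmF, E2, ← lintegral_indicator SS0_meas, ← lintegral_const_mul]
  · apply lintegral_mono
    intro p'
    simp only
    by_cases h : p' ∈ SS0
    · have h1 : |p'.1| ≤ 12 ∧ |p'.2| ≤ 12 := by
        rw [SS0, Set.mem_prod, Set.mem_Icc, Set.mem_Icc, ← abs_le, ← abs_le] at h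
        exact h
      have h2 : UU q p.1 p' ∈ {p' : ℝ × ℝ | |p'.1 - p.1| ≤ 12 ∧ |p'.2 - p.2| ≤ 61} := by
        show |(UU q p.1 p').1 - p.1| ≤ 12 ∧ |(UU q p.1 p').2 - p.2| ≤ 61
        constructor
        · simp only [UU]; rw [add_sub_cancel_right]; exact h1.1
        · have e : (UU q p.1 p').2 - p.2 = (Yst p q + p'.2) - p'.1 * q.1 := by
            simp only [UU, Yst]; ring
          rw [e]
          refine (abs_sub _ _).trans ?_
          refine (add_le_add (abs_add_le _ _) (le_of_eq (abs_mul _ _))).trans ?_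
          nlinarith [abs_nonneg p'.1, abs_nonneg q.1, mul_le_mul h1.1 hq1 (abs_nonneg _) (by norm_num)]
      rw [Set.indicator_of_mem h, Set.indicator_of_mem h2]
      exact S2_le hu hq1 p.1 p'
    · rw [Set.indicator_of_notMem h]; exact zero_le
  · exact hmF.comp (UU_mp q p.1).measurable

end Pool.Agent.H58
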