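import Mathlib
import Pool.Agent.Lib_helper58.Glob1

set_option autoImplicit false

open MeasureTheory
open scoped ENNReal Topology

namespace Pool.Agent.H58

/-- Cauchy–Schwarz. -/
theorem cs {α : Type*} [MeasurableSpace α] (μ : Measure α) {f g : α → ℝ≥0∞} (hf : AEMeasurable f μ)
    (hg : AEMeasurable g μ) : (∫⁻ a, f a * g a ∂μ) ^ 2 ≤ (∫⁻ a, f a ^ 2 ∂μ) * ∫⁻ a, g a ^ 2 ∂μ := by
  have h := ENNReal.lintegral_mul_le_Lp_mul_Lq μ (p := 2) (q := 2) Real.HolderConjugate.two_two hf hg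
  simp only [Pi.mul_apply, ENNReal.rpow_two] at h
  calc (∫⁻ a, f a * g a ∂μ) ^ 2
      ≤ ((∫⁻ a, f a ^ 2 ∂μ) ^ (1 / 2 : ℝ) * (∫⁻ a, g a ^ 2 ∂μ) ^ (1 / 2 : ℝ)) ^ 2 := by gcongr
    _ = (∫⁻ a, f a ^ 2 ∂μ) * ∫⁻ a, g a ^ 2 ∂μ := by
        rw [mul_pow]
        have : ∀ x : ℝ≥0∞, (x ^ (1 / 2 : ℝ)) ^ 2 = x := by
          intro x
          rw [← ENNReal.rpow_natCast, ← ENNReal.rpow_mul]
          norm_num
        rw [this, this]

theorem lint_ind_abs (a r : ℝ) : ∫⁻ t : ℝ, ({t : ℝ | |a - t| ≤ r}).indicator (fun _ => (1:ℝ≥0∞)) t = ENNReal.ofReal (2 * r) := by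
  have : {t : ℝ | |a - t| ≤ r} = Set.Icc (a - r) (a + r) := by
    ext t
    show |a - t| ≤ r ↔ _
    rw [abs_le, Set.mem_Icc]
    constructor <;> intro h <;> constructor <;> linarith [h.1, h.2]
  rw [this, lintegral_indicator measurableSet_Icc, setLIntegral_const, one_mul, Real.volume_Icc]
  congr 1; ring

theorem e1_joint (b : ℝ) {u : ℝ × ℝ → ℝ} (hm : Measurable u) :
    Measurable (fun x : (ℝ × ℝ) × (ℝ × ℝ) => ({v : ℝ × ℝ | |Yst x.1 v| ≤ 4}).indicator
    (fun v => ‖PE b (1, x.1.1) (fun v => u v - PE b (0, 1) u v) v‖ₑ ^ 2) x.2) := by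
  have h0 : Measurable (fun x : (ℝ × ℝ) × (ℝ × ℝ) =>
      ‖PE b (1, x.1.1) (fun v => u v - PE b (0, 1) u v) x.2‖ₑ ^ 2) := by
    have h1 := PE_meas' b (hm.sub (PE_meas b (0, 1) hm))
    have h2 : Measurable (fun x : (ℝ × ℝ) × (ℝ × ℝ) =>
      PE b (1, x.1.1) (fun v => u v - PE b (0, 1) u v) x.2) :=
      h1.comp (by fun_prop : Measurable fun x : (ℝ × ℝ) × (ℝ × ℝ) => ((((1:ℝ), x.1.1) : ℝ × ℝ), x.2))
    exact h2.enorm.pow_const 2
  have hS : MeasurableSet {x : (ℝ × ℝ) × (ℝ × ℝ) | |Yst x.1 x.2| ≤ 4} := by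
    have := Yst_meas
    exact measurableSet_le (by fun_prop) measurable_const
  have := h0.indicator hS
  exact this

theorem e1_meas (b : ℝ) {u : ℝ × ℝ → ℝ} (hm : Measurable u) : Measurable (e1 b u) :=
  (e1_joint b hm).lintegral_prod_right'

theorem e1_int {b : ℝ} (hb : 0 < b) {u : ℝ × ℝ → ℝ} {M : ℝ} (hu : Good u M) :
    ∫⁻ p, e1 b u p ≤ 8 * QQ b u := by
  have hm := hu.meas
  have hj := e1_joint b hm
  have hPm : ∀ s, Measurable (PE b (1, s) (fun v => u v - PE b (0, 1) u v)) := fun s =>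
    PE_meas b _ (hm.sub (PE_meas b _ hm))
  rw [Measure.volume_eq_prod, lintegral_prod _ (e1_meas b hm).aemeasurable]
  calc ∫⁻ s, ∫⁻ t, e1 b u (s, t)
      = ∫⁻ s, ∫⁻ v, ∫⁻ t, ({v : ℝ × ℝ | |Yst (s, t) v| ≤ 4}).indicator
          (fun v => ‖PE b (1, s) (fun v => u v - PE b (0, 1) u v) v‖ₑ ^ 2) v := by
        apply lintegral_congr
        intro s
        simp only [e1]
        have hc := hj.comp (by fun_prop : Measurable fun x : ℝ × (ℝ × ℝ) => (((s, x.1) : ℝ × ℝ), x.2))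
        simp only [Function.comp_def] at hc
        rw [lintegral_lintegral_swap (by simp only [Function.uncurry_def]; exact hc.aemeasurable)]
    _ = ∫⁻ s, ∫⁻ v, 8 * ‖PE b (1, s) (fun v => u v - PE b (0, 1) u v) v‖ₑ ^ 2 := by
        apply lintegral_congr
        intro s
        apply lintegral_congr
        intro v
        have h1 : ∀ t, ({v : ℝ × ℝ | |Yst (s, t) v| ≤ 4}).indicator
          (fun v => ‖PE b (1, s) (fun v => u v - PE b (0, 1) u v) v‖ₑ ^ 2) v
          = ({t : ℝ | |(v.2 - s * v.1) - t| ≤ 4}).indicator (fun _ => (1:ℝ≥0∞)) t *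
            ‖PE b (1, s) (fun v => u v - PE b (0, 1) u v) v‖ₑ ^ 2 := by
          intro t
          by_cases h : |(v.2 - s * v.1) - t| ≤ 4
          · rw [Set.indicator_of_mem (by exact h), Set.indicator_of_mem (by exact h), one_mul]
          · rw [Set.indicator_of_notMem (by exact h), Set.indicator_of_notMem (by exact h), zero_mul]
        simp_rw [h1]
        rw [lintegral_mul_const', lint_ind_abs]
        · norm_num
        · exact ENNReal.pow_ne_top enorm_ne_top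
    _ = 8 * ∫⁻ s, ∫⁻ v, ‖PE b (1, s) (fun v => u v - PE b (0, 1) u v) v‖ₑ ^ 2 := by
        rw [← lintegral_const_mul' _ _ (by norm_num)]
        apply lintegral_congr
        intro s
        rw [lintegral_const_mul' _ _ (by norm_num)]
    _ ≤ 8 * QQ b u := by
        gcongr
        exact bessel1 hb hu

theorem HH_eq_RR {b : ℝ} {u : ℝ × ℝ → ℝ} {H : ℝ} (hu : Glo u H) (k i : ℕ) (s t : ℝ) :
    HH b u k i (s, t) = RR (XF i k b u) s t := by
  have hi := HH_integrand' (b := b) hu k i (s, t)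
  rw [Measure.volume_eq_prod] at hi
  rw [HH, RR, Measure.volume_eq_prod, integral_prod _ hi]
  apply integral_congr_ae
  filter_upwards with x
  rw [XF, CV, ← integral_const_mul]
  apply integral_congr_ae
  filter_upwards with y
  have : t + s * x - y = s * x + t - y := by ring
  rw [this]
  ring

theorem S9_int {b : ℝ} (hb : 0 < b) {u : ℝ × ℝ → ℝ} {H : ℝ} (hu : Glo u H) :
    ∫⁻ p, S9 b u p ≤ 9 * (ENNReal.ofReal 256 * 225 * (ENNReal.ofReal b * QQ b u)) := by
  have hm := hu.meas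
  have hH := fun k i => HH_meas b hm k i
  have hs : ∀ v : ℝ × ℝ, 4 < |v.1| → u v = 0 := by
    intro v hv
    by_contra h
    have := hu.suppx v h
    linarith
  have h1 : ∀ k m, m ∈ Finset.range 3 → ∫⁻ p, ‖HH b u (k + 1) m p‖ₑ ^ 2
      ≤ (ENNReal.ofReal 256 * 225 * (ENNReal.ofReal b * QQ b u)) := by
    intro k m hmr
    rw [Measure.volume_eq_prod, lintegral_prod _ (by
      exact ((hH (k+1) m).enorm.pow_const 2).aemeasurable)]
    have e : ∫⁻ s, ∫⁻ t, ‖HH b u (k + 1) m (s, t)‖ₑ ^ 2 = ∫⁻ s, ∫⁻ t, ‖RR (XF m (k+1) b u) s t‖ₑ ^ 2 := by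
      apply lintegral_congr; intro s
      apply lintegral_congr; intro t
      rw [HH_eq_RR hu]
    rw [e]
    refine (bessel2 m (k+1) hb hu.good (L := 4) (by norm_num) hs).trans ?_
    gcongr
    have : m ≤ 2 := by
      have := Finset.mem_range.1 hmr; omega
    calc ((4:ℝ) ^ m) ^ 2 ≤ (4 ^ 2) ^ 2 := by
          gcongr
          norm_num
      _ = 256 := by norm_num
  unfold S9
  rw [lintegral_finsetSum _ (fun k _ => by fun_prop)]
  calc ∑ k ∈ Finset.range 3, ∫⁻ p, ∑ m ∈ Finset.range 3, ‖HH b u (k + 1) m p‖ₑ ^ 2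
      = ∑ k ∈ Finset.range 3, ∑ m ∈ Finset.range 3, ∫⁻ p, ‖HH b u (k + 1) m p‖ₑ ^ 2 := by
        apply Finset.sum_congr rfl
        intro k _
        rw [lintegral_finsetSum _ (fun m _ => by fun_prop)]
    _ ≤ ∑ k ∈ Finset.range 3, ∑ m ∈ Finset.range 3, (ENNReal.ofReal 256 * 225 * (ENNReal.ofReal b * QQ b u)) := by
        apply Finset.sum_le_sum
        intro k _
        apply Finset.sum_le_sum
        intro m hmr
        exact h1 k m hmr
    _ = _ := by
        simp only [Finset.sum_const, Finset.card_range, nsmul_eq_mul]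
        push_cast
        ring

theorem e2_int {b : ℝ} (hb : 0 < b) {u : ℝ × ℝ → ℝ} {H : ℝ} (hu : Glo u H) :
    ∫⁻ p, e2 b u p ≤ (2928 * (9 * (ENNReal.ofReal 256 * 225))) * (ENNReal.ofReal b * QQ b u) := by
  have hm := hu.meas
  have hS := S9_meas b hm
  have hset : MeasurableSet {x : (ℝ × ℝ) × (ℝ × ℝ) | |x.2.1 - x.1.1| ≤ 12 ∧ |x.2.2 - x.1.2| ≤ 61} := by
    have h1 : MeasurableSet {x : (ℝ × ℝ) × (ℝ × ℝ) | |x.2.1 - x.1.1| ≤ 12} :=
      measurableSet_le (by fun_prop) measurable_const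
    have h2 : MeasurableSet {x : (ℝ × ℝ) × (ℝ × ℝ) | |x.2.2 - x.1.2| ≤ 61} :=
      measurableSet_le (by fun_prop) measurable_const
    exact h1.inter h2
  have hj : Measurable (fun x : (ℝ × ℝ) × (ℝ × ℝ) =>
      ({p' : ℝ × ℝ | |p'.1 - x.1.1| ≤ 12 ∧ |p'.2 - x.1.2| ≤ 61}).indicator (S9 b u) x.2) := by
    have : Measurable (fun x : (ℝ × ℝ) × (ℝ × ℝ) => S9 b u x.2) := by fun_prop
    exact this.indicator hset
  unfold e2
  rw [lintegral_lintegral_swap hj.aemeasurable]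
  have h2 : ∀ p' : ℝ × ℝ, ∫⁻ p : ℝ × ℝ, ({p' : ℝ × ℝ | |p'.1 - p.1| ≤ 12 ∧ |p'.2 - p.2| ≤ 61}).indicator (S9 b u) p'
      = S9 b u p' * 2928 := by
    intro p'
    have e : ∀ p : ℝ × ℝ, ({p' : ℝ × ℝ | |p'.1 - p.1| ≤ 12 ∧ |p'.2 - p.2| ≤ 61}).indicator (S9 b u) p'
        = S9 b u p' * (({t : ℝ | |p'.1 - t| ≤ 12}).indicator (fun _ => (1:ℝ≥0∞)) p.1 *
          ({t : ℝ | |p'.2 - t| ≤ 61}).indicator (fun _ => (1:ℝ≥0∞)) p.2) := by
      intro p
      by_cases h1 : |p'.1 - p.1| ≤ 12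
      · by_cases h2 : |p'.2 - p.2| ≤ 61
        · rw [Set.indicator_of_mem (by exact ⟨h1, h2⟩), Set.indicator_of_mem (by exact h1),
            Set.indicator_of_mem (by exact h2), mul_one, mul_one]
        · rw [Set.indicator_of_notMem (by exact fun h => h2 h.2), Set.indicator_of_mem (by exact h1),
            Set.indicator_of_notMem (by exact h2), mul_zero, mul_zero]
      · rw [Set.indicator_of_notMem (by exact fun h => h1 h.1), Set.indicator_of_notMem (by exact h1),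
            zero_mul, mul_zero]
    simp_rw [e]
    have m1 : Measurable (({t : ℝ | |p'.1 - t| ≤ 12}).indicator (fun _ => (1:ℝ≥0∞))) :=
      measurable_const.indicator (measurableSet_le (by fun_prop) measurable_const)
    have m2 : Measurable (({t : ℝ | |p'.2 - t| ≤ 61}).indicator (fun _ => (1:ℝ≥0∞))) :=
      measurable_const.indicator (measurableSet_le (by fun_prop) measurable_const)
    rw [lintegral_const_mul _ (by fun_prop), Measure.volume_eq_prod,
      lintegral_prod_mul m1.aemeasurable m2.aemeasurable, lint_ind_abs, lint_ind_abs,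
      ← ENNReal.ofReal_mul (by norm_num)]
    norm_num
  simp_rw [h2]
  rw [lintegral_mul_const _ hS]
  calc (∫⁻ p, S9 b u p) * 2928 ≤ (9 * (ENNReal.ofReal 256 * 225 * (ENNReal.ofReal b * QQ b u))) * 2928 := by
        gcongr
        exact S9_int hb hu
    _ = _ := by ring

end Pool.Agent.H58
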