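import Mathlib
import Pool.Agent.Lib_helper58.Glob2

set_option autoImplicit false

open MeasureTheory
open scoped ENNReal Topology

namespace Pool.Agent.H58

/-- lines near `Q` -/
def LQ (Q : Set (ℝ × ℝ)) : Set (ℝ × ℝ) := {p | ∃ q ∈ Q, |Yst p q| ≤ 1}

theorem al_joint (c : ℝ) {u : ℝ × ℝ → ℝ} (hm : Measurable u) :
    Measurable (fun x : (ℝ × ℝ) × (ℝ × ℝ) =>
      ({v : ℝ × ℝ | |Yst x.1 v| ≤ c}).indicator (fun v => ENNReal.ofReal (u v)) x.2) := by
  have hS : MeasurableSet {x : (ℝ × ℝ) × (ℝ × ℝ) | |Yst x.1 x.2| ≤ c} := by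
    have := Yst_meas
    exact measurableSet_le (by fun_prop) measurable_const
  have h0 : Measurable (fun x : (ℝ × ℝ) × (ℝ × ℝ) => ENNReal.ofReal (u x.2)) := by fun_prop
  exact h0.indicator hS

theorem al_meas (c : ℝ) {u : ℝ × ℝ → ℝ} (hm : Measurable u) : Measurable (al c u) :=
  (al_joint c hm).lintegral_prod_right'

theorem as_meas {u : ℝ × ℝ → ℝ} (hm : Measurable u) : Measurable (as u) := by
  have h := Yst_meas
  have : Measurable (fun x : (ℝ × ℝ) × (ℝ × ℝ) =>
    ENNReal.ofReal (Real.exp (-(|Yst x.1 x.2| / 2))) * ENNReal.ofReal (u x.2)) := by fun_prop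
  exact this.lintegral_prod_right'

theorem lint_exp (s : ℝ) {c : ℝ} (hc : 0 < c) :
    ∫⁻ σ : ℝ, ENNReal.ofReal (Real.exp (-(|σ - s| / c))) = ENNReal.ofReal (2 * c) := by
  rw [lintegral_sub_right_eq_self (fun σ : ℝ => ENNReal.ofReal (Real.exp (-(|σ| / c)))) s]
  have h := lintegral_comp_div (F := fun z : ℝ => ENNReal.ofReal (Real.exp (-|z|))) (by fun_prop) hc
  rw [lintegral_exp_abs] at h
  have e : ∀ x : ℝ, ENNReal.ofReal (Real.exp (-(|x| / c))) = ENNReal.ofReal (Real.exp (-|x / c|)) := by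
    intro x
    rw [abs_div, abs_of_pos hc]
  simp_rw [e]
  rw [h, mul_comm 2 c, ENNReal.ofReal_mul hc.le]
  norm_num

theorem exp_one_le_three : Real.exp 1 ≤ 3 := by
  have := Real.exp_one_lt_d9
  linarith

/-- Claim A. -/
theorem as_le {u : ℝ × ℝ → ℝ} (hm : Measurable u) {q p : ℝ × ℝ} (hs : Sep u q)
    (hq : |Yst p q| ≤ 1) :
    as u p ≤ 9 * ∫⁻ σ, ENNReal.ofReal (Real.exp (-(|σ - p.1| / 4))) * al (1/2) u (σ, q.2 - σ * q.1) := by
  have hj := al_joint (1/2) hm
  have hj2 : Measurable (fun x : ℝ × (ℝ × ℝ) => ENNReal.ofReal (Real.exp (-(|x.1 - p.1| / 4))) *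
      ({v : ℝ × ℝ | |Yst (x.1, q.2 - x.1 * q.1) v| ≤ 1/2}).indicator (fun v => ENNReal.ofReal (u v)) x.2) := by
    have h1 := hj.comp (by fun_prop : Measurable fun x : ℝ × (ℝ × ℝ) =>
      (((x.1, q.2 - x.1 * q.1) : ℝ × ℝ), x.2))
    simp only [Function.comp_def] at h1
    apply Measurable.mul (by fun_prop) h1
  have e1 : ∫⁻ σ, ENNReal.ofReal (Real.exp (-(|σ - p.1| / 4))) * al (1/2) u (σ, q.2 - σ * q.1)
      = ∫⁻ v, ∫⁻ σ, ENNReal.ofReal (Real.exp (-(|σ - p.1| / 4))) *
        ({v : ℝ × ℝ | |Yst (σ, q.2 - σ * q.1) v| ≤ 1/2}).indicator (fun v => ENNReal.ofReal (u v)) v := by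
    have e2 : ∀ σ, ENNReal.ofReal (Real.exp (-(|σ - p.1| / 4))) * al (1/2) u (σ, q.2 - σ * q.1)
      = ∫⁻ v, ENNReal.ofReal (Real.exp (-(|σ - p.1| / 4))) *
        ({v : ℝ × ℝ | |Yst (σ, q.2 - σ * q.1) v| ≤ 1/2}).indicator (fun v => ENNReal.ofReal (u v)) v := by
      intro σ
      rw [al, lintegral_const_mul' _ _ ENNReal.ofReal_ne_top]
    simp_rw [e2]
    rw [lintegral_lintegral_swap (by simp only [Function.uncurry_def]; exact hj2.aemeasurable)]
  rw [e1, as, ← lintegral_const_mul' _ _ (by norm_num)]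
  apply lintegral_mono
  intro v
  simp only
  by_cases hv : u v = 0
  · simp [hv]
  · have hX := hs.2 v hv
    set X := v.1 - q.1 with hXd
    set Yt := v.2 - q.2 - p.1 * X with hYt
    have hYt' : Yt = Yst p v - Yst p q := by simp only [hYt, hXd, Yst]; ring
    have hYb : |Yt| ≤ |Yst p v| + 1 := by
      rw [hYt']; exact (abs_sub _ _).trans (by linarith)
    set c := p.1 + Yt / X with hc
    have hX0 : 0 < X := by linarith [hX.1]
    have key : ENNReal.ofReal (1/9 * Real.exp (-(|Yst p v| / 2))) ≤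
        ∫⁻ σ, ENNReal.ofReal (Real.exp (-(|σ - p.1| / 4))) *
          ({v : ℝ × ℝ | |Yst (σ, q.2 - σ * q.1) v| ≤ 1/2}).indicator (fun _ => (1:ℝ≥0∞)) v := by
      calc ENNReal.ofReal (1/9 * Real.exp (-(|Yst p v| / 2)))
          ≤ ∫⁻ σ in Set.Icc (c - 1/6) (c + 1/6), ENNReal.ofReal (1/3 * Real.exp (-(|Yst p v| / 2))) := by
            rw [setLIntegral_const, Real.volume_Icc, ← ENNReal.ofReal_mul (by positivity)]
            apply ENNReal.ofReal_le_ofReal
            apply le_of_eq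
            ring
        _ ≤ ∫⁻ σ in Set.Icc (c - 1/6) (c + 1/6), ENNReal.ofReal (Real.exp (-(|σ - p.1| / 4))) *
          ({v : ℝ × ℝ | |Yst (σ, q.2 - σ * q.1) v| ≤ 1/2}).indicator (fun _ => (1:ℝ≥0∞)) v := by
            apply setLIntegral_mono' measurableSet_Icc
            intro σ hσ
            have hcs : |c - σ| ≤ 1/6 := by
              rw [abs_le]; constructor <;> linarith [hσ.1, hσ.2]
            have hmem : |Yst (σ, q.2 - σ * q.1) v| ≤ 1/2 := by
              have e : Yst (σ, q.2 - σ * q.1) v = X * (c - σ) := by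
                simp only [Yst, hc, hYt, hXd]
                have : v.1 - q.1 ≠ 0 := hX0.ne'
                field_simp
                ring
              rw [e, abs_mul, abs_of_pos hX0]
              nlinarith [abs_nonneg (c - σ), hX.2]
            rw [Set.indicator_of_mem (by exact hmem), mul_one]
            apply ENNReal.ofReal_le_ofReal
            have h1 : |σ - p.1| ≤ 2 * |Yt| + 1/6 := by
              have e : σ - p.1 = Yt / X - (c - σ) := by rw [hc]; ring
              rw [e]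
              refine (abs_sub _ _).trans ?_
              have : |Yt / X| ≤ 2 * |Yt| := by
                rw [abs_div, abs_of_pos hX0, div_le_iff₀ hX0]
                nlinarith [abs_nonneg Yt, hX.1]
              linarith
            have h2 : -(|Yst p v| / 2) - 1 ≤ -(|σ - p.1| / 4) := by linarith
            calc 1/3 * Real.exp (-(|Yst p v| / 2)) ≤ Real.exp (-1) * Real.exp (-(|Yst p v| / 2)) := by
                  gcongr
                  rw [Real.exp_neg, one_div]
                  exact inv_anti₀ (Real.exp_pos 1) exp_one_le_three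
              _ = Real.exp (-(|Yst p v| / 2) - 1) := by rw [← Real.exp_add]; congr 1; ring
              _ ≤ _ := Real.exp_le_exp.2 h2
        _ ≤ _ := setLIntegral_le_lintegral _ _
    have e3 : ∀ σ, ENNReal.ofReal (Real.exp (-(|σ - p.1| / 4))) *
        ({v : ℝ × ℝ | |Yst (σ, q.2 - σ * q.1) v| ≤ 1/2}).indicator (fun v => ENNReal.ofReal (u v)) v
        = (ENNReal.ofReal (Real.exp (-(|σ - p.1| / 4))) *
          ({v : ℝ × ℝ | |Yst (σ, q.2 - σ * q.1) v| ≤ 1/2}).indicator (fun _ => (1:ℝ≥0∞)) v) *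
            ENNReal.ofReal (u v) := by
      intro σ
      by_cases h : |Yst (σ, q.2 - σ * q.1) v| ≤ 1/2
      · rw [Set.indicator_of_mem (by exact h), Set.indicator_of_mem (by exact h)]; ring
      · rw [Set.indicator_of_notMem (by exact h), Set.indicator_of_notMem (by exact h)]; ring
    simp_rw [e3]
    rw [lintegral_mul_const' _ _ ENNReal.ofReal_ne_top]
    have e9 : ENNReal.ofReal (Real.exp (-(|Yst p v| / 2)))
        = 9 * ENNReal.ofReal (1/9 * Real.exp (-(|Yst p v| / 2))) := by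
      rw [show (9:ℝ≥0∞) = ENNReal.ofReal 9 by norm_num,
        ← ENNReal.ofReal_mul (by norm_num : (0:ℝ) ≤ 9)]
      congr 1
      ring
    calc ENNReal.ofReal (Real.exp (-(|Yst p v| / 2))) * ENNReal.ofReal (u v)
        = 9 * (ENNReal.ofReal (1/9 * Real.exp (-(|Yst p v| / 2))) * ENNReal.ofReal (u v)) := by
          rw [e9, mul_assoc]
      _ ≤ _ := by gcongr

open Classical in
/-- kernel -/
noncomputable def Kp (p p' : ℝ × ℝ) : ℝ≥0∞ := ENNReal.ofReal (Real.exp (-(|p'.1 - p.1| / 4))) *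
  (if |p'.2 - p.2| ≤ 2 + 4 * |p'.1 - p.1| then 1 else 0)

theorem Kp_meas : Measurable (fun x : (ℝ × ℝ) × (ℝ × ℝ) => Kp x.1 x.2) := by
  unfold Kp
  apply Measurable.mul (by fun_prop)
  exact Measurable.ite (measurableSet_le (by fun_prop) (by fun_prop)) measurable_const measurable_const

theorem Kp_meas_left (p' : ℝ × ℝ) : Measurable (fun p : ℝ × ℝ => Kp p p') := by
  have h := Kp_meas.comp (by fun_prop : Measurable fun p : ℝ × ℝ => (p, p'))
  simp only [Function.comp_def] at h
  exact h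

theorem Kp_meas_right (p : ℝ × ℝ) : Measurable (fun p' : ℝ × ℝ => Kp p p') := by
  have h := Kp_meas.comp (by fun_prop : Measurable fun p' : ℝ × ℝ => (p, p'))
  simp only [Function.comp_def] at h
  exact h

open Classical in
theorem lint_ite_abs (a r : ℝ) : ∫⁻ t : ℝ, (if |a - t| ≤ r then (1:ℝ≥0∞) else 0) = ENNReal.ofReal (2 * r) := by
  rw [← lint_ind_abs a r]
  apply lintegral_congr
  intro t
  by_cases h : |a - t| ≤ r
  · rw [if_pos h, Set.indicator_of_mem (by exact h)]
  · rw [if_neg h, Set.indicator_of_notMem (by exact h)]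

theorem Kp_int (p' : ℝ × ℝ) : ∫⁻ p, Kp p p' ≤ 1088 := by
  have hm := Kp_meas_left p'
  rw [Measure.volume_eq_prod, lintegral_prod _ hm.aemeasurable]
  have h1 : ∀ s : ℝ, ∫⁻ t, Kp (s, t) p' ≤ 68 * ENNReal.ofReal (Real.exp (-(|s - p'.1| / 8))) := by
    intro s
    simp only [Kp]
    rw [lintegral_const_mul' _ _ ENNReal.ofReal_ne_top, lint_ite_abs,
      ← ENNReal.ofReal_mul (Real.exp_pos _).le, show (68:ℝ≥0∞) = ENNReal.ofReal 68 by norm_num,
      ← ENNReal.ofReal_mul (by norm_num)]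
    apply ENNReal.ofReal_le_ofReal
    rw [abs_sub_comm p'.1 s]
    set z := |s - p'.1| with hz
    have hz0 : 0 ≤ z := abs_nonneg _
    have e1 : Real.exp (-(z / 4)) = Real.exp (-(z / 8)) * Real.exp (-(z / 8)) := by
      rw [← Real.exp_add]; congr 1; ring
    have e2 : Real.exp (-(z / 8)) * Real.exp (z / 8) = 1 := by
      rw [← Real.exp_add]; simp
    have e3 : z / 8 + 1 ≤ Real.exp (z / 8) := Real.add_one_le_exp _
    have e4 : 0 < Real.exp (-(z / 8)) := Real.exp_pos _
    have e5 : 2 * (2 + 4 * z) ≤ 68 * Real.exp (z / 8) := by nlinarith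
    calc Real.exp (-(z / 4)) * (2 * (2 + 4 * z))
        = Real.exp (-(z / 8)) * (Real.exp (-(z / 8)) * (2 * (2 + 4 * z))) := by rw [e1]; ring
      _ ≤ Real.exp (-(z / 8)) * (Real.exp (-(z / 8)) * (68 * Real.exp (z / 8))) := by gcongr
      _ = Real.exp (-(z / 8)) * (68 * (Real.exp (-(z / 8)) * Real.exp (z / 8))) := by ring
      _ = 68 * Real.exp (-(z / 8)) := by rw [e2]; ring
  calc ∫⁻ s, ∫⁻ t, Kp (s, t) p' ≤ ∫⁻ s, 68 * ENNReal.ofReal (Real.exp (-(|s - p'.1| / 8))) :=
        lintegral_mono h1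
    _ = 1088 := by
        rw [lintegral_const_mul' _ _ (by norm_num), lint_exp _ (by norm_num)]
        norm_num

open Classical in
/-- Claims B and C. -/
theorem as_sq_le {u : ℝ × ℝ → ℝ} (hm : Measurable u) {Q : Set (ℝ × ℝ)} (hL : MeasurableSet (LQ Q))
    {q p : ℝ × ℝ} (hqQ : q ∈ Q) (hs : Sep u q) (hq : |Yst p q| ≤ 1) :
    as u p ^ 2 ≤ 648 * ∫⁻ p', Kp p p' * (LQ Q).indicator (fun p => al 1 u p ^ 2) p' := by
  have halm := al_meas (1/2) hm
  have halm1 := al_meas 1 hm
  set G : ℝ × ℝ → ℝ≥0∞ := (LQ Q).indicator (fun p => al 1 u p ^ 2) with hG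
  have hGm : Measurable G := by
    apply Measurable.indicator _ hL
    fun_prop
  set f : ℝ → ℝ≥0∞ := fun σ => ENNReal.ofReal (Real.exp (-(|σ - p.1| / 8))) with hf
  have hfm : Measurable f := by fun_prop
  have hf2 : ∀ σ, f σ ^ 2 = ENNReal.ofReal (Real.exp (-(|σ - p.1| / 4))) := by
    intro σ
    simp only [hf]
    rw [← ENNReal.ofReal_pow (Real.exp_pos _).le, ← Real.exp_nat_mul]
    congr 2
    push_cast
    ring
  have hB : (∫⁻ σ, ENNReal.ofReal (Real.exp (-(|σ - p.1| / 4))) * al (1/2) u (σ, q.2 - σ * q.1)) ^ 2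
      ≤ 8 * ∫⁻ σ, ENNReal.ofReal (Real.exp (-(|σ - p.1| / 4))) * al (1/2) u (σ, q.2 - σ * q.1) ^ 2 := by
    have h := cs (volume : Measure ℝ) (f := f) (g := fun σ => f σ * al (1/2) u (σ, q.2 - σ * q.1))
      hfm.aemeasurable (by
        apply Measurable.aemeasurable
        fun_prop)
    simp only [mul_pow, hf2] at h
    have e1 : ∀ σ, f σ * (f σ * al (1/2) u (σ, q.2 - σ * q.1))
      = ENNReal.ofReal (Real.exp (-(|σ - p.1| / 4))) * al (1/2) u (σ, q.2 - σ * q.1) := by
      intro σ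
      rw [← hf2]; ring
    simp_rw [e1] at h
    rw [lint_exp _ (by norm_num)] at h
    norm_num at h
    norm_num
    exact h
  have hC : ∀ σ, al (1/2) u (σ, q.2 - σ * q.1) ^ 2 ≤
      ∫⁻ t', (if |t' - p.2| ≤ 2 + 4 * |σ - p.1| then 1 else 0) * G (σ, t') := by
    intro σ
    set tσ := q.2 - σ * q.1 with htσ
    calc al (1/2) u (σ, tσ) ^ 2 = ∫⁻ t' in Set.Icc (tσ - 1/2) (tσ + 1/2), al (1/2) u (σ, tσ) ^ 2 := by
          rw [setLIntegral_const, Real.volume_Icc]
          have : tσ + 1/2 - (tσ - 1/2) = 1 := by ring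
          rw [this]; simp
      _ ≤ ∫⁻ t' in Set.Icc (tσ - 1/2) (tσ + 1/2),
          (if |t' - p.2| ≤ 2 + 4 * |σ - p.1| then 1 else 0) * G (σ, t') := by
          apply setLIntegral_mono' measurableSet_Icc
          intro t' ht'
          have h1 : |tσ - t'| ≤ 1/2 := by
            rw [abs_le]; constructor <;> linarith [ht'.1, ht'.2]
          have h2 : |t' - p.2| ≤ 2 + 4 * |σ - p.1| := by
            have e : t' - p.2 = Yst p q - (σ - p.1) * q.1 - (tσ - t') := by
              simp only [Yst, htσ]; ring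
            rw [e]
            refine (abs_sub _ _).trans ?_
            refine (add_le_add (abs_sub _ _) le_rfl).trans ?_
            rw [abs_mul]
            nlinarith [abs_nonneg (σ - p.1), hs.1]
          have h3 : (σ, t') ∈ LQ Q := by
            refine ⟨q, hqQ, ?_⟩
            have e : Yst (σ, t') q = tσ - t' := by simp only [Yst, htσ]
            rw [e]; linarith
          rw [if_pos h2, one_mul, hG, Set.indicator_of_mem h3]
          have h4 : al (1/2) u (σ, tσ) ≤ al 1 u (σ, t') := by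
            unfold al
            apply lintegral_mono
            intro v
            simp only
            by_cases h : |Yst (σ, tσ) v| ≤ 1/2
            · have h' : |Yst (σ, t') v| ≤ 1 := by
                have e : Yst (σ, t') v = Yst (σ, tσ) v + (tσ - t') := by simp only [Yst]; ring
                rw [e]
                exact (abs_add_le _ _).trans (by linarith)
              rw [Set.indicator_of_mem (by exact h), Set.indicator_of_mem (by exact h')]
            · rw [Set.indicator_of_notMem (by exact h)]; exact zero_le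
          gcongr
      _ ≤ _ := setLIntegral_le_lintegral _ _
  calc as u p ^ 2 ≤ (9 * ∫⁻ σ, ENNReal.ofReal (Real.exp (-(|σ - p.1| / 4))) * al (1/2) u (σ, q.2 - σ * q.1)) ^ 2 := by
        gcongr
        exact as_le hm hs hq
    _ = 81 * (∫⁻ σ, ENNReal.ofReal (Real.exp (-(|σ - p.1| / 4))) * al (1/2) u (σ, q.2 - σ * q.1)) ^ 2 := by
        rw [mul_pow]; norm_num
    _ ≤ 81 * (8 * ∫⁻ σ, ENNReal.ofReal (Real.exp (-(|σ - p.1| / 4))) * al (1/2) u (σ, q.2 - σ * q.1) ^ 2) := by
        gcongr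
    _ ≤ 81 * (8 * ∫⁻ σ, ENNReal.ofReal (Real.exp (-(|σ - p.1| / 4))) *
          ∫⁻ t', (if |t' - p.2| ≤ 2 + 4 * |σ - p.1| then 1 else 0) * G (σ, t')) := by
        gcongr with σ
        exact hC σ
    _ = 648 * ∫⁻ p', Kp p p' * G p' := by
        rw [← mul_assoc]
        norm_num
        have hKm : Measurable (fun p' => Kp p p' * G p') := (Kp_meas_right p).mul hGm
        rw [Measure.volume_eq_prod, lintegral_prod _ hKm.aemeasurable]
        congr 1
        apply lintegral_congr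
        intro σ
        rw [← lintegral_const_mul' _ _ ENNReal.ofReal_ne_top]
        apply lintegral_congr
        intro t'
        by_cases h : |t' - p.2| ≤ 2 + 4 * |σ - p.1|
        · simp [Kp, h]
        · simp [Kp, h]

/-- Absorption. -/
theorem absorb {u : ℝ × ℝ → ℝ} (hm : Measurable u) {Q : Set (ℝ × ℝ)} (hL : MeasurableSet (LQ Q))
    (hs : ∀ q ∈ Q, Sep u q) :
    ∫⁻ p in LQ Q, as u p ^ 2 ≤ (648 * 1088) * ∫⁻ p in LQ Q, al 1 u p ^ 2 := by
  have halm1 := al_meas 1 hm
  set G : ℝ × ℝ → ℝ≥0∞ := (LQ Q).indicator (fun p => al 1 u p ^ 2) with hG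
  have hGm : Measurable G := by
    apply Measurable.indicator _ hL
    fun_prop
  have hj : Measurable (fun x : (ℝ × ℝ) × (ℝ × ℝ) => Kp x.1 x.2 * G x.2) := by
    have := Kp_meas
    fun_prop
  calc ∫⁻ p in LQ Q, as u p ^ 2 ≤ ∫⁻ p in LQ Q, 648 * ∫⁻ p', Kp p p' * G p' := by
        apply setLIntegral_mono' hL
        rintro p ⟨q, hqQ, hq⟩
        exact as_sq_le hm hL hqQ (hs q hqQ) hq
    _ ≤ ∫⁻ p, 648 * ∫⁻ p', Kp p p' * G p' := setLIntegral_le_lintegral _ _
    _ = 648 * ∫⁻ p, ∫⁻ p', Kp p p' * G p' := by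
        rw [lintegral_const_mul' _ _ (by norm_num)]
    _ = 648 * ∫⁻ p', ∫⁻ p, Kp p p' * G p' := by
        rw [lintegral_lintegral_swap hj.aemeasurable]
    _ ≤ 648 * ∫⁻ p', 1088 * G p' := by
        gcongr with p'
        rw [lintegral_mul_const _ (Kp_meas_left p')]
        gcongr
        exact Kp_int p'
    _ = (648 * 1088) * ∫⁻ p in LQ Q, al 1 u p ^ 2 := by
        rw [lintegral_const_mul' _ _ (by norm_num), hG, lintegral_indicator hL, mul_assoc]

end Pool.Agent.H58
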