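import Mathlib
import Pool.Agent.Lib_helper58.Glob3

set_option autoImplicit false

open MeasureTheory
open scoped ENNReal Topology

namespace Pool.Agent.H58

theorem LQ_closed {Q : Set (ℝ × ℝ)} (hQ : IsCompact Q) : IsClosed (LQ Q) := by
  have : CompactSpace Q := isCompact_iff_compactSpace.1 hQ
  have hc : IsClosed {x : (ℝ × ℝ) × Q | |Yst x.1 x.2| ≤ 1} := by
    apply isClosed_le _ continuous_const
    unfold Yst
    fun_prop
  have h := (isClosedMap_fst_of_compactSpace (X := ℝ × ℝ) (Y := Q)) _ hc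
  have e : LQ Q = Prod.fst '' {x : (ℝ × ℝ) × Q | |Yst x.1 x.2| ≤ 1} := by
    ext p
    constructor
    · rintro ⟨q, hq, h⟩
      exact ⟨(p, ⟨q, hq⟩), h, rfl⟩
    · rintro ⟨⟨p', q⟩, h, rfl⟩
      exact ⟨q.1, q.2, h⟩
  rw [e]
  exact h

theorem al_sq_finite {u : ℝ × ℝ → ℝ} {H : ℝ} (hu : Glo u H) {Q : Set (ℝ × ℝ)} (hQ : IsCompact Q)
    (hs : ∀ q ∈ Q, Sep u q) : ∫⁻ p in LQ Q, al 1 u p ^ 2 ≠ ⊤ := by
  obtain ⟨Hq, hHq⟩ := (hQ.image continuous_snd).isBounded.exists_norm_le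
  have hHq' : ∀ q ∈ Q, |q.2| ≤ |Hq| := by
    intro q hq
    have := hHq q.2 ⟨q, hq, rfl⟩
    rw [Real.norm_eq_abs] at this
    exact this.trans (le_abs_self _)
  set S := 2 * (2 + |H| + |Hq|) with hS
  set T := 1 + |Hq| + 4 * S with hT
  set m : ℝ≥0∞ := ∫⁻ v, ENNReal.ofReal (u v) with hm
  have hmfin : m ≠ ⊤ := by
    have := hu.integrable.lintegral_lt_top
    exact this.ne
  have hbound : ∀ p ∈ LQ Q, al 1 u p ^ 2 ≤
      (Set.Icc (-S) S ×ˢ Set.Icc (-T) T).indicator (fun _ => m ^ 2) p := by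
    rintro p ⟨q, hq, hpq⟩
    by_cases hp : p ∈ Set.Icc (-S) S ×ˢ Set.Icc (-T) T
    · rw [Set.indicator_of_mem hp]
      gcongr
      unfold al
      rw [hm]
      apply lintegral_mono
      intro v
      exact Set.indicator_le_self _ _ _
    · rw [Set.indicator_of_notMem hp]
      have hz : ∀ v, ({v : ℝ × ℝ | |Yst p v| ≤ 1}).indicator (fun v => ENNReal.ofReal (u v)) v = 0 := by
        intro v
        by_cases hv : |Yst p v| ≤ 1
        · rw [Set.indicator_of_mem (by exact hv)]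
          by_cases huv : u v = 0
          · simp [huv]
          · exfalso
            apply hp
            have hsep := (hs q hq).2 v huv
            have hvy := hu.suppy v huv
            have e : p.1 * (v.1 - q.1) = (v.2 - q.2) - Yst p v + Yst p q := by
              simp only [Yst]; ring
            have h1 : |p.1 * (v.1 - q.1)| ≤ |H| + |Hq| + 2 := by
              rw [e]
              refine (abs_add_le _ _).trans ?_
              refine (add_le_add (abs_sub _ _) le_rfl).trans ?_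
              have := abs_sub v.2 q.2
              have h2 := hHq' q hq
              have h3 := le_abs_self H
              linarith
            rw [abs_mul, abs_of_pos (by linarith [hsep.1] : 0 < v.1 - q.1)] at h1
            have h2 : |p.1| ≤ S := by
              rw [hS]
              nlinarith [abs_nonneg p.1, hsep.1]
            have e2 : p.2 = q.2 - p.1 * q.1 - Yst p q := by simp only [Yst]; ring
            have h3 : |p.2| ≤ T := by
              rw [e2]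
              refine (abs_sub _ _).trans ?_
              refine (add_le_add (abs_sub _ _) le_rfl).trans ?_
              rw [abs_mul, hT]
              have h4 := hHq' q hq
              have h5 := (hs q hq).1
              have h6 : |p.1| * |q.1| ≤ S * 4 := mul_le_mul h2 h5 (abs_nonneg _) ((abs_nonneg _).trans h2)
              linarith
            rw [Set.mem_prod, Set.mem_Icc, Set.mem_Icc, ← abs_le, ← abs_le]
            exact ⟨h2, h3⟩
        · rw [Set.indicator_of_notMem (by exact hv)]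
      have : al 1 u p = 0 := by
        unfold al
        simp_rw [hz]
        simp
      rw [this]; simp
  have hmeas : MeasurableSet (Set.Icc (-S) S ×ˢ Set.Icc (-T) T) := measurableSet_Icc.prod measurableSet_Icc
  have hlt : ∫⁻ p in LQ Q, al 1 u p ^ 2 < ⊤ := by
    calc ∫⁻ p in LQ Q, al 1 u p ^ 2
        ≤ ∫⁻ p in LQ Q, (Set.Icc (-S) S ×ˢ Set.Icc (-T) T).indicator (fun _ => m ^ 2) p :=
          setLIntegral_mono' (LQ_closed hQ).measurableSet hbound
      _ ≤ ∫⁻ p, (Set.Icc (-S) S ×ˢ Set.Icc (-T) T).indicator (fun _ => m ^ 2) p :=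
          setLIntegral_le_lintegral _ _
      _ = m ^ 2 * volume (Set.Icc (-S) S ×ˢ Set.Icc (-T) T) := by
          rw [lintegral_indicator hmeas, setLIntegral_const]
      _ < ⊤ := by
          rw [Measure.volume_eq_prod, Measure.prod_prod, Real.volume_Icc, Real.volume_Icc]
          exact ENNReal.mul_lt_top (ENNReal.pow_lt_top hmfin.lt_top)
            (ENNReal.mul_lt_top ENNReal.ofReal_lt_top ENNReal.ofReal_lt_top)
  exact hlt.ne

theorem two_pow_bj (j : ℕ) : (2:ℝ≥0∞) ^ j * ENNReal.ofReal (bj j) = 2⁻¹ ^ j := by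
  have h1 : ENNReal.ofReal (bj j) = 2⁻¹ ^ j * 2⁻¹ ^ j := by
    unfold bj
    rw [ENNReal.ofReal_pow (by norm_num), ← mul_pow]
    congr 1
    rw [one_div, ENNReal.ofReal_inv_of_pos (by norm_num)]
    rw [← ENNReal.mul_inv (Or.inl (by norm_num)) (Or.inl (by norm_num))]
    norm_num
  rw [h1, ← mul_assoc, ← mul_pow, ENNReal.mul_inv_cancel (by norm_num) (by norm_num), one_pow, one_mul]

/-- Main lemma at scale 1. -/
theorem main_lemma : ∃ C : ℝ≥0∞, C ≠ ⊤ ∧ ∀ (u : ℝ × ℝ → ℝ) (H ε : ℝ) (Q : Set (ℝ × ℝ)), Glo u H → 0 < ε →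
    IsCompact Q → (∀ q ∈ Q, Sep u q) → (∀ q ∈ Q, Avo u ε q) →
    ∫⁻ p in LQ Q, al 1 u p ^ 2 ≤ C * ∑' j : ℕ, 2⁻¹ ^ j * QQ (bj j) u := by
  obtain ⟨C0, hC0, hloc⟩ := local_ineq
  set A : ℝ≥0∞ := ENNReal.ofReal (Real.exp (1/2)) ^ 2 * (648 * 1088) with hA
  have hAt : A ≠ ⊤ := ENNReal.mul_ne_top (ENNReal.pow_ne_top ENNReal.ofReal_ne_top)
    (ENNReal.mul_ne_top (by norm_num) (by norm_num))
  set B : ℝ≥0∞ := 8 + 1536 * (2928 * (9 * (ENNReal.ofReal 256 * 225))) with hB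
  have hBt : B ≠ ⊤ := by
    rw [hB]
    refine ENNReal.add_ne_top.2 ⟨by norm_num, ?_⟩
    refine ENNReal.mul_ne_top (by norm_num) (ENNReal.mul_ne_top (by norm_num) (ENNReal.mul_ne_top (by norm_num)
      (ENNReal.mul_ne_top ENNReal.ofReal_ne_top (by norm_num))))
  set l : ℝ≥0∞ := (1 + 2 * (C0 * A))⁻¹ with hl
  have hden : (1 + 2 * (C0 * A)) ≠ ⊤ :=
    ENNReal.add_ne_top.2 ⟨by norm_num, ENNReal.mul_ne_top (by norm_num) (ENNReal.mul_ne_top hC0 hAt)⟩
  have hl0 : l ≠ 0 := ENNReal.inv_ne_zero.2 hden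
  have hl1 : l ≤ 1 := by
    rw [hl, ENNReal.inv_le_one]
    exact le_self_add
  have hlt : l ≠ ⊤ := ne_top_of_le_ne_top ENNReal.one_ne_top hl1
  have hlinv : l⁻¹ ≠ ⊤ := ENNReal.inv_ne_top.2 hl0
  have hlC : C0 * (l * A) ≤ 2⁻¹ := by
    have h1 : l * (1 + 2 * (C0 * A)) ≤ 1 := by
      rw [hl]; exact ENNReal.inv_mul_le_one _
    have h2 : 2 * (C0 * (l * A)) ≤ 1 := by
      calc 2 * (C0 * (l * A)) = l * (2 * (C0 * A)) := by ring
        _ ≤ l * (1 + 2 * (C0 * A)) := by gcongr; exact le_add_self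
        _ ≤ 1 := h1
    calc C0 * (l * A) = 2⁻¹ * (2 * (C0 * (l * A))) := by
          rw [← mul_assoc 2⁻¹ 2, ENNReal.inv_mul_cancel (by norm_num) (by norm_num), one_mul]
      _ ≤ 2⁻¹ * 1 := by gcongr
      _ = 2⁻¹ := mul_one _
  refine ⟨2 * (C0 * (l⁻¹ * B)), ?_, ?_⟩
  · exact ENNReal.mul_ne_top (by norm_num) (ENNReal.mul_ne_top hC0 (ENNReal.mul_ne_top hlinv hBt))
  intro u H ε Q hu hε hQ hs ha
  have hm := hu.meas
  have hL := (LQ_closed hQ).measurableSet
  set I := ∫⁻ p in LQ Q, al 1 u p ^ 2 with hI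
  have hIfin : I ≠ ⊤ := al_sq_finite hu hQ hs
  have hasm := as_meas hm
  have hpt : ∀ p ∈ LQ Q, al 1 u p ^ 2 ≤ C0 * (l * (ENNReal.ofReal (Real.exp (1/2)) ^ 2 * as u p ^ 2)
      + l⁻¹ * ∑' j : ℕ, (2⁻¹ ^ j * e1 (bj j) u p + 2 ^ j * (1536 * e2 (bj j) u p))) := by
    rintro p ⟨q, hq, hpq⟩
    have h1 := hloc (ww u q p.1) _ ε (ww_loc hu (hs q hq) p.1) hε (ww_avo (ha q hq) p.1) l hl0 hl1
    calc al 1 u p ^ 2 ≤ (∫⁻ v in {v : ℝ × ℝ | |v.2| ≤ 2}, ENNReal.ofReal (ww u q p.1 v)) ^ 2 := by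
          gcongr
          exact al_le hm hpq
      _ ≤ _ := h1
      _ ≤ _ := by
          rw [← mul_pow]
          refine mul_le_mul' le_rfl (add_le_add (mul_le_mul' le_rfl ?_) (mul_le_mul' le_rfl ?_))
          · gcongr
            exact aStar_le hm hpq
          · apply ENNReal.tsum_le_tsum
            intro j
            refine add_le_add (mul_le_mul' le_rfl ?_) (mul_le_mul' le_rfl ?_)
            · exact E1_le hm hpq
            · exact E2_le hu (hs q hq).1 hpq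
  have he1m := fun j => e1_meas (bj j) hm
  have he2m : ∀ j, Measurable (e2 (bj j) u) := by
    intro j
    have hS := S9_meas (bj j) hm
    have hset : MeasurableSet {x : (ℝ × ℝ) × (ℝ × ℝ) | |x.2.1 - x.1.1| ≤ 12 ∧ |x.2.2 - x.1.2| ≤ 61} := by
      have h1 : MeasurableSet {x : (ℝ × ℝ) × (ℝ × ℝ) | |x.2.1 - x.1.1| ≤ 12} :=
        measurableSet_le (by fun_prop) measurable_const
      have h2 : MeasurableSet {x : (ℝ × ℝ) × (ℝ × ℝ) | |x.2.2 - x.1.2| ≤ 61} :=
        measurableSet_le (by fun_prop) measurable_const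
      exact h1.inter h2
    have hj : Measurable (fun x : (ℝ × ℝ) × (ℝ × ℝ) =>
        ({p' : ℝ × ℝ | |p'.1 - x.1.1| ≤ 12 ∧ |p'.2 - x.1.2| ≤ 61}).indicator (S9 (bj j) u) x.2) := by
      have : Measurable (fun x : (ℝ × ℝ) × (ℝ × ℝ) => S9 (bj j) u x.2) := by fun_prop
      exact this.indicator hset
    exact hj.lintegral_prod_right'
  have hmain : I ≤ C0 * (l * (ENNReal.ofReal (Real.exp (1/2)) ^ 2 * ∫⁻ p in LQ Q, as u p ^ 2)
      + l⁻¹ * ∑' j : ℕ, (2⁻¹ ^ j * (∫⁻ p, e1 (bj j) u p) + 2 ^ j * (1536 * ∫⁻ p, e2 (bj j) u p))) := by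
    calc I ≤ ∫⁻ p in LQ Q, C0 * (l * (ENNReal.ofReal (Real.exp (1/2)) ^ 2 * as u p ^ 2)
      + l⁻¹ * ∑' j : ℕ, (2⁻¹ ^ j * e1 (bj j) u p + 2 ^ j * (1536 * e2 (bj j) u p))) :=
          setLIntegral_mono' hL hpt
      _ = C0 * (l * (ENNReal.ofReal (Real.exp (1/2)) ^ 2 * ∫⁻ p in LQ Q, as u p ^ 2)
        + l⁻¹ * ∑' j : ℕ, (2⁻¹ ^ j * (∫⁻ p in LQ Q, e1 (bj j) u p) + 2 ^ j * (1536 * ∫⁻ p in LQ Q, e2 (bj j) u p))) := by
          rw [lintegral_const_mul' _ _ hC0, lintegral_add_left (by fun_prop),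
            lintegral_const_mul' _ _ hlt, lintegral_const_mul' _ _ (ENNReal.pow_ne_top ENNReal.ofReal_ne_top),
            lintegral_const_mul' _ _ hlinv, lintegral_tsum (fun j => by
              have := he1m j
              have := he2m j
              fun_prop)]
          congr 3
          apply tsum_congr
          intro j
          have h1 := he1m j
          have h2 := he2m j
          rw [lintegral_add_left (by fun_prop), lintegral_const_mul _ h1,
            lintegral_const_mul _ (by fun_prop), lintegral_const_mul _ h2]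
      _ ≤ _ := by
          refine mul_le_mul' le_rfl (add_le_add le_rfl (mul_le_mul' le_rfl ?_))
          apply ENNReal.tsum_le_tsum
          intro j
          refine add_le_add (mul_le_mul' le_rfl ?_) (mul_le_mul' le_rfl (mul_le_mul' le_rfl ?_))
          · exact setLIntegral_le_lintegral _ _
          · exact setLIntegral_le_lintegral _ _
  have hR : ∑' j : ℕ, (2⁻¹ ^ j * (∫⁻ p, e1 (bj j) u p) + 2 ^ j * (1536 * ∫⁻ p, e2 (bj j) u p))
      ≤ B * ∑' j : ℕ, 2⁻¹ ^ j * QQ (bj j) u := by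
    rw [← ENNReal.tsum_mul_left]
    apply ENNReal.tsum_le_tsum
    intro j
    calc 2⁻¹ ^ j * (∫⁻ p, e1 (bj j) u p) + 2 ^ j * (1536 * ∫⁻ p, e2 (bj j) u p)
        ≤ 2⁻¹ ^ j * (8 * QQ (bj j) u) + 2 ^ j * (1536 * ((2928 * (9 * (ENNReal.ofReal 256 * 225))) *
            (ENNReal.ofReal (bj j) * QQ (bj j) u))) := by
          refine add_le_add (mul_le_mul' le_rfl ?_) (mul_le_mul' le_rfl (mul_le_mul' le_rfl ?_))
          · exact e1_int (bj_pos j) hu.good
          · exact e2_int (bj_pos j) hu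
      _ = 2⁻¹ ^ j * (8 * QQ (bj j) u) + (1536 * (2928 * (9 * (ENNReal.ofReal 256 * 225)))) *
            ((2 ^ j * ENNReal.ofReal (bj j)) * QQ (bj j) u) := by ring
      _ = B * (2⁻¹ ^ j * QQ (bj j) u) := by
          rw [two_pow_bj, hB]; ring
  have habs := absorb hm hL hs
  have hfin : I ≤ 2⁻¹ * I + C0 * (l⁻¹ * B) * ∑' j : ℕ, 2⁻¹ ^ j * QQ (bj j) u := by
    calc I ≤ _ := hmain
      _ ≤ C0 * (l * (ENNReal.ofReal (Real.exp (1/2)) ^ 2 * ((648 * 1088) * I))
          + l⁻¹ * (B * ∑' j : ℕ, 2⁻¹ ^ j * QQ (bj j) u)) := by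
          refine mul_le_mul' le_rfl (add_le_add (mul_le_mul' le_rfl (mul_le_mul' le_rfl ?_))
            (mul_le_mul' le_rfl hR))
          exact habs
      _ = (C0 * (l * A)) * I + C0 * (l⁻¹ * B) * ∑' j : ℕ, 2⁻¹ ^ j * QQ (bj j) u := by
          rw [hA]; ring
      _ ≤ _ := by gcongr
  have hhalf : 2⁻¹ * I + 2⁻¹ * I = I := by
    rw [← add_mul, ENNReal.inv_two_add_inv_two, one_mul]
  have h2 : 2⁻¹ * I ≤ C0 * (l⁻¹ * B) * ∑' j : ℕ, 2⁻¹ ^ j * QQ (bj j) u := by
    have hne : 2⁻¹ * I ≠ ⊤ := ENNReal.mul_ne_top (by norm_num) hIfin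
    rw [← ENNReal.add_le_add_iff_left hne, hhalf]
    exact hfin
  calc I = 2 * (2⁻¹ * I) := by
        rw [← mul_assoc, ENNReal.mul_inv_cancel (by norm_num) (by norm_num), one_mul]
    _ ≤ 2 * (C0 * (l⁻¹ * B) * ∑' j : ℕ, 2⁻¹ ^ j * QQ (bj j) u) := by gcongr
    _ = _ := by ring

end Pool.Agent.H58
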