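import Mathlib
import Pool.Agent.Lib_helper58.MainL

set_option autoImplicit false

open MeasureTheory FourierTransform
open scoped ENNReal Topology

namespace Pool.Agent.H58

theorem Good.rho_int {u : ℝ × ℝ → ℝ} {M : ℝ} (hu : Good u M) :
    ∫⁻ ζ, rho u ζ = ∫⁻ v, ‖u v‖ₑ ^ 2 := by
  have hm := hu.meas
  have hft := ft_meas hm
  unfold rho
  have hsw : AEMeasurable (Function.uncurry fun ζ x => ‖ft u x ζ‖ₑ ^ 2) (volume.prod volume) := by
    apply Measurable.aemeasurable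
    simp only [Function.uncurry_def]
    have h1 := hft.comp measurable_swap
    simp only [Function.comp_def, Prod.fst_swap, Prod.snd_swap] at h1
    exact h1.enorm.pow_const 2
  rw [lintegral_lintegral_swap hsw]
  have h1 : ∀ x, ∫⁻ ζ, ‖ft u x ζ‖ₑ ^ 2 = ∫⁻ y, ‖u (x, y)‖ₑ ^ 2 := by
    intro x
    have hi : Integrable (fun y => ((u (x, y) : ℝ) : ℂ)) := (hu.integrable_slice x).ofReal
    have h2 : MemLp (fun y => ((u (x, y) : ℝ) : ℂ)) 2 :=
      memLp_two_of_bdd hi (C := M) (fun y => by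
        rw [Complex.norm_real]; exact hu.bdd _)
    have := plancherel _ hi h2
    unfold ft
    rw [this]
    apply lintegral_congr
    intro y
    congr 1
    rw [← ofReal_norm, ← ofReal_norm, Complex.norm_real]
  simp_rw [h1]
  rw [Measure.volume_eq_prod, lintegral_prod]
  exact (hm.enorm.pow_const 2).aemeasurable

/-- the area-preserving dilation -/
noncomputable def dl (d : ℝ) (v : ℝ × ℝ) : ℝ × ℝ := (d * v.1, v.2 / d)

theorem ft_dl {d : ℝ} (hd : 0 < d) (u : ℝ × ℝ → ℝ) (x ζ : ℝ) :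
    ft (fun v => u (dl d v)) x ζ = (d : ℂ) * ft u (d * x) (d * ζ) := by
  unfold ft dl
  rw [Real.fourier_real_eq, Real.fourier_real_eq]
  have := Measure.integral_comp_div
    (fun w : ℝ => Real.fourierChar (-(w * (d * ζ))) • ((u (d * x, w) : ℝ) : ℂ)) d
  have e1 : ∫ v : ℝ, Real.fourierChar (-(v * ζ)) • ((u (d * x, v / d) : ℝ) : ℂ)
      = ∫ y : ℝ, Real.fourierChar (-(y / d * (d * ζ))) • ((u (d * x, y / d) : ℝ) : ℂ) := by
    apply integral_congr_ae
    filter_upwards with y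
    congr 3
    field_simp
  rw [e1, this, abs_of_pos hd, Complex.real_smul]

theorem rho_dl {d : ℝ} (hd : 0 < d) {u : ℝ × ℝ → ℝ} (hm : Measurable u) (ζ : ℝ) :
    rho (fun v => u (dl d v)) ζ = ENNReal.ofReal d * rho u (d * ζ) := by
  unfold rho
  simp_rw [ft_dl hd, enorm_mul, mul_pow]
  have hft := ft_meas hm
  have hF : Measurable (fun x => ‖ft u x (d * ζ)‖ₑ ^ 2) := by
    have h1 := hft.comp (by fun_prop : Measurable fun x : ℝ => ((x, d * ζ) : ℝ × ℝ))
    simp only [Function.comp_def] at h1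
    exact h1.enorm.pow_const 2
  rw [lintegral_const_mul' _ _ (ENNReal.pow_ne_top enorm_ne_top),
    lintegral_comp_mul hF hd.ne', ← mul_assoc]
  congr 1
  rw [← ofReal_norm, Complex.norm_real, Real.norm_of_nonneg hd.le, abs_inv, abs_of_pos hd,
    ← ENNReal.ofReal_pow hd.le, ← ENNReal.ofReal_mul (by positivity)]
  congr 1
  field_simp

theorem QQ_dl {d : ℝ} (hd : 0 < d) {u : ℝ × ℝ → ℝ} (hm : Measurable u) (b : ℝ) :
    QQ b (fun v => u (dl d v)) = QQ (b / d) u := by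
  unfold QQ
  simp_rw [rho_dl hd hm]
  have h1 := mw_meas
  have h2 := rho_meas hm
  have hF : Measurable (fun ζ => ENNReal.ofReal d * (ENNReal.ofReal (mw (b / d * ζ)) * rho u ζ)) := by
    fun_prop
  have e : ∀ ζ, ENNReal.ofReal (mw (b * ζ)) * (ENNReal.ofReal d * rho u (d * ζ))
      = (fun ζ => ENNReal.ofReal d * (ENNReal.ofReal (mw (b / d * ζ)) * rho u ζ)) (d * ζ) := by
    intro ζ
    have : b / d * (d * ζ) = b * ζ := by field_simp
    simp only [this]
    ring
  simp_rw [e]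
  rw [lintegral_comp_mul hF hd.ne', lintegral_const_mul' _ _ ENNReal.ofReal_ne_top, ← mul_assoc,
    ← ENNReal.ofReal_mul (by positivity), abs_inv, abs_of_pos hd, inv_mul_cancel₀ hd.ne']
  simp

/-- dyadic summation of the weight -/
theorem mw_le_tel (z : ℝ) : mw z ≤ 23 * (|2 * Real.pi * z| / (1 + |2 * Real.pi * z|)
    - |2 * Real.pi * (z / 2)| / (1 + |2 * Real.pi * (z / 2)|)) := by
  by_cases hz : z = 0
  · subst hz; simp [mw]
  have hz' : 0 < |z| := abs_pos.2 hz
  set w := 2 * Real.pi * |z| with hw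
  have hw0 : 0 < w := by positivity
  have e1 : |2 * Real.pi * z| = w := by
    rw [abs_mul, abs_of_pos (by positivity : 0 < 2 * Real.pi)]
  have e2 : |2 * Real.pi * (z / 2)| = w / 2 := by
    rw [abs_mul, abs_of_pos (by positivity : 0 < 2 * Real.pi), abs_div, abs_two, hw]; ring
  have e3 : mw z = 2 * Real.pi * (w / (1 + w ^ 2)) := by
    unfold mw gw
    have : (2 * Real.pi * z) ^ 2 = w ^ 2 := by rw [hw, mul_pow, mul_pow, mul_pow, mul_pow, sq_abs]
    rw [this, hw]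
    field_simp
  rw [e1, e2, e3]
  have hpi : Real.pi < 3.15 := Real.pi_lt_d2
  have h1 : w / (1 + w) - (w / 2) / (1 + w / 2) = w / ((1 + w) * (2 + w)) := by
    field_simp
    ring
  rw [h1]
  have h2 : w / (1 + w ^ 2) ≤ 3.5 * (w / ((1 + w) * (2 + w))) := by
    rw [← mul_div_assoc, div_le_div_iff₀ (by positivity) (by positivity)]
    have : (1 + w) * (2 + w) ≤ 3.5 * (1 + w ^ 2) := by nlinarith [sq_nonneg (w - 1)]
    nlinarith
  have h3 : 0 ≤ w / ((1 + w) * (2 + w)) := by positivity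
  have hpos := Real.pi_pos
  calc 2 * Real.pi * (w / (1 + w ^ 2)) ≤ 2 * Real.pi * (3.5 * (w / ((1 + w) * (2 + w)))) := by gcongr
    _ = (7 * Real.pi) * (w / ((1 + w) * (2 + w))) := by ring
    _ ≤ 23 * (w / ((1 + w) * (2 + w))) := by
        apply mul_le_mul_of_nonneg_right _ h3
        linarith

/-- summation over dyadic dilates -/
theorem mw_sum_le (z : ℝ) (n : ℕ) : ∑ k ∈ Finset.range n, mw (z / 2 ^ k) ≤ 23 := by
  set φ : ℝ → ℝ := fun w => |2 * Real.pi * w| / (1 + |2 * Real.pi * w|) with hφ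
  have hφ0 : ∀ w, 0 ≤ φ w := fun w => by simp only [hφ]; positivity
  have hφ1 : ∀ w, φ w ≤ 1 := fun w => by
    simp only [hφ]
    rw [div_le_one (by positivity)]
    linarith
  have h : ∀ n, ∑ k ∈ Finset.range n, mw (z / 2 ^ k) ≤ 23 * (φ z - φ (z / 2 ^ n)) := by
    intro n
    induction n with
    | zero => simp
    | succ n ih =>
      rw [Finset.sum_range_succ]
      have h1 := mw_le_tel (z / 2 ^ n)
      have h2 : z / 2 ^ n / 2 = z / 2 ^ (n + 1) := by rw [pow_succ]; field_simp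
      rw [h2] at h1
      have h3 : mw (z / 2 ^ n) ≤ 23 * (φ (z / 2 ^ n) - φ (z / 2 ^ (n + 1))) := h1
      linarith
  have := h n
  have h0 := hφ0 (z / 2 ^ n)
  have h1 := hφ1 z
  linarith

theorem mw_tsum_le (z : ℝ) : ∑' k : ℕ, ENNReal.ofReal (mw (z / 2 ^ k)) ≤ 23 := by
  apply ENNReal.tsum_le_of_sum_range_le
  intro n
  rw [← ENNReal.ofReal_sum_of_nonneg (fun k _ => mw_nonneg _)]
  calc ENNReal.ofReal (∑ k ∈ Finset.range n, mw (z / 2 ^ k)) ≤ ENNReal.ofReal 23 :=
        ENNReal.ofReal_le_ofReal (mw_sum_le z n)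
    _ = 23 := by norm_num

theorem mw_le (z : ℝ) : ENNReal.ofReal (mw z) ≤ 23 := by
  have h := ENNReal.le_tsum (f := fun k : ℕ => ENNReal.ofReal (mw (z / 2 ^ k))) 0
  simp only [pow_zero, div_one] at h
  exact h.trans (mw_tsum_le z)

theorem QQ_le (b : ℝ) {u : ℝ × ℝ → ℝ} {M : ℝ} (hu : Good u M) : QQ b u ≤ 23 * ∫⁻ v, ‖u v‖ₑ ^ 2 := by
  rw [← hu.rho_int, ← lintegral_const_mul _ (rho_meas hu.meas)]
  unfold QQ
  apply lintegral_mono
  intro ζ
  exact mul_le_mul' (mw_le _) le_rfl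

/-- sum over dyadic scales of the square functions -/
theorem QQ_sum_le {c : ℝ} {u : ℝ × ℝ → ℝ} {M : ℝ} (hu : Good u M) :
    ∑' k : ℕ, QQ (c / 2 ^ k) u ≤ 23 * ∫⁻ v, ‖u v‖ₑ ^ 2 := by
  have h1 := mw_meas
  have h2 := rho_meas hu.meas
  unfold QQ
  rw [← lintegral_tsum (fun k => by fun_prop), ← hu.rho_int, ← lintegral_const_mul _ h2]
  apply lintegral_mono
  intro ζ
  simp only
  rw [ENNReal.tsum_mul_right]
  refine mul_le_mul' ?_ le_rfl
  have e : ∀ k : ℕ, c / 2 ^ k * ζ = c * ζ / 2 ^ k := by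
    intro k; ring
  simp_rw [e]
  exact mw_tsum_le _

end Pool.Agent.H58
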