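import Mathlib
import Pool.Agent.Lib_helper58.QQf

set_option autoImplicit false

open MeasureTheory
open scoped ENNReal Topology

namespace Pool.Agent.H58

/-- determinant -/
def DD (p q r : ℝ × ℝ) : ℝ := (q.1 - p.1) * (r.2 - p.2) - (r.1 - p.1) * (q.2 - p.2)

/-- indicator function of a set -/
noncomputable def ind (A : Set (ℝ × ℝ)) (v : ℝ × ℝ) : ℝ := A.indicator (fun _ => (1:ℝ)) v

theorem ind_mem {A : Set (ℝ × ℝ)} {v : ℝ × ℝ} (h : v ∈ A) : ind A v = 1 := Set.indicator_of_mem h _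
theorem ind_not {A : Set (ℝ × ℝ)} {v : ℝ × ℝ} (h : v ∉ A) : ind A v = 0 := Set.indicator_of_notMem h _
theorem mem_of_ind {A : Set (ℝ × ℝ)} {v : ℝ × ℝ} (h : ind A v ≠ 0) : v ∈ A := by
  by_contra h'; exact h (ind_not h')

theorem ind_meas {A : Set (ℝ × ℝ)} (hA : MeasurableSet A) : Measurable (ind A) :=
  measurable_const.indicator hA

theorem ind_ofReal (A : Set (ℝ × ℝ)) (v : ℝ × ℝ) :
    ENNReal.ofReal (ind A v) = A.indicator (fun _ => (1:ℝ≥0∞)) v := by
  by_cases h : v ∈ A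
  · rw [ind_mem h, Set.indicator_of_mem h]; simp
  · rw [ind_not h, Set.indicator_of_notMem h]; simp

theorem ind_lint {A : Set (ℝ × ℝ)} (hA : MeasurableSet A) : ∫⁻ v, ENNReal.ofReal (ind A v) = volume A := by
  simp_rw [ind_ofReal]
  rw [lintegral_indicator hA]; simp

theorem ind_lint_sq {A : Set (ℝ × ℝ)} (hA : MeasurableSet A) : ∫⁻ v, ‖ind A v‖ₑ ^ 2 = volume A := by
  rw [← ind_lint hA]
  apply lintegral_congr
  intro v
  rw [enorm_sq_eq]
  by_cases h : v ∈ A
  · rw [ind_mem h]; norm_num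
  · rw [ind_not h]; norm_num

theorem ind_glo {A : Set (ℝ × ℝ)} (hA : IsCompact A) (h4 : ∀ v ∈ A, |v.1| ≤ 4) :
    ∃ H, Glo (ind A) H := by
  obtain ⟨H, hH⟩ := (hA.image continuous_snd).isBounded.exists_norm_le
  refine ⟨H, ind_meas hA.measurableSet, ?_, ?_, ?_, ?_⟩
  · intro v
    by_cases h : v ∈ A
    · rw [ind_mem h]; norm_num
    · rw [ind_not h]
  · intro v
    by_cases h : v ∈ A
    · rw [ind_mem h]
    · rw [ind_not h]; norm_num
  · intro v hv
    exact h4 v (mem_of_ind hv)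
  · intro v hv
    have := hH v.2 ⟨v, mem_of_ind hv, rfl⟩
    rwa [Real.norm_eq_abs] at this

open Classical in
theorem al_ind (A : Set (ℝ × ℝ)) (p : ℝ × ℝ) :
    al 1 (ind A) p = ∫⁻ v, (if |Yst p v| ≤ 1 then 1 else 0) * ENNReal.ofReal (ind A v) := by
  unfold al
  apply lintegral_congr
  intro v
  by_cases h : |Yst p v| ≤ 1
  · rw [Set.indicator_of_mem (by exact h), if_pos h, one_mul]
  · rw [Set.indicator_of_notMem (by exact h), if_neg h, zero_mul]

open Classical in
/-- two points at horizontal distance between 1/2 and 3 lie in many common strips -/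
theorem two_pts {v q : ℝ × ℝ} (h1 : 1/2 ≤ v.1 - q.1) (h2 : v.1 - q.1 ≤ 3) :
    (2/3 : ℝ≥0∞) ≤ ∫⁻ p : ℝ × ℝ, (if |Yst p v| ≤ 1 then 1 else 0) * (if |Yst p q| ≤ 1 then 1 else 0) := by
  have hY := Yst_meas
  have hm : Measurable (fun p : ℝ × ℝ => (if |Yst p v| ≤ 1 then (1:ℝ≥0∞) else 0) * (if |Yst p q| ≤ 1 then 1 else 0)) := by
    have hY1 : Measurable (fun p : ℝ × ℝ => |Yst p v|) := by unfold Yst; fun_prop
    have hY2 : Measurable (fun p : ℝ × ℝ => |Yst p q|) := by unfold Yst; fun_prop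
    exact (Measurable.ite (measurableSet_le hY1 measurable_const) measurable_const measurable_const).mul
      (Measurable.ite (measurableSet_le hY2 measurable_const) measurable_const measurable_const)
  set X := v.1 - q.1 with hX
  have hX0 : 0 < X := by linarith
  set s0 := (v.2 - q.2) / X with hs0
  rw [Measure.volume_eq_prod, lintegral_prod _ hm.aemeasurable]
  calc (2/3 : ℝ≥0∞) = ∫⁻ s in Set.Icc (s0 - 1/3) (s0 + 1/3), 1 := by
        rw [setLIntegral_const, one_mul, Real.volume_Icc]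
        rw [show s0 + 1/3 - (s0 - 1/3) = 2/3 by ring, ENNReal.ofReal_div_of_pos (by norm_num)]
        norm_num
    _ ≤ ∫⁻ s in Set.Icc (s0 - 1/3) (s0 + 1/3), ∫⁻ t, (if |Yst (s, t) v| ≤ 1 then (1:ℝ≥0∞) else 0) *
          (if |Yst (s, t) q| ≤ 1 then 1 else 0) := by
        apply setLIntegral_mono' measurableSet_Icc
        intro s hs
        set a := v.2 - s * v.1 with ha
        set c := q.2 - s * q.1 with hc
        have hac : |a - c| ≤ 1 := by
          have e : a - c = X * (s0 - s) := by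
            rw [ha, hc, hs0, hX]
            have : v.1 - q.1 ≠ 0 := hX0.ne'
            field_simp
            ring
          rw [e, abs_mul, abs_of_pos hX0]
          have : |s0 - s| ≤ 1/3 := by rw [abs_le]; constructor <;> linarith [hs.1, hs.2]
          nlinarith [abs_nonneg (s0 - s)]
        have hac' := abs_le.1 hac
        calc (1:ℝ≥0∞) = ∫⁻ t in Set.Icc ((a + c)/2 - 1/2) ((a + c)/2 + 1/2), 1 := by
              rw [setLIntegral_const, one_mul, Real.volume_Icc,
                show (a + c)/2 + 1/2 - ((a + c)/2 - 1/2) = 1 by ring]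
              norm_num
          _ ≤ ∫⁻ t in Set.Icc ((a + c)/2 - 1/2) ((a + c)/2 + 1/2), (if |Yst (s, t) v| ≤ 1 then (1:ℝ≥0∞) else 0) *
            (if |Yst (s, t) q| ≤ 1 then 1 else 0) := by
              apply setLIntegral_mono' measurableSet_Icc
              intro t ht
              have hv : |Yst (s, t) v| ≤ 1 := by
                have e : Yst (s, t) v = a - t := by simp only [Yst, ha]
                rw [e, abs_le]; constructor <;> linarith [ht.1, ht.2, hac'.1, hac'.2]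
              have hq : |Yst (s, t) q| ≤ 1 := by
                have e : Yst (s, t) q = c - t := by simp only [Yst, hc]
                rw [e, abs_le]; constructor <;> linarith [ht.1, ht.2, hac'.1, hac'.2]
              rw [if_pos hv, if_pos hq, one_mul]
          _ ≤ _ := setLIntegral_le_lintegral _ _
    _ ≤ _ := setLIntegral_le_lintegral _ _

open Classical in
theorem double_count {A B : Set (ℝ × ℝ)} (hA : MeasurableSet A) (hB : MeasurableSet B)
    (hsep : ∀ v ∈ A, ∀ q ∈ B, 1/2 ≤ v.1 - q.1 ∧ v.1 - q.1 ≤ 3) :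
    (2/3) * (volume A * volume B) ≤ ∫⁻ p, al 1 (ind A) p * al 1 (ind B) p := by
  have hmA := ind_meas hA
  have hmB := ind_meas hB
  have hY := Yst_meas
  have hF : Measurable (fun x : ((ℝ × ℝ) × (ℝ × ℝ)) × (ℝ × ℝ) =>
      ((if |Yst x.1.1 x.1.2| ≤ 1 then (1:ℝ≥0∞) else 0) * ENNReal.ofReal (ind A x.1.2)) *
      ((if |Yst x.1.1 x.2| ≤ 1 then 1 else 0) * ENNReal.ofReal (ind B x.2))) := by
    have hY1 : Measurable (fun x : ((ℝ × ℝ) × (ℝ × ℝ)) × (ℝ × ℝ) => |Yst x.1.1 x.1.2|) := by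
      unfold Yst; fun_prop
    have hY2 : Measurable (fun x : ((ℝ × ℝ) × (ℝ × ℝ)) × (ℝ × ℝ) => |Yst x.1.1 x.2|) := by
      unfold Yst; fun_prop
    have h1 : Measurable (fun x : ((ℝ × ℝ) × (ℝ × ℝ)) × (ℝ × ℝ) =>
      (if |Yst x.1.1 x.1.2| ≤ 1 then (1:ℝ≥0∞) else 0)) :=
      Measurable.ite (measurableSet_le hY1 measurable_const) measurable_const measurable_const
    have h2 : Measurable (fun x : ((ℝ × ℝ) × (ℝ × ℝ)) × (ℝ × ℝ) =>
      (if |Yst x.1.1 x.2| ≤ 1 then (1:ℝ≥0∞) else 0)) :=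
      Measurable.ite (measurableSet_le hY2 measurable_const) measurable_const measurable_const
    fun_prop
  have e1 : ∀ p, al 1 (ind A) p * al 1 (ind B) p = ∫⁻ v, ∫⁻ q,
      ((if |Yst p v| ≤ 1 then (1:ℝ≥0∞) else 0) * ENNReal.ofReal (ind A v)) *
      ((if |Yst p q| ≤ 1 then 1 else 0) * ENNReal.ofReal (ind B q)) := by
    intro p
    rw [al_ind, al_ind]
    have hY1 : Measurable (fun v : ℝ × ℝ => |Yst p v|) := by unfold Yst; fun_prop
    have hi : Measurable (fun v : ℝ × ℝ => (if |Yst p v| ≤ 1 then (1:ℝ≥0∞) else 0)) :=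
      Measurable.ite (measurableSet_le hY1 measurable_const) measurable_const measurable_const
    have hfA : Measurable (fun v : ℝ × ℝ => (if |Yst p v| ≤ 1 then (1:ℝ≥0∞) else 0) * ENNReal.ofReal (ind A v)) := by
      fun_prop
    have hfB : Measurable (fun v : ℝ × ℝ => (if |Yst p v| ≤ 1 then (1:ℝ≥0∞) else 0) * ENNReal.ofReal (ind B v)) := by
      fun_prop
    rw [← lintegral_mul_const _ hfA]
    apply lintegral_congr
    intro v
    rw [lintegral_const_mul _ hfB]
  simp_rw [e1]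
  have hF2 : Measurable (fun x : (ℝ × ℝ) × (ℝ × ℝ) => ∫⁻ q,
      ((if |Yst x.1 x.2| ≤ 1 then (1:ℝ≥0∞) else 0) * ENNReal.ofReal (ind A x.2)) *
      ((if |Yst x.1 q| ≤ 1 then 1 else 0) * ENNReal.ofReal (ind B q))) := hF.lintegral_prod_right'
  rw [lintegral_lintegral_swap (by simp only [Function.uncurry_def]; exact hF2.aemeasurable)]
  have e2 : ∀ v, ∫⁻ p, ∫⁻ q, ((if |Yst p v| ≤ 1 then (1:ℝ≥0∞) else 0) * ENNReal.ofReal (ind A v)) *
      ((if |Yst p q| ≤ 1 then 1 else 0) * ENNReal.ofReal (ind B q))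
      = ∫⁻ q, ∫⁻ p, ((if |Yst p v| ≤ 1 then (1:ℝ≥0∞) else 0) * ENNReal.ofReal (ind A v)) *
      ((if |Yst p q| ≤ 1 then 1 else 0) * ENNReal.ofReal (ind B q)) := by
    intro v
    have hc := hF.comp (by fun_prop : Measurable fun x : (ℝ × ℝ) × (ℝ × ℝ) =>
      (((x.1, v), x.2) : ((ℝ × ℝ) × (ℝ × ℝ)) × (ℝ × ℝ)))
    simp only [Function.comp_def] at hc
    rw [lintegral_lintegral_swap (by simp only [Function.uncurry_def]; exact hc.aemeasurable)]
  simp_rw [e2]
  have e3 : (2/3) * (volume A * volume B) = ∫⁻ v, ∫⁻ q, (2/3) * (ENNReal.ofReal (ind A v) * ENNReal.ofReal (ind B q)) := by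
    have : ∀ v, ∫⁻ q, (2/3) * (ENNReal.ofReal (ind A v) * ENNReal.ofReal (ind B q))
        = ((2/3) * volume B) * ENNReal.ofReal (ind A v) := by
      intro v
      rw [lintegral_const_mul _ (by fun_prop), lintegral_const_mul _ (by fun_prop), ind_lint hB]
      ring
    simp_rw [this]
    rw [lintegral_const_mul _ (by fun_prop), ind_lint hA]
    ring
  rw [e3]
  apply lintegral_mono
  intro v
  apply lintegral_mono
  intro q
  simp only
  by_cases hv : v ∈ A
  · by_cases hq : q ∈ B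
    · rw [ind_mem hv, ind_mem hq, ENNReal.ofReal_one]
      simp only [mul_one]
      have := hsep v hv q hq
      exact two_pts this.1 this.2
    · rw [ind_not hq]; simp
  · rw [ind_not hv]; simp

/-- reflection -/
def rf (v : ℝ × ℝ) : ℝ × ℝ := (-v.1, v.2)

theorem rf_mp : MeasurePreserving rf volume volume := by
  have h := (Measure.measurePreserving_neg (volume : Measure ℝ)).prod (MeasurePreserving.id (volume : Measure ℝ))
  exact h

theorem rf_rf (v : ℝ × ℝ) : rf (rf v) = v := by ext <;> simp [rf]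

theorem rf_cont : Continuous rf := by unfold rf; fun_prop

theorem al_rf (c : ℝ) {u : ℝ × ℝ → ℝ} (hm : Measurable u) (p : ℝ × ℝ) :
    al c (fun v => u (rf v)) p = al c u (rf p) := by
  unfold al
  have hY := Yst_meas' (rf p)
  have hmm : Measurable (({v : ℝ × ℝ | |Yst (rf p) v| ≤ c}).indicator (fun v => ENNReal.ofReal (u v))) := by
    apply Measurable.indicator (by fun_prop)
    exact measurableSet_le (by fun_prop) measurable_const
  rw [← rf_mp.lintegral_comp hmm]
  apply lintegral_congr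
  intro v
  have e : Yst (rf p) (rf v) = Yst p v := by simp only [Yst, rf]; ring
  by_cases h : |Yst p v| ≤ c
  · rw [Set.indicator_of_mem (by exact h), Set.indicator_of_mem (by
      show |Yst (rf p) (rf v)| ≤ c
      rw [e]; exact h)]
  · rw [Set.indicator_of_notMem (by exact h), Set.indicator_of_notMem (by
      intro h'
      apply h
      have h'' : |Yst (rf p) (rf v)| ≤ c := h'
      rwa [e] at h'')]

theorem LQ_rf (Q : Set (ℝ × ℝ)) (p : ℝ × ℝ) : p ∈ LQ (rf ⁻¹' Q) ↔ rf p ∈ LQ Q := by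
  constructor
  · rintro ⟨q, hq, h⟩
    refine ⟨rf q, hq, ?_⟩
    have e : Yst (rf p) (rf q) = Yst p q := by simp only [Yst, rf]; ring
    rwa [e]
  · rintro ⟨q, hq, h⟩
    refine ⟨rf q, ?_, ?_⟩
    · show rf (rf q) ∈ Q
      rwa [rf_rf]
    · have e : Yst p (rf q) = Yst (rf p) q := by simp only [Yst, rf]; ring
      rwa [e]

/-- Pair lemma at scale 1. -/
theorem pair_lemma : ∃ C : ℝ≥0∞, C ≠ ⊤ ∧ ∀ (A B : Set (ℝ × ℝ)) (ε : ℝ), IsCompact A → IsCompact B → 0 < ε →
    (∀ v ∈ A, |v.1| ≤ 4) → (∀ v ∈ B, |v.1| ≤ 4) →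
    (∀ v ∈ A, ∀ q ∈ B, 1/2 ≤ v.1 - q.1 ∧ v.1 - q.1 ≤ 3) →
    (∀ q ∈ B, ∀ v ∈ A, ∀ v' ∈ A, ε ≤ |DD q v v' - 2|) →
    (∀ q ∈ A, ∀ v ∈ B, ∀ v' ∈ B, ε ≤ |DD q v v' - 2|) →
    volume A ^ 2 * volume B ≤ C * ∑' j : ℕ, 2⁻¹ ^ j * QQ (bj j) (ind A) := by
  obtain ⟨C0, hC0, hmain⟩ := main_lemma
  refine ⟨(9/4) * (C0 * (C0 * 46)), ?_, ?_⟩
  · refine ENNReal.mul_ne_top ?_ (ENNReal.mul_ne_top hC0 (ENNReal.mul_ne_top hC0 (by norm_num)))
    exact ENNReal.div_ne_top (by norm_num) (by norm_num)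
  intro A B ε hA hB hε hA4 hB4 hsep hav1 hav2
  obtain ⟨HA, hGA⟩ := ind_glo hA hA4
  have hAm := hA.measurableSet
  have hBm := hB.measurableSet
  -- reflected sets
  have hAr : IsCompact (rf ⁻¹' A) := by
    have : rf ⁻¹' A = rf '' A := by
      ext v
      constructor
      · intro h; exact ⟨rf v, h, rf_rf v⟩
      · rintro ⟨w, hw, rfl⟩
        show rf (rf w) ∈ A
        rwa [rf_rf]
    rw [this]; exact hA.image rf_cont
  have hBr : IsCompact (rf ⁻¹' B) := by
    have : rf ⁻¹' B = rf '' B := by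
      ext v
      constructor
      · intro h; exact ⟨rf v, h, rf_rf v⟩
      · rintro ⟨w, hw, rfl⟩
        show rf (rf w) ∈ B
        rwa [rf_rf]
    rw [this]; exact hB.image rf_cont
  obtain ⟨HB, hGB⟩ := ind_glo hBr (fun v hv => by
    have := hB4 (rf v) hv
    simpa [rf] using this)
  have iA : ∫⁻ p in LQ B, al 1 (ind A) p ^ 2 ≤ C0 * ∑' j : ℕ, 2⁻¹ ^ j * QQ (bj j) (ind A) := by
    apply hmain (ind A) HA ε B hGA hε hB
    · intro q hq
      exact ⟨hB4 q hq, fun v hv => hsep v (mem_of_ind hv) q hq⟩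
    · intro q hq v v' hv hv'
      exact hav1 q hq v (mem_of_ind hv) v' (mem_of_ind hv')
  have iB0 : ∫⁻ p in LQ (rf ⁻¹' A), al 1 (ind (rf ⁻¹' B)) p ^ 2
      ≤ C0 * ∑' j : ℕ, 2⁻¹ ^ j * QQ (bj j) (ind (rf ⁻¹' B)) := by
    apply hmain (ind (rf ⁻¹' B)) HB ε (rf ⁻¹' A) hGB hε hAr
    · intro q hq
      refine ⟨by simpa [rf] using hA4 (rf q) hq, fun v hv => ?_⟩
      have := hsep (rf q) hq (rf v) (mem_of_ind hv)
      simp only [rf] at this
      constructor <;> linarith [this.1, this.2]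
    · intro q hq v v' hv hv'
      have := hav2 (rf q) hq (rf v') (mem_of_ind hv') (rf v) (mem_of_ind hv)
      have e : DD (rf q) (rf v') (rf v) = (v.1 - q.1) * (v'.2 - q.2) - (v'.1 - q.1) * (v.2 - q.2) := by
        simp only [DD, rf]; ring
      rwa [e] at this
  have hvB : volume (rf ⁻¹' B) = volume B := rf_mp.measure_preimage hBm.nullMeasurableSet
  have iB : ∫⁻ p in LQ A, al 1 (ind B) p ^ 2 ≤ C0 * 46 * volume B := by
    have hLA := (LQ_closed hA).measurableSet
    have halm := al_meas 1 (ind_meas hBm)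
    have hmm : Measurable ((LQ A).indicator (fun p => al 1 (ind B) p ^ 2)) := by
      apply Measurable.indicator _ hLA
      fun_prop
    have e1 : ∫⁻ p in LQ A, al 1 (ind B) p ^ 2 = ∫⁻ p in LQ (rf ⁻¹' A), al 1 (ind (rf ⁻¹' B)) p ^ 2 := by
      rw [← lintegral_indicator hLA, ← rf_mp.lintegral_comp hmm,
        ← lintegral_indicator (LQ_closed hAr).measurableSet]
      apply lintegral_congr
      intro p
      have e2 : al 1 (ind (rf ⁻¹' B)) p = al 1 (ind B) (rf p) := by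
        have := al_rf 1 (ind_meas hBm) p
        exact this
      by_cases h : rf p ∈ LQ A
      · rw [Set.indicator_of_mem h, Set.indicator_of_mem ((LQ_rf A p).2 h), e2]
      · rw [Set.indicator_of_notMem h, Set.indicator_of_notMem (fun h' => h ((LQ_rf A p).1 h'))]
    rw [e1]
    refine iB0.trans ?_
    rw [mul_assoc]
    refine mul_le_mul' le_rfl ?_
    calc ∑' j : ℕ, 2⁻¹ ^ j * QQ (bj j) (ind (rf ⁻¹' B))
        ≤ ∑' j : ℕ, 2⁻¹ ^ j * (23 * volume B) := by
          apply ENNReal.tsum_le_tsum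
          intro j
          refine mul_le_mul' le_rfl ?_
          have := QQ_le (bj j) hGB.good
          rwa [ind_lint_sq hBr.measurableSet, hvB] at this
      _ = 46 * volume B := by
          rw [ENNReal.tsum_mul_right, ENNReal.tsum_geometric, ENNReal.one_sub_inv_two, inv_inv, ← mul_assoc]
          norm_num
  have hdc := double_count hAm hBm hsep
  have hLA := (LQ_closed hA).measurableSet
  have hLB := (LQ_closed hB).measurableSet
  have halA := al_meas 1 (ind_meas hAm)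
  have halB := al_meas 1 (ind_meas hBm)
  have al_zero : ∀ (S : Set (ℝ × ℝ)) p, p ∉ LQ S → al 1 (ind S) p = 0 := by
    intro S p hp
    have hz : ∀ v, ({v : ℝ × ℝ | |Yst p v| ≤ 1}).indicator (fun v => ENNReal.ofReal (ind S v)) v = 0 := by
      intro v
      by_cases h : |Yst p v| ≤ 1
      · rw [Set.indicator_of_mem (by exact h)]
        have : v ∉ S := fun hv => hp ⟨v, hv, h⟩
        rw [ind_not this]; simp
      · rw [Set.indicator_of_notMem (by exact h)]
    unfold al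
    simp_rw [hz]
    simp
  have e4 : ∫⁻ p, al 1 (ind A) p * al 1 (ind B) p
      = ∫⁻ p, (LQ B).indicator (al 1 (ind A)) p * (LQ A).indicator (al 1 (ind B)) p := by
    apply lintegral_congr
    intro p
    by_cases h1 : p ∈ LQ B
    · by_cases h2 : p ∈ LQ A
      · rw [Set.indicator_of_mem h1, Set.indicator_of_mem h2]
      · rw [Set.indicator_of_notMem h2, al_zero A p h2]; simp
    · rw [Set.indicator_of_notMem h1, al_zero B p h1]; simp
  have hcs := cs (volume : Measure (ℝ × ℝ)) (f := (LQ B).indicator (al 1 (ind A)))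
    (g := (LQ A).indicator (al 1 (ind B))) (halA.indicator hLB).aemeasurable (halB.indicator hLA).aemeasurable
  have e5 : ∀ (S : Set (ℝ × ℝ)) (f : ℝ × ℝ → ℝ≥0∞) p, (S.indicator f p) ^ 2 = S.indicator (fun p => f p ^ 2) p := by
    intro S f p
    by_cases h : p ∈ S
    · rw [Set.indicator_of_mem h, Set.indicator_of_mem h]
    · rw [Set.indicator_of_notMem h, Set.indicator_of_notMem h]; simp
  simp_rw [e5] at hcs
  rw [lintegral_indicator hLB, lintegral_indicator hLA, ← e4] at hcs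
  set SA := ∑' j : ℕ, 2⁻¹ ^ j * QQ (bj j) (ind A) with hSA
  have hfin : ((2/3) * (volume A * volume B)) ^ 2 ≤ (C0 * SA) * (C0 * 46 * volume B) := by
    calc ((2/3) * (volume A * volume B)) ^ 2 ≤ (∫⁻ p, al 1 (ind A) p * al 1 (ind B) p) ^ 2 := by gcongr
      _ ≤ _ := hcs
      _ ≤ _ := mul_le_mul' iA iB
  have hsq : (9/4 : ℝ≥0∞) * (2/3) ^ 2 = 1 := by
    rw [ENNReal.div_eq_inv_mul, ENNReal.div_eq_inv_mul, mul_pow, ← ENNReal.inv_pow]
    have h9 : ((3:ℝ≥0∞) ^ 2)⁻¹ * 9 = 1 := by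
      rw [show (3:ℝ≥0∞) ^ 2 = 9 by norm_num]
      exact ENNReal.inv_mul_cancel (by norm_num) (by norm_num)
    have h4 : (4:ℝ≥0∞)⁻¹ * 2 ^ 2 = 1 := by
      rw [show (2:ℝ≥0∞) ^ 2 = 4 by norm_num]
      exact ENNReal.inv_mul_cancel (by norm_num) (by norm_num)
    calc (4:ℝ≥0∞)⁻¹ * 9 * ((3 ^ 2)⁻¹ * 2 ^ 2) = ((3 ^ 2)⁻¹ * 9) * ((4:ℝ≥0∞)⁻¹ * 2 ^ 2) := by ring
      _ = 1 := by rw [h9, h4, one_mul]
  by_cases hB0 : volume B = 0
  · rw [hB0, mul_zero]; exact zero_le
  have hBt : volume B ≠ ⊤ := hB.measure_lt_top.ne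
  have h6 : (volume A ^ 2 * volume B) * volume B ≤ ((9/4) * (C0 * (C0 * 46)) * SA) * volume B := by
    calc (volume A ^ 2 * volume B) * volume B = ((9/4 : ℝ≥0∞) * (2/3) ^ 2) * ((volume A * volume B) ^ 2) := by
          rw [hsq]; ring
      _ = (9/4) * ((2/3) * (volume A * volume B)) ^ 2 := by ring
      _ ≤ (9/4) * ((C0 * SA) * (C0 * 46 * volume B)) := by gcongr
      _ = _ := by ring
  exact (ENNReal.mul_le_mul_iff_left hB0 hBt).1 h6

end Pool.Agent.H58
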