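import Mathlib
import Pool.Agent.Lib_helper58.Pair

set_option autoImplicit false

open MeasureTheory
open scoped ENNReal Topology

namespace Pool.Agent.H58

theorem dl_mp {d : ℝ} (hd : 0 < d) : MeasurePreserving (dl d) volume volume := by
  have h1 : Measure.map (fun x : ℝ => d * x) volume = ENNReal.ofReal |d⁻¹| • (volume : Measure ℝ) :=
    Real.map_volume_mul_left hd.ne'
  have h2 : Measure.map (fun y : ℝ => y / d) volume = ENNReal.ofReal |d| • (volume : Measure ℝ) := by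
    have := Real.map_volume_mul_right (a := d⁻¹) (inv_ne_zero hd.ne')
    rw [inv_inv] at this
    simpa [div_eq_mul_inv] using this
  have hm : Measurable (dl d) := by unfold dl; fun_prop
  refine ⟨hm, ?_⟩
  have e : dl d = Prod.map (fun x : ℝ => d * x) (fun y : ℝ => y / d) := by
    ext v <;> simp [dl]
  rw [e, Measure.volume_eq_prod, ← Measure.map_prod_map _ _ (by fun_prop) (by fun_prop), h1, h2,
    Measure.prod_smul_left, Measure.prod_smul_right, smul_smul, ← ENNReal.ofReal_mul (abs_nonneg _),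
    abs_of_pos hd, abs_of_pos (inv_pos.2 hd), inv_mul_cancel₀ hd.ne']
  simp

theorem dl_cont (d : ℝ) : Continuous (dl d) := by unfold dl; fun_prop

theorem dl_inv {d : ℝ} (hd : 0 < d) (v : ℝ × ℝ) : dl d (dl d⁻¹ v) = v := by
  ext
  · simp only [dl]; field_simp
  · simp only [dl]; field_simp

theorem dl_inv' {d : ℝ} (hd : 0 < d) (v : ℝ × ℝ) : dl d⁻¹ (dl d v) = v := by
  ext
  · simp only [dl]; field_simp
  · simp only [dl]; field_simp

theorem dl_preimage_compact {d : ℝ} (hd : 0 < d) {A : Set (ℝ × ℝ)} (hA : IsCompact A) :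
    IsCompact (dl d ⁻¹' A) := by
  have : dl d ⁻¹' A = dl d⁻¹ '' A := by
    ext v
    constructor
    · intro h; exact ⟨dl d v, h, dl_inv' hd v⟩
    · rintro ⟨w, hw, rfl⟩
      show dl d (dl d⁻¹ w) ∈ A
      rwa [dl_inv hd]
  rw [this]; exact hA.image (dl_cont _)

theorem DD_dl {d : ℝ} (hd : 0 < d) (p q r : ℝ × ℝ) : DD (dl d p) (dl d q) (dl d r) = DD p q r := by
  simp only [DD, dl]
  field_simp

/-- Pair lemma at scale `d`. -/
theorem pair_scaled : ∃ C : ℝ≥0∞, C ≠ ⊤ ∧ ∀ (A B : Set (ℝ × ℝ)) (ε d : ℝ), IsCompact A → IsCompact B → 0 < ε →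
    0 < d → (∀ v ∈ A, |v.1| ≤ 4 * d) → (∀ v ∈ B, |v.1| ≤ 4 * d) →
    (∀ v ∈ A, ∀ q ∈ B, d / 2 ≤ v.1 - q.1 ∧ v.1 - q.1 ≤ 3 * d) →
    (∀ q ∈ B, ∀ v ∈ A, ∀ v' ∈ A, ε ≤ |DD q v v' - 2|) →
    (∀ q ∈ A, ∀ v ∈ B, ∀ v' ∈ B, ε ≤ |DD q v v' - 2|) →
    volume A ^ 2 * volume B ≤ C * ∑' j : ℕ, 2⁻¹ ^ j * QQ (bj j / d) (ind A) := by
  obtain ⟨C, hC, h⟩ := pair_lemma
  refine ⟨C, hC, ?_⟩
  intro A B ε d hA hB hε hd hA4 hB4 hsep hav1 hav2
  have hmul : ∀ a c : ℝ, |a| ≤ c * d → |a / d| ≤ c := by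
    intro a c ha
    rw [abs_div, abs_of_pos hd, div_le_iff₀ hd]
    exact ha
  have key := h (dl d ⁻¹' A) (dl d ⁻¹' B) ε (dl_preimage_compact hd hA) (dl_preimage_compact hd hB) hε
    (by
      intro v hv
      have h1 := hA4 _ hv
      simp only [dl] at h1
      rw [abs_mul, abs_of_pos hd, mul_comm] at h1
      exact le_of_mul_le_mul_right h1 hd)
    (by
      intro v hv
      have h1 := hB4 _ hv
      simp only [dl] at h1
      rw [abs_mul, abs_of_pos hd, mul_comm] at h1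
      exact le_of_mul_le_mul_right h1 hd)
    (by
      intro v hv q hq
      have h1 := hsep _ hv _ hq
      simp only [dl] at h1
      constructor
      · have : d * (1/2) ≤ d * (v.1 - q.1) := by linarith [h1.1]
        exact le_of_mul_le_mul_left this hd
      · have : d * (v.1 - q.1) ≤ d * 3 := by linarith [h1.2]
        exact le_of_mul_le_mul_left this hd)
    (by
      intro q hq v hv v' hv'
      have := hav1 _ hq _ hv _ hv'
      rwa [DD_dl hd] at this)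
    (by
      intro q hq v hv v' hv'
      have := hav2 _ hq _ hv _ hv'
      rwa [DD_dl hd] at this)
  rw [(dl_mp hd).measure_preimage hA.measurableSet.nullMeasurableSet,
    (dl_mp hd).measure_preimage hB.measurableSet.nullMeasurableSet] at key
  refine key.trans (le_of_eq ?_)
  congr 1
  apply tsum_congr
  intro j
  congr 1
  have := QQ_dl hd (ind_meas hA.measurableSet) (bj j)
  rw [← this]
  rfl

/-- Left lemma. -/
theorem left_lemma : ∃ C : ℝ≥0∞, C ≠ ⊤ ∧ ∀ (E : Set (ℝ × ℝ)) (ε r : ℝ), IsCompact E → 0 < ε → 0 < r →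
    (∀ p ∈ E, ∀ q ∈ E, ∀ s ∈ E, ε ≤ |DD p q s - 2|) →
    1 ≤ volume (E ∩ {v | |v.1| ≤ r}) → volume (E ∩ {v | |v.1| ≤ r}) ≤ 2 →
    volume (E ∩ {v | v.1 < -(4 * r)}) ≤ C := by
  obtain ⟨C, hC, h⟩ := pair_scaled
  refine ⟨C * 92, ENNReal.mul_ne_top hC (by norm_num), ?_⟩
  intro E ε r hE hε hr hav h1 h2
  set A := E ∩ {v : ℝ × ℝ | |v.1| ≤ r} with hA
  have hAc : IsCompact A := hE.inter_right (isClosed_le (by fun_prop) continuous_const)
  set B : ℕ → Set (ℝ × ℝ) := fun k => E ∩ {v : ℝ × ℝ | -(2 * (4 * r * 2 ^ k)) ≤ v.1 ∧ v.1 ≤ -(4 * r * 2 ^ k)} with hB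
  have hBc : ∀ k, IsCompact (B k) := by
    intro k
    apply hE.inter_right
    have c1 : IsClosed {v : ℝ × ℝ | -(2 * (4 * r * 2 ^ k)) ≤ v.1} :=
      isClosed_le continuous_const continuous_fst
    have c2 : IsClosed {v : ℝ × ℝ | v.1 ≤ -(4 * r * 2 ^ k)} :=
      isClosed_le continuous_fst continuous_const
    exact c1.inter c2
  have hcover : E ∩ {v : ℝ × ℝ | v.1 < -(4 * r)} ⊆ ⋃ k, B k := by
    rintro v ⟨hvE, hv⟩
    have hv' : v.1 < -(4 * r) := hv
    have hx : 1 ≤ -v.1 / (4 * r) := by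
      rw [le_div_iff₀ (by positivity)]; linarith
    obtain ⟨k, hk1, hk2⟩ := exists_nat_pow_near hx (by norm_num : (1:ℝ) < 2)
    rw [le_div_iff₀ (by positivity)] at hk1
    rw [div_lt_iff₀ (by positivity), pow_succ] at hk2
    rw [Set.mem_iUnion]
    refine ⟨k, hvE, ?_, ?_⟩
    · show -(2 * (4 * r * 2 ^ k)) ≤ v.1
      nlinarith
    · show v.1 ≤ -(4 * r * 2 ^ k)
      nlinarith
  have hGA : ∃ M, Good (ind A) M := by
    obtain ⟨R, hR⟩ := (hE.image continuous_fst).isBounded.exists_norm_le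
    obtain ⟨H, hH⟩ := (hE.image continuous_snd).isBounded.exists_norm_le
    refine ⟨1 + |R| + 2 * |H|, ind_meas hAc.measurableSet, by positivity, ?_, ?_, ?_⟩
    · intro v
      by_cases hv : v ∈ A
      · rw [ind_mem hv, abs_one]; linarith [abs_nonneg R, abs_nonneg H]
      · rw [ind_not hv, abs_zero]; positivity
    · intro v hv
      apply ind_not
      intro hvA
      have := hR v.1 ⟨v, hvA.1, rfl⟩
      rw [Real.norm_eq_abs] at this
      linarith [le_abs_self R, abs_nonneg H]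
    · intro x
      calc ∫⁻ y, ‖ind A (x, y)‖ₑ ≤ ∫⁻ y, (Set.Icc (-|H|) |H|).indicator (fun _ => 1) y := by
            apply lintegral_mono
            intro y
            by_cases hv : (x, y) ∈ A
            · have h3 := hH y ⟨(x, y), hv.1, rfl⟩
              rw [Real.norm_eq_abs] at h3
              have h4 : y ∈ Set.Icc (-|H|) |H| := by
                rw [Set.mem_Icc, ← abs_le]
                exact h3.trans (le_abs_self H)
              simp only
              rw [Set.indicator_of_mem h4, ind_mem hv]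
              simp
            · simp only
              rw [ind_not hv]; simp
        _ = ENNReal.ofReal (2 * |H|) := by
            rw [lintegral_indicator measurableSet_Icc, setLIntegral_const, one_mul, Real.volume_Icc]
            congr 1; ring
        _ ≤ _ := ENNReal.ofReal_le_ofReal (by linarith [abs_nonneg R, abs_nonneg H])
  obtain ⟨M, hM⟩ := hGA
  have hk : ∀ k, volume (B k) ≤ C * ∑' j : ℕ, 2⁻¹ ^ j * QQ (bj j / (4 * r) / 2 ^ k) (ind A) := by
    intro k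
    have hd : 0 < 4 * r * 2 ^ k := by positivity
    have hp : (1:ℝ) ≤ 2 ^ k := one_le_pow₀ (by norm_num)
    have hrd : r ≤ 4 * r * 2 ^ k / 4 := by nlinarith
    have key := h A (B k) ε (4 * r * 2 ^ k) hAc (hBc k) hε hd
      (by
        rintro v ⟨_, hv⟩
        have hv' : |v.1| ≤ r := hv
        linarith)
      (by
        rintro v ⟨_, hv1, hv2⟩
        rw [abs_le]
        constructor
        · have : -(2 * (4 * r * 2 ^ k)) ≤ v.1 := hv1
          linarith
        · have : v.1 ≤ -(4 * r * 2 ^ k) := hv2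
          linarith)
      (by
        rintro v ⟨_, hv⟩ q ⟨_, hq1, hq2⟩
        have hv' : |v.1| ≤ r := hv
        have hv'' := abs_le.1 hv'
        have hq1' : -(2 * (4 * r * 2 ^ k)) ≤ q.1 := hq1
        have hq2' : q.1 ≤ -(4 * r * 2 ^ k) := hq2
        constructor
        · linarith [hv''.1]
        · linarith [hv''.2])
      (fun q hq v hv v' hv' => hav q hq.1 v hv.1 v' hv'.1)
      (fun q hq v hv v' hv' => hav q hq.1 v hv.1 v' hv'.1)
    calc volume (B k) = 1 ^ 2 * volume (B k) := by ring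
      _ ≤ volume A ^ 2 * volume (B k) := by gcongr
      _ ≤ _ := key
      _ = _ := by
          congr 1
          apply tsum_congr
          intro j
          rw [div_div]
  calc volume (E ∩ {v : ℝ × ℝ | v.1 < -(4 * r)}) ≤ volume (⋃ k, B k) := measure_mono hcover
    _ ≤ ∑' k, volume (B k) := measure_iUnion_le _
    _ ≤ ∑' k : ℕ, C * ∑' j : ℕ, 2⁻¹ ^ j * QQ (bj j / (4 * r) / 2 ^ k) (ind A) :=
        ENNReal.tsum_le_tsum hk
    _ = C * ∑' j : ℕ, 2⁻¹ ^ j * ∑' k : ℕ, QQ (bj j / (4 * r) / 2 ^ k) (ind A) := by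
        rw [ENNReal.tsum_mul_left, ENNReal.tsum_comm]
        congr 1
        apply tsum_congr
        intro j
        rw [ENNReal.tsum_mul_left]
    _ ≤ C * ∑' j : ℕ, 2⁻¹ ^ j * (23 * volume A) := by
        refine mul_le_mul' le_rfl (ENNReal.tsum_le_tsum fun j => mul_le_mul' le_rfl ?_)
        have := QQ_sum_le (c := bj j / (4 * r)) hM
        rwa [ind_lint_sq hAc.measurableSet] at this
    _ = C * (2 * (23 * volume A)) := by
        rw [ENNReal.tsum_mul_right, ENNReal.tsum_geometric, ENNReal.one_sub_inv_two, inv_inv]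
    _ ≤ C * (2 * (23 * 2)) := by gcongr
    _ = C * 92 := by norm_num

/-- strip selection -/
theorem strip_sel {E : Set (ℝ × ℝ)} (hE : IsCompact E) (h1 : 1 < volume E) :
    ∃ x₀ r : ℝ, 0 < r ∧ 1 ≤ volume (E ∩ {v | |v.1 - x₀| ≤ r}) ∧ volume (E ∩ {v | |v.1 - x₀| ≤ r}) ≤ 2 ∧
      volume (E ∩ {v | |v.1 - x₀| ≤ 4 * r}) ≤ 9 := by
  obtain ⟨R1, hR1⟩ := (hE.image continuous_fst).isBounded.exists_norm_le
  obtain ⟨R2, hR2⟩ := (hE.image continuous_snd).isBounded.exists_norm_le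
  set R := 1 + |R1| + |R2| with hR
  have hR0 : 0 < R := by positivity
  have hx : ∀ v ∈ E, |v.1| ≤ R := by
    intro v hv
    have := hR1 v.1 ⟨v, hv, rfl⟩
    rw [Real.norm_eq_abs] at this
    linarith [le_abs_self R1, abs_nonneg R2]
  have hy : ∀ v ∈ E, |v.2| ≤ R := by
    intro v hv
    have := hR2 v.2 ⟨v, hv, rfl⟩
    rw [Real.norm_eq_abs] at this
    linarith [le_abs_self R2, abs_nonneg R1]
  set P : ℕ → Prop := fun n => ∃ x₀ : ℝ, 1 < volume (E ∩ {v : ℝ × ℝ | |v.1 - x₀| ≤ R / 2 ^ n}) with hP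
  have hP0 : P 0 := by
    refine ⟨0, ?_⟩
    have : E ∩ {v : ℝ × ℝ | |v.1 - 0| ≤ R / 2 ^ 0} = E := by
      ext v
      constructor
      · exact fun h => h.1
      · intro h
        refine ⟨h, ?_⟩
        show |v.1 - 0| ≤ R / 2 ^ 0
        simpa using hx v h
    rw [this]; exact h1
  have hPn : ∃ n, ¬ P n := by
    obtain ⟨n, hn⟩ := pow_unbounded_of_one_lt (4 * R * R) (by norm_num : (1:ℝ) < 2)
    refine ⟨n, ?_⟩
    rintro ⟨x₀, hx₀⟩
    have hsub : E ∩ {v : ℝ × ℝ | |v.1 - x₀| ≤ R / 2 ^ n} ⊆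
        Set.Icc (x₀ - R / 2 ^ n) (x₀ + R / 2 ^ n) ×ˢ Set.Icc (-R) R := by
      rintro v ⟨hv, hv2⟩
      have hv2' : |v.1 - x₀| ≤ R / 2 ^ n := hv2
      rw [abs_le] at hv2'
      rw [Set.mem_prod, Set.mem_Icc, Set.mem_Icc, ← abs_le]
      exact ⟨⟨by linarith [hv2'.1], by linarith [hv2'.2]⟩, hy v hv⟩
    have h2 := measure_mono (μ := volume) hsub
    rw [Measure.volume_eq_prod, Measure.prod_prod, Real.volume_Icc, Real.volume_Icc,
      ← ENNReal.ofReal_mul (by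
        have : 0 < R / 2 ^ n := by positivity
        linarith)] at h2
    have h3 : ENNReal.ofReal ((x₀ + R / 2 ^ n - (x₀ - R / 2 ^ n)) * (R - -R)) ≤ 1 := by
      rw [ENNReal.ofReal_le_one]
      have e : (x₀ + R / 2 ^ n - (x₀ - R / 2 ^ n)) * (R - -R) = (4 * R * R) / 2 ^ n := by
        field_simp; ring
      rw [e, div_le_one (by positivity)]
      exact hn.le
    rw [Measure.volume_eq_prod] at hx₀
    exact absurd (h2.trans h3) (not_le.2 hx₀)
  obtain ⟨n, hn, hn'⟩ : ∃ n, P n ∧ ¬ P (n + 1) := by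
    by_contra hcon
    push Not at hcon
    obtain ⟨m, hm⟩ := hPn
    apply hm
    clear hm
    induction m with
    | zero => exact hP0
    | succ k ih => exact hcon k ih
  obtain ⟨x₀, hx₀⟩ := hn
  set r := R / 2 ^ n with hr
  have hr0 : 0 < r := by positivity
  have hhalf : ∀ x₁ : ℝ, volume (E ∩ {v : ℝ × ℝ | |v.1 - x₁| ≤ r / 2}) ≤ 1 := by
    intro x₁
    by_contra hcon
    apply hn'
    refine ⟨x₁, ?_⟩
    have : R / 2 ^ (n + 1) = r / 2 := by rw [hr, pow_succ]; field_simp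
    rw [this]
    exact not_le.1 hcon
  refine ⟨x₀, r, hr0, hx₀.le, ?_, ?_⟩
  · have hsub : E ∩ {v : ℝ × ℝ | |v.1 - x₀| ≤ r} ⊆
        (E ∩ {v : ℝ × ℝ | |v.1 - (x₀ - r / 2)| ≤ r / 2}) ∪ (E ∩ {v : ℝ × ℝ | |v.1 - (x₀ + r / 2)| ≤ r / 2}) := by
      rintro v ⟨hv, hv2⟩
      have hv2' : |v.1 - x₀| ≤ r := hv2
      rw [abs_le] at hv2'
      by_cases h : v.1 ≤ x₀
      · left
        refine ⟨hv, ?_⟩
        show |v.1 - (x₀ - r / 2)| ≤ r / 2
        rw [abs_le]; constructor <;> linarith [hv2'.1, hv2'.2]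
      · right
        refine ⟨hv, ?_⟩
        show |v.1 - (x₀ + r / 2)| ≤ r / 2
        rw [abs_le]; constructor <;> linarith [hv2'.1, hv2'.2]
    calc _ ≤ _ := measure_mono hsub
      _ ≤ _ := measure_union_le _ _
      _ ≤ 1 + 1 := add_le_add (hhalf _) (hhalf _)
      _ = 2 := by norm_num
  · have hsub : E ∩ {v : ℝ × ℝ | |v.1 - x₀| ≤ 4 * r} ⊆
        ⋃ i ∈ Finset.range 9, (E ∩ {v : ℝ × ℝ | |v.1 - (x₀ - 4 * r + (i:ℝ) * r + r / 2)| ≤ r / 2}) := by
      rintro v ⟨hv, hv2⟩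
      have hv2' : |v.1 - x₀| ≤ 4 * r := hv2
      rw [abs_le] at hv2'
      set y := (v.1 - x₀ + 4 * r) / r with hy'
      have hy0 : 0 ≤ y := by
        apply div_nonneg _ hr0.le
        linarith [hv2'.1]
      have hy8 : y ≤ 8 := by
        rw [hy', div_le_iff₀ hr0]; linarith [hv2'.2]
      have hyr : y * r = v.1 - x₀ + 4 * r := by rw [hy']; field_simp
      have hf1 := Nat.floor_le hy0
      have hf2 := Nat.lt_floor_add_one y
      rw [Set.mem_iUnion₂]
      refine ⟨⌊y⌋₊, ?_, hv, ?_⟩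
      · rw [Finset.mem_range]
        have : ((⌊y⌋₊ : ℕ) : ℝ) < 9 := by linarith
        exact_mod_cast this
      · show |v.1 - (x₀ - 4 * r + (⌊y⌋₊:ℝ) * r + r / 2)| ≤ r / 2
        rw [abs_le]
        constructor <;> nlinarith
    calc _ ≤ _ := measure_mono hsub
      _ ≤ ∑ i ∈ Finset.range 9, volume (E ∩ {v : ℝ × ℝ | |v.1 - (x₀ - 4 * r + (i:ℝ) * r + r / 2)| ≤ r / 2}) :=
          measure_biUnion_finset_le _ _
      _ ≤ ∑ i ∈ Finset.range 9, 1 := Finset.sum_le_sum fun i _ => hhalf _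
      _ = 9 := by simp

/-- translation -/
def tr (x₀ : ℝ) (v : ℝ × ℝ) : ℝ × ℝ := (v.1 + x₀, v.2)

theorem tr_eq (x₀ : ℝ) : tr x₀ = fun v => v + (x₀, 0) := by
  ext v <;> simp [tr]

theorem tr_mp (x₀ : ℝ) : MeasurePreserving (tr x₀) volume volume := by
  rw [tr_eq]; exact measurePreserving_add_right volume _

theorem tr_compact {E : Set (ℝ × ℝ)} (hE : IsCompact E) (x₀ : ℝ) : IsCompact (tr x₀ ⁻¹' E) := by
  have : tr x₀ ⁻¹' E = tr (-x₀) '' E := by
    ext v
    constructor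
    · intro h
      refine ⟨tr x₀ v, h, ?_⟩
      ext <;> simp [tr]
    · rintro ⟨w, hw, rfl⟩
      show tr x₀ (tr (-x₀) w) ∈ E
      have : tr x₀ (tr (-x₀) w) = w := by ext <;> simp [tr]
      rwa [this]
  rw [this]
  apply hE.image
  unfold tr; fun_prop

theorem rf_compact {E : Set (ℝ × ℝ)} (hE : IsCompact E) : IsCompact (rf ⁻¹' E) := by
  have : rf ⁻¹' E = rf '' E := by
    ext v
    constructor
    · intro h; exact ⟨rf v, h, rf_rf v⟩
    · rintro ⟨w, hw, rfl⟩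
      show rf (rf w) ∈ E
      rwa [rf_rf]
  rw [this]; exact hE.image rf_cont

theorem compact_bound : ∃ C : ℝ≥0∞, C ≠ ⊤ ∧ ∀ (E : Set (ℝ × ℝ)) (ε : ℝ), IsCompact E → 0 < ε →
    (∀ p ∈ E, ∀ q ∈ E, ∀ s ∈ E, ε ≤ |DD p q s - 2|) → volume E ≤ C := by
  obtain ⟨C, hC, hleft⟩ := left_lemma
  refine ⟨1 + (9 + C + C), ?_, ?_⟩
  · exact ENNReal.add_ne_top.2 ⟨by norm_num, ENNReal.add_ne_top.2 ⟨ENNReal.add_ne_top.2 ⟨by norm_num, hC⟩, hC⟩⟩
  intro E ε hE hε hav
  by_cases h1 : volume E ≤ 1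
  · exact h1.trans le_self_add
  push Not at h1
  obtain ⟨x₀, r, hr, ha, hb, hc⟩ := strip_sel hE h1
  refine le_trans ?_ le_add_self
  have hEm := hE.measurableSet
  set E1 := tr x₀ ⁻¹' E with hE1
  have hE1c := tr_compact hE x₀
  have hav1 : ∀ p ∈ E1, ∀ q ∈ E1, ∀ s ∈ E1, ε ≤ |DD p q s - 2| := by
    intro p hp q hq s hs
    have := hav _ hp _ hq _ hs
    have e : DD (tr x₀ p) (tr x₀ q) (tr x₀ s) = DD p q s := by simp only [DD, tr]; ring
    rwa [e] at this
  have hav2 : ∀ p ∈ rf ⁻¹' E1, ∀ q ∈ rf ⁻¹' E1, ∀ s ∈ rf ⁻¹' E1, ε ≤ |DD p q s - 2| := by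
    intro p hp q hq s hs
    have := hav1 _ hp _ hs _ hq
    have e : DD (rf p) (rf s) (rf q) = DD p q s := by simp only [DD, rf]; ring
    rwa [e] at this
  have mstrip : ∀ c : ℝ, MeasurableSet {v : ℝ × ℝ | |v.1 - x₀| ≤ c} := fun c =>
    measurableSet_le (by fun_prop) measurable_const
  have v1 : volume (E1 ∩ {v : ℝ × ℝ | |v.1| ≤ r}) = volume (E ∩ {v : ℝ × ℝ | |v.1 - x₀| ≤ r}) := by
    have : E1 ∩ {v : ℝ × ℝ | |v.1| ≤ r} = tr x₀ ⁻¹' (E ∩ {v : ℝ × ℝ | |v.1 - x₀| ≤ r}) := by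
      ext v
      constructor
      · rintro ⟨h1, h2⟩
        refine ⟨h1, ?_⟩
        show |v.1 + x₀ - x₀| ≤ r
        rw [add_sub_cancel_right]; exact h2
      · rintro ⟨h1, h2⟩
        refine ⟨h1, ?_⟩
        have h3 : |v.1 + x₀ - x₀| ≤ r := h2
        rw [add_sub_cancel_right] at h3; exact h3
    rw [this, (tr_mp x₀).measure_preimage (hEm.inter (mstrip r)).nullMeasurableSet]
  have v2 : volume (rf ⁻¹' E1 ∩ {v : ℝ × ℝ | |v.1| ≤ r}) = volume (E ∩ {v : ℝ × ℝ | |v.1 - x₀| ≤ r}) := by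
    rw [← v1]
    have : rf ⁻¹' E1 ∩ {v : ℝ × ℝ | |v.1| ≤ r} = rf ⁻¹' (E1 ∩ {v : ℝ × ℝ | |v.1| ≤ r}) := by
      ext v
      constructor
      · rintro ⟨h1, h2⟩
        refine ⟨h1, ?_⟩
        show |-v.1| ≤ r
        rw [abs_neg]; exact h2
      · rintro ⟨h1, h2⟩
        refine ⟨h1, ?_⟩
        have h3 : |-v.1| ≤ r := h2
        rw [abs_neg] at h3; exact h3
    rw [this, rf_mp.measure_preimage]
    apply MeasurableSet.nullMeasurableSet
    exact hE1c.measurableSet.inter (measurableSet_le (by fun_prop) measurable_const)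
  have L1 := hleft E1 ε r hE1c hε hr hav1 (by rw [v1]; exact ha) (by rw [v1]; exact hb)
  have L2 := hleft (rf ⁻¹' E1) ε r (rf_compact hE1c) hε hr hav2 (by rw [v2]; exact ha) (by rw [v2]; exact hb)
  have w1 : volume (E ∩ {v : ℝ × ℝ | v.1 < x₀ - 4 * r}) ≤ C := by
    have : tr x₀ ⁻¹' (E ∩ {v : ℝ × ℝ | v.1 < x₀ - 4 * r}) = E1 ∩ {v : ℝ × ℝ | v.1 < -(4 * r)} := by
      ext v
      constructor
      · rintro ⟨h1, h2⟩
        refine ⟨h1, ?_⟩
        have h3 : v.1 + x₀ < x₀ - 4 * r := h2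
        show v.1 < -(4 * r)
        linarith
      · rintro ⟨h1, h2⟩
        refine ⟨h1, ?_⟩
        have h3 : v.1 < -(4 * r) := h2
        show v.1 + x₀ < x₀ - 4 * r
        linarith
    rw [← this, (tr_mp x₀).measure_preimage] at L1
    · exact L1
    · exact (hEm.inter (measurableSet_lt (by fun_prop) measurable_const)).nullMeasurableSet
  have w2 : volume (E ∩ {v : ℝ × ℝ | x₀ + 4 * r < v.1}) ≤ C := by
    have : rf ⁻¹' (tr x₀ ⁻¹' (E ∩ {v : ℝ × ℝ | x₀ + 4 * r < v.1})) = rf ⁻¹' E1 ∩ {v : ℝ × ℝ | v.1 < -(4 * r)} := by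
      ext v
      constructor
      · rintro ⟨h1, h2⟩
        refine ⟨h1, ?_⟩
        have h3 : x₀ + 4 * r < -v.1 + x₀ := h2
        show v.1 < -(4 * r)
        linarith
      · rintro ⟨h1, h2⟩
        refine ⟨h1, ?_⟩
        have h3 : v.1 < -(4 * r) := h2
        show x₀ + 4 * r < -v.1 + x₀
        linarith
    have hms : MeasurableSet (E ∩ {v : ℝ × ℝ | x₀ + 4 * r < v.1}) :=
      hEm.inter (measurableSet_lt measurable_const (by fun_prop))
    rw [← this, rf_mp.measure_preimage ((tr_mp x₀).measurable hms).nullMeasurableSet,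
      (tr_mp x₀).measure_preimage hms.nullMeasurableSet] at L2
    exact L2
  have hsub : E ⊆ (E ∩ {v : ℝ × ℝ | |v.1 - x₀| ≤ 4 * r}) ∪ (E ∩ {v : ℝ × ℝ | v.1 < x₀ - 4 * r})
      ∪ (E ∩ {v : ℝ × ℝ | x₀ + 4 * r < v.1}) := by
    intro v hv
    by_cases h : |v.1 - x₀| ≤ 4 * r
    · exact Or.inl (Or.inl ⟨hv, h⟩)
    · rw [abs_le, not_and_or] at h
      rcases h with h | h
      · exact Or.inl (Or.inr ⟨hv, by
          show v.1 < x₀ - 4 * r
          linarith [not_le.1 h]⟩)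
      · exact Or.inr ⟨hv, by
          show x₀ + 4 * r < v.1
          linarith [not_le.1 h]⟩
  calc volume E ≤ _ := measure_mono hsub
    _ ≤ _ := measure_union_le _ _
    _ ≤ _ := add_le_add (measure_union_le _ _) le_rfl
    _ ≤ 9 + C + C := add_le_add (add_le_add hc w1) w2

/-- The theorem. -/
theorem erdos352 : ∃ c : ℝ, 0 < c ∧ ∀ A : Set (ℝ × ℝ), NullMeasurableSet A volume →
      ENNReal.ofReal c ≤ volume A →
      ∃ p ∈ A, ∃ q ∈ A, ∃ r ∈ A,
        |(q.1 - p.1) * (r.2 - p.2) - (r.1 - p.1) * (q.2 - p.2)| = 2 := by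
  obtain ⟨C, hC, hmain⟩ := compact_bound
  refine ⟨C.toReal + 1, by positivity, ?_⟩
  intro A hA hvol
  by_contra hcon
  push Not at hcon
  obtain ⟨A', hA'A, hA'm, hA'ae⟩ := hA.exists_measurable_subset_ae_eq
  have hlt : C < volume A' := by
    rw [measure_congr hA'ae]
    refine lt_of_lt_of_le ?_ hvol
    rw [ENNReal.ofReal_add ENNReal.toReal_nonneg zero_le_one, ENNReal.ofReal_toReal hC, ENNReal.ofReal_one]
    exact ENNReal.lt_add_right hC one_ne_zero
  obtain ⟨E, hEA, hE, hEv⟩ := hA'm.exists_lt_isCompact hlt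
  have hne : E.Nonempty := by
    by_contra h
    rw [Set.not_nonempty_iff_eq_empty] at h
    rw [h] at hEv
    simp at hEv
  have hEEE : IsCompact (E ×ˢ (E ×ˢ E)) := hE.prod (hE.prod hE)
  have hcont : ContinuousOn (fun x : (ℝ × ℝ) × ((ℝ × ℝ) × (ℝ × ℝ)) => |DD x.1 x.2.1 x.2.2 - 2|) (E ×ˢ (E ×ˢ E)) := by
    apply Continuous.continuousOn
    unfold DD
    fun_prop
  obtain ⟨x, hx, hmin⟩ := hEEE.exists_isMinOn (hne.prod (hne.prod hne)) hcont
  have hpos : 0 < |DD x.1 x.2.1 x.2.2 - 2| := by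
    rw [abs_pos]
    intro h
    have h2 : DD x.1 x.2.1 x.2.2 = 2 := by linarith
    apply hcon x.1 (hA'A (hEA hx.1)) x.2.1 (hA'A (hEA hx.2.1)) x.2.2 (hA'A (hEA hx.2.2))
    show |DD x.1 x.2.1 x.2.2| = 2
    rw [h2]; norm_num
  have := hmain E _ hE hpos (fun p hp q hq s hs => hmin (show (p, (q, s)) ∈ E ×ˢ (E ×ˢ E) from ⟨hp, hq, hs⟩))
  exact absurd this (not_le.2 hEv)

end Pool.Agent.H58
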